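import Pool.Agent.R71.GM.Main

set_option autoImplicit false
set_option linter.unusedSectionVars false

namespace Pool.Agent.R71.GM

open Finset

/-- number of `0`-coloured neighbours -/
def dg {V : Type} [Fintype V] [DecidableEq V] (c : V → V → ℕ) (x : V) : ℕ :=
  ∑ y : V, if x ≠ y ∧ c x y = 0 then 1 else 0

/-- adding two vertices to a colouring -/
def ext2 {V : Type} [DecidableEq V] (c : V → V → ℕ) (H H' : Finset V) : V ⊕ Bool → V ⊕ Bool → ℕ
  | .inl x, .inl y => c x y
  | .inl x, .inr true => if x ∈ H then 0 else 1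
  | .inl x, .inr false => if x ∈ H' then 0 else 1
  | .inr true, .inl x => if x ∈ H then 0 else 1
  | .inr false, .inl x => if x ∈ H' then 0 else 1
  | .inr _, .inr _ => 1

theorem ext2_symm {V : Type} [DecidableEq V] {c : V → V → ℕ} (hc : ∀ x y, c x y = c y x)
    (H H' : Finset V) : ∀ x y, ext2 c H H' x y = ext2 c H H' y x := by
  rintro (x | x) (y | y)
  · exact hc x y
  · cases y <;> rfl
  · cases x <;> rfl
  · cases x <;> cases y <;> rfl

theorem ext2_lt {V : Type} [DecidableEq V] {c : V → V → ℕ} (hc : ∀ x y, x ≠ y → c x y < 2)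
    (H H' : Finset V) : ∀ x y, x ≠ y → ext2 c H H' x y < 2 := by
  rintro (x | x) (y | y) h
  · exact hc x y (fun e => h (by rw [e]))
  · cases y <;> simp only [ext2] <;> split_ifs <;> norm_num
  · cases x <;> simp only [ext2] <;> split_ifs <;> norm_num
  · simp only [ext2]; norm_num

theorem ext2_dg_inl {V : Type} [Fintype V] [DecidableEq V] (c : V → V → ℕ) (H H' : Finset V)
    (x : V) : dg (ext2 c H H') (.inl x) =
      dg c x + (if x ∈ H then 1 else 0) + (if x ∈ H' then 1 else 0) := by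
  unfold dg
  rw [Fintype.sum_sum_type]
  have e1 : ∑ y : V, (if (Sum.inl x : V ⊕ Bool) ≠ Sum.inl y ∧
      ext2 c H H' (Sum.inl x) (Sum.inl y) = 0 then 1 else 0) =
      ∑ y : V, (if x ≠ y ∧ c x y = 0 then 1 else 0) := by
    refine sum_congr rfl fun y _ => ?_
    simp only [ext2, ne_eq, Sum.inl.injEq]
  rw [e1, Fintype.sum_bool]
  simp only [ext2, ne_eq, reduceCtorEq, not_false_eq_true, true_and]
  by_cases h1 : x ∈ H <;> by_cases h2 : x ∈ H' <;> simp [h1, h2]

theorem ext2_dg_tt {V : Type} [Fintype V] [DecidableEq V] (c : V → V → ℕ) (H H' : Finset V) :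
    dg (ext2 c H H') (.inr true) = H.card := by
  unfold dg
  rw [Fintype.sum_sum_type, Fintype.sum_bool]
  simp only [ext2, ne_eq, reduceCtorEq, not_false_eq_true, true_and]
  simp

theorem ext2_dg_ff {V : Type} [Fintype V] [DecidableEq V] (c : V → V → ℕ) (H H' : Finset V) :
    dg (ext2 c H H') (.inr false) = H'.card := by
  unfold dg
  rw [Fintype.sum_sum_type, Fintype.sum_bool]
  simp only [ext2, ne_eq, reduceCtorEq, not_false_eq_true, true_and]
  simp

/-- nearly regular 2-colourings on an odd number of vertices -/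
theorem bal_odd : ∀ i : ℕ,
    (∃ (V : Type) (_ : Fintype V) (_ : DecidableEq V) (c : V → V → ℕ),
      Fintype.card V = 4 * i + 1 ∧ (∀ x y, c x y = c y x) ∧ (∀ x y, x ≠ y → c x y < 2) ∧
      ∀ x, dg c x = 2 * i) ∧
    (∃ (V : Type) (_ : Fintype V) (_ : DecidableEq V) (c : V → V → ℕ) (x0 : V),
      Fintype.card V = 4 * i + 3 ∧ (∀ x y, c x y = c y x) ∧ (∀ x y, x ≠ y → c x y < 2) ∧
      dg c x0 = 2 * i ∧ ∀ x, x ≠ x0 → dg c x = 2 * i + 1) := by
  have step1 : ∀ i : ℕ, (∃ (V : Type) (_ : Fintype V) (_ : DecidableEq V) (c : V → V → ℕ),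
      Fintype.card V = 4 * i + 1 ∧ (∀ x y, c x y = c y x) ∧ (∀ x y, x ≠ y → c x y < 2) ∧
      ∀ x, dg c x = 2 * i) →
      (∃ (V : Type) (_ : Fintype V) (_ : DecidableEq V) (c : V → V → ℕ) (x0 : V),
      Fintype.card V = 4 * i + 3 ∧ (∀ x y, c x y = c y x) ∧ (∀ x y, x ≠ y → c x y < 2) ∧
      dg c x0 = 2 * i ∧ ∀ x, x ≠ x0 → dg c x = 2 * i + 1) := by
    rintro i ⟨V, hF, hD, c, hcard, hsym, hlt, hdg⟩
    obtain ⟨H, _, hH⟩ := exists_subset_card_eq (s := (univ : Finset V)) (n := 2 * i + 1)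
      (by rw [card_univ, hcard]; omega)
    refine ⟨V ⊕ Bool, inferInstance, inferInstance, ext2 c H Hᶜ, .inr false, ?_,
      ext2_symm hsym _ _, ext2_lt hlt _ _, ?_, ?_⟩
    · rw [Fintype.card_sum, hcard, Fintype.card_bool]
    · rw [ext2_dg_ff, card_compl, hcard, hH]; omega
    · rintro (x | b) hx
      · rw [ext2_dg_inl, hdg]
        by_cases h : x ∈ H <;> simp [h]
      · cases b
        · exact absurd rfl hx
        · rw [ext2_dg_tt, hH]
  have step2 : ∀ i : ℕ, (∃ (V : Type) (_ : Fintype V) (_ : DecidableEq V) (c : V → V → ℕ) (x0 : V),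
      Fintype.card V = 4 * i + 3 ∧ (∀ x y, c x y = c y x) ∧ (∀ x y, x ≠ y → c x y < 2) ∧
      dg c x0 = 2 * i ∧ ∀ x, x ≠ x0 → dg c x = 2 * i + 1) →
      (∃ (V : Type) (_ : Fintype V) (_ : DecidableEq V) (c : V → V → ℕ),
      Fintype.card V = 4 * (i + 1) + 1 ∧ (∀ x y, c x y = c y x) ∧ (∀ x y, x ≠ y → c x y < 2) ∧
      ∀ x, dg c x = 2 * (i + 1)) := by
    rintro i ⟨V, hF, hD, c, x0, hcard, hsym, hlt, hdg0, hdg⟩
    have hc' : (univ.erase x0 : Finset V).card = 4 * i + 2 := by
      rw [card_erase_of_mem (mem_univ _), card_univ, hcard]; omega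
    obtain ⟨X, hXs, hX⟩ := exists_subset_card_eq (s := (univ.erase x0 : Finset V))
      (n := 2 * i + 1) (by rw [hc']; omega)
    have hx0X : x0 ∉ X := fun h => notMem_erase x0 univ (hXs h)
    refine ⟨V ⊕ Bool, inferInstance, inferInstance, ext2 c (insert x0 X) Xᶜ, ?_,
      ext2_symm hsym _ _, ext2_lt hlt _ _, ?_⟩
    · rw [Fintype.card_sum, hcard, Fintype.card_bool]
      ring
    · rintro (x | b)
      · rw [ext2_dg_inl]
        by_cases hx : x = x0
        · subst hx
          rw [hdg0]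
          simp [hx0X]
          ring
        · rw [hdg x hx]
          by_cases h : x ∈ X
          · simp [h]; ring
          · simp [h, hx]; ring
      · cases b
        · rw [ext2_dg_ff, card_compl, hcard, hX]; omega
        · rw [ext2_dg_tt, card_insert_of_notMem hx0X, hX]; ring
  intro i
  induction i with
  | zero =>
    have base : (∃ (V : Type) (_ : Fintype V) (_ : DecidableEq V) (c : V → V → ℕ),
      Fintype.card V = 4 * 0 + 1 ∧ (∀ x y, c x y = c y x) ∧ (∀ x y, x ≠ y → c x y < 2) ∧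
      ∀ x, dg c x = 2 * 0) := by
      refine ⟨Unit, inferInstance, inferInstance, fun _ _ => 0, rfl, fun _ _ => rfl,
        fun _ _ _ => by norm_num, fun x => ?_⟩
      unfold dg
      simp
    exact ⟨base, step1 0 base⟩
  | succ i ih => exact ⟨step2 i ih.2, step1 (i + 1) (step2 i ih.2)⟩

/-- existence of a 2-colouring with exactly Goodman's number of monochromatic triangles -/
theorem good_exists (n : ℕ) : ∃ (V : Type) (_ : Fintype V) (_ : DecidableEq V) (c : V → V → ℕ),
    Fintype.card V = n ∧ (∀ x y, c x y = c y x) ∧ (∀ x y, x ≠ y → c x y < 2) ∧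
    T c univ = E2v n := by
  -- formula for T
  have formula : ∀ (V : Type) [Fintype V] [DecidableEq V] (c : V → V → ℕ),
      (∀ x y, c x y = c y x) → (∀ x y, x ≠ y → c x y < 2) →
      T c univ = ((Fintype.card V : ℝ) * (Fintype.card V - 1) * (Fintype.card V - 2) -
        3 * ∑ x : V, ((dg c x : ℝ) * ((Fintype.card V : ℝ) - 1 - dg c x))) / 6 := by
    intro V _ _ c hsym hlt
    have h2 : ∀ x y, x ≠ y → c x y = 0 ∨ c x y = 1 := by
      intro x y hxy
      have := hlt x y hxy
      omega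
    have hdgc : ∀ x, dg c x = ((univ : Finset V).filter (fun y => x ≠ y ∧ c x y = 0)).card := by
      intro x; unfold dg; rw [card_filter]
    unfold T
    rw [T3_goodman hsym (fun x _ y _ z _ h1 h2' h3 => by
      rcases h2 x y h1 with a | a <;> rcases h2 y z h2' with a' | a' <;>
      rcases h2 x z h3 with a'' | a'' <;> simp [a, a', a''])]
    have : ∑ x : V, PhS c univ x = ∑ x : V,
        2 * ((dg c x : ℝ) * ((Fintype.card V : ℝ) - 1 - dg c x)) := by
      refine sum_congr rfl fun x _ => ?_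
      rw [PhS_two (r := 0) (b := 1) (by norm_num) (mem_univ x) (fun y _ hxy => h2 x y hxy),
        ← hdgc, card_univ]
    rw [this, ← mul_sum, card_univ]
    ring
  rcases Nat.eq_zero_or_pos n with h0 | h0
  · subst h0
    refine ⟨Empty, inferInstance, inferInstance, fun _ _ => 0, rfl, fun _ _ => rfl,
      fun _ _ _ => by norm_num, ?_⟩
    simp [T, T3, E2v, G2]
  obtain ⟨i, q, hq, hni⟩ : ∃ i q : ℕ, q < 4 ∧ n = 4 * i + 1 + q :=
    ⟨(n - 1) / 4, (n - 1) % 4, Nat.mod_lt _ (by norm_num), by omega⟩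
  obtain ⟨w1, w2, w3, w4⟩ := E2v_vals i
  -- two cliques
  have two : ∀ h : ℕ, 1 ≤ h → ∃ (V : Type) (_ : Fintype V) (_ : DecidableEq V) (c : V → V → ℕ),
      Fintype.card V = 2 * h ∧ (∀ x y, c x y = c y x) ∧ (∀ x y, x ≠ y → c x y < 2) ∧
      ∀ x, dg c x = h - 1 := by
    intro h hh
    refine ⟨Bool × Fin h, inferInstance, inferInstance, fun x y => if x.1 = y.1 then 0 else 1,
      ?_, ?_, ?_, ?_⟩
    · rw [Fintype.card_prod, Fintype.card_bool, Fintype.card_fin]
    · intro x y
      by_cases hxy : x.1 = y.1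
      · simp [hxy]
      · simp [hxy, Ne.symm hxy]
    · intro x y _
      by_cases hxy : x.1 = y.1 <;> simp [hxy]
    · rintro ⟨a, x⟩
      unfold dg
      rw [Fintype.sum_prod_type]
      have hb : ∀ b : Bool, ∑ y : Fin h, (if (a, x) ≠ (b, y) ∧
          (if (a, x).1 = (b, y).1 then 0 else 1) = 0 then 1 else 0) =
          if b = a then h - 1 else 0 := by
        intro b
        by_cases hba : b = a
        · subst hba
          have : ∀ y : Fin h, (if (b, x) ≠ (b, y) ∧
            (if (b, x).1 = (b, y).1 then 0 else 1) = 0 then 1 else 0) =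
              if x ≠ y then 1 else 0 := by
            intro y
            by_cases hxy : x = y <;> simp [hxy]
          rw [sum_congr rfl fun y _ => this y, if_pos rfl, ← card_filter]
          have e : (univ.filter (fun y : Fin h => x ≠ y)) = univ.erase x := by
            ext y; simp [eq_comm]
          rw [e, card_erase_of_mem (mem_univ _), card_univ, Fintype.card_fin]
        · rw [if_neg hba]
          refine sum_eq_zero fun y _ => ?_
          rw [if_neg]
          rintro ⟨_, h2⟩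
          simp [Ne.symm hba] at h2
      rw [Fintype.sum_bool, hb, hb]
      cases a <;> simp
  interval_cases q
  · obtain ⟨V, hF, hD, c, hcard, hsym, hlt, hdg⟩ := (bal_odd i).1
    refine ⟨V, hF, hD, c, by omega, hsym, hlt, ?_⟩
    rw [formula V c hsym hlt, hni, add_zero, w1]
    have : ∑ x : V, ((dg c x : ℝ) * ((Fintype.card V : ℝ) - 1 - dg c x)) =
        ∑ _x : V, ((2 * i : ℝ) * (2 * i)) := by
      refine sum_congr rfl fun x _ => ?_
      rw [hdg x, hcard]; push_cast; ring
    rw [this, sum_const, card_univ, nsmul_eq_mul, hcard]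
    push_cast; ring
  · obtain ⟨V, hF, hD, c, hcard, hsym, hlt, hdg⟩ := two (2 * i + 1) (by omega)
    refine ⟨V, hF, hD, c, by omega, hsym, hlt, ?_⟩
    rw [formula V c hsym hlt, hni, show 4 * i + 1 + 1 = 4 * i + 2 by ring, w2]
    have : ∑ x : V, ((dg c x : ℝ) * ((Fintype.card V : ℝ) - 1 - dg c x)) =
        ∑ _x : V, ((2 * i : ℝ) * (2 * i + 1)) := by
      refine sum_congr rfl fun x _ => ?_
      rw [hdg x, hcard, show 2 * i + 1 - 1 = 2 * i by omega]; push_cast; ring
    rw [this, sum_const, card_univ, nsmul_eq_mul, hcard]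
    push_cast; ring
  · obtain ⟨V, hF, hD, c, x0, hcard, hsym, hlt, hdg0, hdg⟩ := (bal_odd i).2
    refine ⟨V, hF, hD, c, by omega, hsym, hlt, ?_⟩
    rw [formula V c hsym hlt, hni, show 4 * i + 1 + 2 = 4 * i + 3 by ring, w3]
    have : ∑ x : V, ((dg c x : ℝ) * ((Fintype.card V : ℝ) - 1 - dg c x)) =
        ∑ x : V, ((2 * i + 1 : ℝ) * (2 * i + 1) - if x = x0 then 1 else 0) := by
      refine sum_congr rfl fun x _ => ?_
      by_cases hx : x = x0
      · rw [if_pos hx, hx, hdg0, hcard]; push_cast; ring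
      · rw [if_neg hx, hdg x hx, hcard]; push_cast; ring
    rw [this, sum_sub_distrib, sum_const, card_univ, nsmul_eq_mul, hcard,
      sum_ite_eq' univ x0, if_pos (mem_univ _)]
    push_cast; ring
  · obtain ⟨V, hF, hD, c, hcard, hsym, hlt, hdg⟩ := two (2 * i + 2) (by omega)
    refine ⟨V, hF, hD, c, by omega, hsym, hlt, ?_⟩
    rw [formula V c hsym hlt, hni, show 4 * i + 1 + 3 = 4 * i + 4 by ring, w4]
    have : ∑ x : V, ((dg c x : ℝ) * ((Fintype.card V : ℝ) - 1 - dg c x)) =
        ∑ _x : V, ((2 * i + 1 : ℝ) * (2 * i + 2)) := by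
      refine sum_congr rfl fun x _ => ?_
      rw [hdg x, hcard, show 2 * i + 2 - 1 = 2 * i + 1 by omega]; push_cast; ring
    rw [this, sum_const, card_univ, nsmul_eq_mul, hcard]
    push_cast; ring

end Pool.Agent.R71.GM
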