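import Mathlib

set_option autoImplicit false

namespace Pool.Agent.R71.GM

open Finset

variable {V C : Type*} [DecidableEq V] [DecidableEq C]

/-- symmetric colouring without rainbow triangles -/
def Gal (c : V → V → C) : Prop :=
  (∀ x y, c x y = c y x) ∧
  ∀ x y z, x ≠ y → y ≠ z → x ≠ z → (c x y = c y z ∨ c y z = c x z ∨ c x y = c x z)

/-- indicator of a monochromatic triangle on an ordered triple -/
noncomputable def M (c : V → V → C) (x y z : V) : ℝ :=
  if x ≠ y ∧ y ≠ z ∧ x ≠ z ∧ c x y = c y z ∧ c x y = c x z then 1 else 0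

/-- ordered count -/
noncomputable def T3 (c : V → V → C) (X Y Z : Finset V) : ℝ :=
  ∑ x ∈ X, ∑ y ∈ Y, ∑ z ∈ Z, M c x y z

noncomputable def T (c : V → V → C) (S : Finset V) : ℝ := T3 c S S S / 6

/-- twice the number of edges of colour `b` inside `S` -/
noncomputable def E2 (c : V → V → C) (b : C) (S : Finset V) : ℝ :=
  ∑ x ∈ S, ∑ y ∈ S, if x ≠ y ∧ c x y = b then (1:ℝ) else 0

theorem M_nonneg (c : V → V → C) (x y z : V) : 0 ≤ M c x y z := by
  unfold M; split_ifs <;> norm_num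

theorem M_le_one (c : V → V → C) (x y z : V) : M c x y z ≤ 1 := by
  unfold M; split_ifs <;> norm_num

theorem M_swap12 {c : V → V → C} (hc : ∀ x y, c x y = c y x) (x y z : V) :
    M c y x z = M c x y z := by
  unfold M
  congr 1
  apply propext
  constructor
  · rintro ⟨h1, h2, h3, h4, h5⟩
    exact ⟨h1.symm, h3, h2, by rw [hc x y]; exact h5, by rw [hc x y]; exact h4⟩
  · rintro ⟨h1, h2, h3, h4, h5⟩
    exact ⟨h1.symm, h3, h2, by rw [hc y x]; exact h5, by rw [hc y x]; exact h4⟩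

theorem M_swap23 {c : V → V → C} (hc : ∀ x y, c x y = c y x) (x y z : V) :
    M c x z y = M c x y z := by
  unfold M
  congr 1
  apply propext
  constructor
  · rintro ⟨h1, h2, h3, h4, h5⟩
    refine ⟨h3, h2.symm, h1, ?_, h5.symm⟩
    rw [← h5, h4, hc]
  · rintro ⟨h1, h2, h3, h4, h5⟩
    refine ⟨h3, h2.symm, h1, ?_, h5.symm⟩
    rw [← h5, h4, hc]

theorem T3_nonneg (c : V → V → C) (X Y Z : Finset V) : 0 ≤ T3 c X Y Z :=
  sum_nonneg fun _ _ => sum_nonneg fun _ _ => sum_nonneg fun _ _ => M_nonneg _ _ _ _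

theorem T_nonneg (c : V → V → C) (S : Finset V) : 0 ≤ T c S :=
  div_nonneg (T3_nonneg _ _ _ _) (by norm_num)

theorem E2_nonneg (c : V → V → C) (b : C) (S : Finset V) : 0 ≤ E2 c b S :=
  sum_nonneg fun _ _ => sum_nonneg fun _ _ => by split_ifs <;> norm_num

theorem T3_swap12 {c : V → V → C} (hc : ∀ x y, c x y = c y x) (X Y Z : Finset V) :
    T3 c Y X Z = T3 c X Y Z := by
  unfold T3
  rw [sum_comm]
  refine sum_congr rfl fun x _ => sum_congr rfl fun y _ => sum_congr rfl fun z _ => ?_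
  rw [M_swap12 hc]

theorem T3_swap23 {c : V → V → C} (hc : ∀ x y, c x y = c y x) (X Y Z : Finset V) :
    T3 c X Z Y = T3 c X Y Z := by
  unfold T3
  refine sum_congr rfl fun x _ => ?_
  rw [sum_comm]
  refine sum_congr rfl fun y _ => sum_congr rfl fun z _ => ?_
  rw [M_swap23 hc]

theorem T3_union1 {c : V → V → C} {X X' : Finset V} (h : Disjoint X X') (Y Z : Finset V) :
    T3 c (X ∪ X') Y Z = T3 c X Y Z + T3 c X' Y Z := by
  unfold T3
  rw [sum_union h]

theorem T3_union2 {c : V → V → C} (hc : ∀ x y, c x y = c y x) {Y Y' : Finset V}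
    (h : Disjoint Y Y') (X Z : Finset V) :
    T3 c X (Y ∪ Y') Z = T3 c X Y Z + T3 c X Y' Z := by
  rw [T3_swap12 hc (Y ∪ Y') X Z, T3_union1 h, T3_swap12 hc X Y Z, T3_swap12 hc X Y' Z]

theorem T3_union3 {c : V → V → C} (hc : ∀ x y, c x y = c y x) {Z Z' : Finset V}
    (h : Disjoint Z Z') (X Y : Finset V) :
    T3 c X Y (Z ∪ Z') = T3 c X Y Z + T3 c X Y Z' := by
  rw [T3_swap23 hc X (Z ∪ Z') Y, T3_union2 hc h, T3_swap23 hc X Y Z, T3_swap23 hc X Y Z']

theorem T3_union_all {c : V → V → C} (hc : ∀ x y, c x y = c y x) {A B : Finset V}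
    (h : Disjoint A B) :
    T3 c (A ∪ B) (A ∪ B) (A ∪ B) =
      T3 c A A A + 3 * T3 c B A A + 3 * T3 c A B B + T3 c B B B := by
  simp only [T3_union1 h, T3_union2 hc h, T3_union3 hc h]
  have e1 : T3 c A A B = T3 c B A A := by rw [T3_swap23 hc, T3_swap12 hc]
  have e2 : T3 c A B A = T3 c B A A := by rw [T3_swap12 hc]
  have e3 : T3 c B A B = T3 c A B B := by rw [T3_swap12 hc]
  have e4 : T3 c B B A = T3 c A B B := by rw [T3_swap23 hc, T3_swap12 hc]
  rw [e1, e2, e3, e4]
  ring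

theorem T3_mono {c : V → V → C} {X Y Z X' Y' Z' : Finset V} (hX : X ⊆ X') (hY : Y ⊆ Y')
    (hZ : Z ⊆ Z') : T3 c X Y Z ≤ T3 c X' Y' Z' := by
  unfold T3
  refine (sum_le_sum_of_subset_of_nonneg hX fun x _ _ => sum_nonneg fun _ _ =>
    sum_nonneg fun _ _ => M_nonneg _ _ _ _).trans ?_
  refine sum_le_sum fun x _ => ?_
  refine (sum_le_sum_of_subset_of_nonneg hY fun x _ _ => sum_nonneg fun _ _ =>
    M_nonneg _ _ _ _).trans ?_
  refine sum_le_sum fun y _ => ?_
  exact sum_le_sum_of_subset_of_nonneg hZ fun x _ _ => M_nonneg _ _ _ _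

theorem T_mono {c : V → V → C} {X Y : Finset V} (h : X ⊆ Y) : T c X ≤ T c Y := by
  unfold T
  have := T3_mono (c := c) h h h
  linarith

/-- a vertex joined to `A` in a single colour -/
theorem T3_cone {c : V → V → C} {W A : Finset V}
    (hd : Disjoint W A) {b : C} (h : ∀ w ∈ W, ∀ a ∈ A, c w a = b) :
    T3 c W A A = (W.card : ℝ) * E2 c b A := by
  unfold T3 E2
  rw [← nsmul_eq_mul, ← sum_const]
  refine sum_congr rfl fun w hw => sum_congr rfl fun x hx => sum_congr rfl fun y hy => ?_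
  unfold M
  have hwx : w ≠ x := fun e => disjoint_left.1 hd hw (e ▸ hx)
  have hwy : w ≠ y := fun e => disjoint_left.1 hd hw (e ▸ hy)
  congr 1
  apply propext
  rw [h w hw x hx, h w hw y hy]
  constructor
  · rintro ⟨_, h2, _, h4, _⟩
    exact ⟨h2, h4.symm⟩
  · rintro ⟨h2, h4⟩
    exact ⟨hwx, h2, hwy, h4.symm, rfl⟩

/-- the number of monochromatic triangles at `v` (twice) -/
noncomputable def tv (c : V → V → C) (S : Finset V) (v : V) : ℝ := T3 c {v} S S

theorem T_erase {c : V → V → C} (hc : ∀ x y, c x y = c y x) {S : Finset V} {v : V}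
    (hv : v ∈ S) : T c S = T c (S.erase v) + tv c S v / 2 := by
  have hd : Disjoint (S.erase v) {v} := by
    rw [disjoint_singleton_right]; exact notMem_erase _ _
  have hu : S.erase v ∪ {v} = S := by
    ext x; simp only [mem_union, mem_erase, mem_singleton]
    constructor
    · rintro (h | h)
      · exact h.2
      · exact h ▸ hv
    · intro h
      by_cases hx : x = v
      · exact Or.inr hx
      · exact Or.inl ⟨hx, h⟩
  have h1 := T3_union_all hc hd
  rw [hu] at h1
  have h2 : T3 c (S.erase v) {v} {v} = 0 := by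
    unfold T3
    refine sum_eq_zero fun x _ => ?_
    simp [M]
  have h3 : T3 c {v} {v} {v} = 0 := by
    unfold T3; simp [M]
  have h4 : tv c S v = T3 c {v} (S.erase v) (S.erase v) := by
    unfold tv
    conv_lhs => rw [← hu]
    rw [T3_union2 hc hd, T3_union3 hc hd, T3_union3 hc hd, h3]
    have : T3 c {v} (S.erase v) {v} = 0 := by
      rw [T3_swap12 hc]; exact h2
    have h' : T3 c {v} {v} (S.erase v) = 0 := by
      rw [T3_swap23 hc]; exact this
    rw [this, h']; ring
  unfold T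
  rw [h1, h2, h3, h4]
  ring

/-! ### Merging colours -/

/-- recolour `b` into `g` -/
def mrg (c : V → V → C) (b g : C) : V → V → C := fun x y => if c x y = b then g else c x y

theorem mrg_gal {c : V → V → C} (hG : Gal c) (b g : C) : Gal (mrg c b g) := by
  refine ⟨fun x y => by unfold mrg; rw [hG.1 x y], fun x y z h1 h2 h3 => ?_⟩
  unfold mrg
  rcases hG.2 x y z h1 h2 h3 with h | h | h
  · left; rw [h]
  · right; left; rw [h]
  · right; right; rw [h]

theorem mrg_point (c : V → V → C) (b : C) (G : Finset C) (hb : b ∉ G) (x y z : V) :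
    ∑ g ∈ G, M (mrg c b g) x y z ≤ G.card * M c x y z +
      ((if x ≠ y ∧ y ≠ z ∧ x ≠ z ∧ c x y = b then (1:ℝ) else 0) +
       (if x ≠ y ∧ y ≠ z ∧ x ≠ z ∧ c y z = b then (1:ℝ) else 0) +
       (if x ≠ y ∧ y ≠ z ∧ x ≠ z ∧ c x z = b then (1:ℝ) else 0)) := by
  by_cases hm : x ≠ y ∧ y ≠ z ∧ x ≠ z ∧ c x y = c y z ∧ c x y = c x z
  · have : M c x y z = 1 := by unfold M; rw [if_pos hm]
    rw [this]
    have h1 : ∑ g ∈ G, M (mrg c b g) x y z ≤ ∑ g ∈ G, (1:ℝ) :=
      sum_le_sum fun g _ => M_le_one _ _ _ _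
    rw [sum_const, nsmul_eq_mul] at h1
    have : (0:ℝ) ≤ ((if x ≠ y ∧ y ≠ z ∧ x ≠ z ∧ c x y = b then (1:ℝ) else 0) +
       (if x ≠ y ∧ y ≠ z ∧ x ≠ z ∧ c y z = b then (1:ℝ) else 0) +
       (if x ≠ y ∧ y ≠ z ∧ x ≠ z ∧ c x z = b then (1:ℝ) else 0)) := by
      split_ifs <;> norm_num
    linarith
  · have hM0 : M c x y z = 0 := by unfold M; rw [if_neg hm]
    rw [hM0, mul_zero, zero_add]
    by_cases hdist : x ≠ y ∧ y ≠ z ∧ x ≠ z
    · obtain ⟨d1, d2, d3⟩ := hdist
      -- at most one `g` contributes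
      by_cases hany : ∃ g ∈ G, M (mrg c b g) x y z ≠ 0
      · obtain ⟨g, hg, hgM⟩ := hany
        have hgm : mrg c b g x y = mrg c b g y z ∧ mrg c b g x y = mrg c b g x z := by
          by_contra hcon
          apply hgM
          unfold M
          rw [if_neg]
          rintro ⟨_, _, _, h4, h5⟩
          exact hcon ⟨h4, h5⟩
        have hgb : g ≠ b := fun e => hb (e ▸ hg)
        -- some edge has colour b
        have hsome : c x y = b ∨ c y z = b ∨ c x z = b := by
          by_contra hcon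
          push Not at hcon
          obtain ⟨q1, q2, q3⟩ := hcon
          unfold mrg at hgm
          rw [if_neg q1, if_neg q2, if_neg q3] at hgm
          exact hm ⟨d1, d2, d3, hgm.1, hgm.2⟩
        have huniq : ∀ g' ∈ G, g' ≠ g → M (mrg c b g') x y z = 0 := by
          intro g' hg' hne
          unfold M
          rw [if_neg]
          rintro ⟨_, _, _, h4, h5⟩
          have hg'b : g' ≠ b := fun e => hb (e ▸ hg')
          obtain ⟨k1, k2⟩ := hgm
          unfold mrg at h4 h5 k1 k2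
          by_cases a1 : c x y = b <;> by_cases a2 : c y z = b <;> by_cases a3 : c x z = b <;>
            simp only [a1, a2, a3, if_true, if_false] at h4 h5 k1 k2
          · exact hm ⟨d1, d2, d3, a1.trans a2.symm, a1.trans a3.symm⟩
          · exact hne (h5.trans k2.symm)
          · exact hne (h4.trans k1.symm)
          · exact hne (h4.trans k1.symm)
          · exact hne (h4.symm.trans k1)
          · exact hne (h4.symm.trans k1)
          · exact hne (h5.symm.trans k2)
          · rcases hsome with h | h | h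
            · exact a1 h
            · exact a2 h
            · exact a3 h
        rw [sum_eq_single_of_mem g hg huniq]
        refine (M_le_one _ _ _ _).trans ?_
        rcases hsome with h | h | h
        · rw [if_pos ⟨d1, d2, d3, h⟩]
          have : (0:ℝ) ≤ (if x ≠ y ∧ y ≠ z ∧ x ≠ z ∧ c y z = b then (1:ℝ) else 0) := by
            split_ifs <;> norm_num
          have : (0:ℝ) ≤ (if x ≠ y ∧ y ≠ z ∧ x ≠ z ∧ c x z = b then (1:ℝ) else 0) := by
            split_ifs <;> norm_num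
          linarith
        · rw [if_pos (show x ≠ y ∧ y ≠ z ∧ x ≠ z ∧ c y z = b from ⟨d1, d2, d3, h⟩)]
          have : (0:ℝ) ≤ (if x ≠ y ∧ y ≠ z ∧ x ≠ z ∧ c x y = b then (1:ℝ) else 0) := by
            split_ifs <;> norm_num
          have : (0:ℝ) ≤ (if x ≠ y ∧ y ≠ z ∧ x ≠ z ∧ c x z = b then (1:ℝ) else 0) := by
            split_ifs <;> norm_num
          linarith
        · rw [if_pos (show x ≠ y ∧ y ≠ z ∧ x ≠ z ∧ c x z = b from ⟨d1, d2, d3, h⟩)]
          have : (0:ℝ) ≤ (if x ≠ y ∧ y ≠ z ∧ x ≠ z ∧ c x y = b then (1:ℝ) else 0) := by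
            split_ifs <;> norm_num
          have : (0:ℝ) ≤ (if x ≠ y ∧ y ≠ z ∧ x ≠ z ∧ c y z = b then (1:ℝ) else 0) := by
            split_ifs <;> norm_num
          linarith
      · push Not at hany
        rw [sum_eq_zero hany]
        split_ifs <;> norm_num
    · have : ∀ g ∈ G, M (mrg c b g) x y z = 0 := by
        intro g _
        unfold M
        rw [if_neg]
        rintro ⟨h1, h2, h3, _, _⟩
        exact hdist ⟨h1, h2, h3⟩
      rw [sum_eq_zero this]
      split_ifs <;> norm_num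

theorem ind_le {p q : Prop} [Decidable p] [Decidable q] (h : p → q) :
    (if p then (1:ℝ) else 0) ≤ if q then 1 else 0 := by
  by_cases hp : p
  · rw [if_pos hp, if_pos (h hp)]
  · rw [if_neg hp]; split_ifs <;> norm_num

/-- averaged merging lemma -/
theorem mrg_sum (c : V → V → C) (b : C) (G : Finset C)
    (hb : b ∉ G) (S : Finset V) :
    ∑ g ∈ G, T (mrg c b g) S ≤ G.card * T c S + (S.card : ℝ) * (E2 c b S / 2) := by
  have key : ∑ g ∈ G, T3 (mrg c b g) S S S ≤
      G.card * T3 c S S S + 3 * ((S.card : ℝ) * E2 c b S) := by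
    have e0 : ∑ g ∈ G, T3 (mrg c b g) S S S =
        ∑ x ∈ S, ∑ y ∈ S, ∑ z ∈ S, ∑ g ∈ G, M (mrg c b g) x y z := by
      unfold T3
      rw [sum_comm]
      refine sum_congr rfl fun x _ => ?_
      rw [sum_comm]
      refine sum_congr rfl fun y _ => ?_
      rw [sum_comm]
    rw [e0]
    have e1 : ∑ x ∈ S, ∑ y ∈ S, ∑ z ∈ S, ∑ g ∈ G, M (mrg c b g) x y z ≤
        ∑ x ∈ S, ∑ y ∈ S, ∑ z ∈ S, (G.card * M c x y z +
        ((if x ≠ y ∧ c x y = b then (1:ℝ) else 0) +
         (if y ≠ z ∧ c y z = b then (1:ℝ) else 0) +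
         (if x ≠ z ∧ c x z = b then (1:ℝ) else 0))) := by
      refine sum_le_sum fun x _ => sum_le_sum fun y _ => sum_le_sum fun z _ => ?_
      refine (mrg_point c b G hb x y z).trans ?_
      have i1 := ind_le (p := x ≠ y ∧ y ≠ z ∧ x ≠ z ∧ c x y = b) (q := x ≠ y ∧ c x y = b)
        (fun h => ⟨h.1, h.2.2.2⟩)
      have i2 := ind_le (p := x ≠ y ∧ y ≠ z ∧ x ≠ z ∧ c y z = b) (q := y ≠ z ∧ c y z = b)
        (fun h => ⟨h.2.1, h.2.2.2⟩)
      have i3 := ind_le (p := x ≠ y ∧ y ≠ z ∧ x ≠ z ∧ c x z = b) (q := x ≠ z ∧ c x z = b)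
        (fun h => ⟨h.2.2.1, h.2.2.2⟩)
      linarith
    refine e1.trans (le_of_eq ?_)
    simp only [sum_add_distrib]
    have s0 : ∑ x ∈ S, ∑ y ∈ S, ∑ z ∈ S, (G.card : ℝ) * M c x y z = G.card * T3 c S S S := by
      unfold T3
      simp only [mul_sum]
    have s1 : ∑ x ∈ S, ∑ y ∈ S, ∑ z ∈ S, (if x ≠ y ∧ c x y = b then (1:ℝ) else 0) =
        (S.card : ℝ) * E2 c b S := by
      unfold E2
      simp only [sum_const, nsmul_eq_mul, mul_sum]
    have s2 : ∑ x ∈ S, ∑ y ∈ S, ∑ z ∈ S, (if y ≠ z ∧ c y z = b then (1:ℝ) else 0) =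
        (S.card : ℝ) * E2 c b S := by
      unfold E2
      rw [sum_const, nsmul_eq_mul]
    have s3 : ∑ x ∈ S, ∑ y ∈ S, ∑ z ∈ S, (if x ≠ z ∧ c x z = b then (1:ℝ) else 0) =
        (S.card : ℝ) * E2 c b S := by
      unfold E2
      rw [mul_sum]
      refine sum_congr rfl fun x _ => ?_
      rw [sum_const, nsmul_eq_mul]
    rw [s0, s1, s2, s3]
    ring
  have e : ∑ g ∈ G, T (mrg c b g) S = (∑ g ∈ G, T3 (mrg c b g) S S S) / 6 := by
    unfold T; rw [sum_div]
  rw [e]
  unfold T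
  have : (G.card : ℝ) * (T3 c S S S / 6) + (S.card : ℝ) * (E2 c b S / 2) =
      (G.card * T3 c S S S + 3 * ((S.card : ℝ) * E2 c b S)) / 6 := by ring
  rw [this]
  exact div_le_div_of_nonneg_right key (by norm_num)

/-- some merging is cheap -/
theorem mrg_exists (c : V → V → C) (b : C) (G : Finset C)
    (hb : b ∉ G) (hG : G.Nonempty) (S : Finset V) :
    ∃ g ∈ G, T (mrg c b g) S ≤ T c S + (S.card : ℝ) / G.card * (E2 c b S / 2) := by
  by_contra hcon
  push Not at hcon
  have h1 : ∑ g ∈ G, (T c S + (S.card : ℝ) / G.card * (E2 c b S / 2)) <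
      ∑ g ∈ G, T (mrg c b g) S := sum_lt_sum_of_nonempty hG hcon
  have h2 := mrg_sum c b G hb S
  rw [sum_const, nsmul_eq_mul] at h1
  have hpos : (0:ℝ) < G.card := by exact_mod_cast hG.card_pos
  have : (G.card : ℝ) * (T c S + (S.card : ℝ) / G.card * (E2 c b S / 2)) =
      G.card * T c S + (S.card : ℝ) * (E2 c b S / 2) := by
    field_simp
  linarith

end Pool.Agent.R71.GM
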