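import Pool.Agent.R71.GM.Bal

set_option autoImplicit false
set_option linter.unusedSectionVars false

namespace Pool.Agent.R71.GM

open Finset

/-- Gallai `k`-colourings of `range n` with exactly `Fk k n` monochromatic triangles -/
def UB (k n : ℕ) : Prop := ∃ c : ℕ → ℕ → ℕ, (∀ x y, c x y = c y x) ∧
  (∀ x < n, ∀ y < n, ∀ z < n, x ≠ y → y ≠ z → x ≠ z →
    (c x y = c y z ∨ c y z = c x z ∨ c x y = c x z)) ∧
  (∀ x < n, ∀ y < n, x ≠ y → c x y < k) ∧ T c (range n) = Fk k n

theorem M_congr {V V' C C' : Type*} [DecidableEq V] [DecidableEq V'] [DecidableEq C]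
    [DecidableEq C'] {c : V → V → C} {c' : V' → V' → C'} {x y z : V} {x' y' z' : V'}
    (h1 : x = y ↔ x' = y') (h2 : y = z ↔ y' = z') (h3 : x = z ↔ x' = z')
    (h4 : x ≠ y → y ≠ z → x ≠ z → (c x y = c y z ↔ c' x' y' = c' y' z'))
    (h5 : x ≠ y → y ≠ z → x ≠ z → (c x y = c x z ↔ c' x' y' = c' x' z')) :
    M c x y z = M c' x' y' z' := by
  unfold M
  by_cases hd : x ≠ y ∧ y ≠ z ∧ x ≠ z
  · obtain ⟨d1, d2, d3⟩ := hd
    congr 1
    apply propext
    constructor
    · rintro ⟨_, _, _, a, b⟩
      exact ⟨fun e => d1 (h1.2 e), fun e => d2 (h2.2 e), fun e => d3 (h3.2 e),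
        (h4 d1 d2 d3).1 a, (h5 d1 d2 d3).1 b⟩
    · rintro ⟨_, _, _, a, b⟩
      exact ⟨d1, d2, d3, (h4 d1 d2 d3).2 a, (h5 d1 d2 d3).2 b⟩
  · rw [if_neg (fun k => hd ⟨k.1, k.2.1, k.2.2.1⟩), if_neg]
    rintro ⟨a1, a2, a3, _, _⟩
    exact hd ⟨fun e => a1 (h1.1 e), fun e => a2 (h2.1 e), fun e => a3 (h3.1 e)⟩

theorem T_image {V V' C C' : Type*} [DecidableEq V] [DecidableEq V'] [DecidableEq C]
    [DecidableEq C'] {c : V → V → C} {c' : V' → V' → C'} {A : Finset V} {g : V → V'}
    (hg : Function.Injective g)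
    (h4 : ∀ x ∈ A, ∀ y ∈ A, ∀ z ∈ A, x ≠ y → y ≠ z → x ≠ z →
      ((c x y = c y z ↔ c' (g x) (g y) = c' (g y) (g z)) ∧
       (c x y = c x z ↔ c' (g x) (g y) = c' (g x) (g z)))) :
    T c' (A.image g) = T c A := by
  unfold T T3
  have hinj : ∀ F : V' → ℝ, ∑ x ∈ A.image g, F x = ∑ x ∈ A, F (g x) := fun F =>
    sum_image (fun x _ y _ h => hg h)
  rw [hinj]
  congr 1
  refine sum_congr rfl fun x hx => ?_
  rw [hinj]
  refine sum_congr rfl fun y hy => ?_
  rw [hinj]
  refine sum_congr rfl fun z hz => ?_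
  exact (M_congr hg.eq_iff.symm hg.eq_iff.symm hg.eq_iff.symm
    (fun a b d => (h4 x hx y hy z hz a b d).1) (fun a b d => (h4 x hx y hy z hz a b d).2)).symm

theorem UB_one (n : ℕ) : UB 1 n := by
  refine ⟨fun _ _ => 0, fun _ _ => rfl, fun _ _ _ _ _ _ _ _ _ => Or.inl rfl,
    fun _ _ _ _ _ => by norm_num, ?_⟩
  rw [T_mono_clique (a := 0) (fun _ _ _ _ _ => rfl), card_range]
  unfold Fk
  rw [if_pos odd_one, show (1 - 1) / 2 = 0 by norm_num, pow_zero, Fi_one]

theorem UB_two (n : ℕ) : UB 2 n := by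
  obtain ⟨V, hF, hD, c, hcard, hsym, hlt, hT⟩ := good_exists n
  let e : V ≃ Fin n := (Fintype.equivFin V).trans (finCongr hcard)
  let c' : ℕ → ℕ → ℕ := fun x y => if h : x < n ∧ y < n then
    c (e.symm ⟨x, h.1⟩) (e.symm ⟨y, h.2⟩) else 0
  have hc' : ∀ x y : V, c' (e x) (e y) = c x y := by
    intro x y
    show (if h : _ then _ else _) = _
    rw [dif_pos ⟨(e x).2, (e y).2⟩]
    simp
  have hlt' : ∀ x < n, ∀ y < n, x ≠ y → c' x y < 2 := by
    intro x hx y hy hxy
    show (if h : _ then _ else _) < 2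
    rw [dif_pos ⟨hx, hy⟩]
    apply hlt
    intro e'
    have := e.symm.injective e'
    rw [Fin.mk.injEq] at this
    exact hxy this
  refine ⟨c', ?_, ?_, hlt', ?_⟩
  · intro x y
    by_cases h : x < n ∧ y < n
    · show (if h : _ then _ else _) = (if h : _ then _ else _)
      rw [dif_pos h, dif_pos ⟨h.2, h.1⟩, hsym]
    · show (if h : _ then _ else _) = (if h : _ then _ else _)
      rw [dif_neg h, dif_neg (fun k => h ⟨k.2, k.1⟩)]
  · intro x hx y hy z hz h1 h2 h3
    have a1 := hlt' x hx y hy h1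
    have a2 := hlt' y hy z hz h2
    have a3 := hlt' x hx z hz h3
    omega
  · have himg : range n = (univ : Finset V).image (fun v => ((e v : Fin n) : ℕ)) := by
      ext m
      simp only [mem_range, mem_image, mem_univ, true_and]
      constructor
      · intro hm
        exact ⟨e.symm ⟨m, hm⟩, by simp⟩
      · rintro ⟨v, rfl⟩
        exact (e v).2
    rw [himg, T_image (c := c) (fun a b h => e.injective (Fin.ext h))
      (fun x _ y _ z _ _ _ _ => by simp only [hc', and_self]), hT]
    unfold Fk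
    rw [if_neg (by decide), show (2 - 1) / 2 = 0 by norm_num, pow_zero, Fi_one]

/-- pentagon colouring on residues mod 5 with colours `k`, `k+1` -/
def pent (k i j : ℕ) : ℕ := if (i + 1) % 5 = j % 5 ∨ (j + 1) % 5 = i % 5 then k else k + 1

theorem pent_symm (k i j : ℕ) : pent k i j = pent k j i := by
  unfold pent
  congr 1
  apply propext
  exact or_comm

theorem pent_cases (k i j : ℕ) : pent k i j = k ∨ pent k i j = k + 1 := by
  unfold pent; split_ifs <;> simp

theorem pent_no_mono (k : ℕ) {i j l : ℕ} (hi : i < 5) (hj : j < 5) (hl : l < 5) (h1 : i ≠ j)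
    (h2 : j ≠ l) (h3 : i ≠ l) : ¬ (pent k i j = pent k j l ∧ pent k i j = pent k i l) := by
  unfold pent
  interval_cases i <;> interval_cases j <;> interval_cases l <;> simp_all

theorem Fi_lin (E : ℕ → ℝ) {N : ℕ} (hN : 0 < N) (m r : ℕ) (hr : r ≤ N) :
    Fi E N (N * m + r) = r * E (m + 1) + ((N : ℝ) - r) * E m := by
  unfold Fi
  rcases Nat.lt_or_ge r N with h | h
  · rw [Nat.mul_add_mod, Nat.mod_eq_of_lt h, Nat.mul_add_div hN, Nat.div_eq_of_lt h, add_zero]
  · have hrN : r = N := le_antisymm hr h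
    subst hrN
    rw [show r * m + r = r * (m + 1) by ring, Nat.mul_mod_right, Nat.mul_div_cancel_left _ hN]
    push_cast; ring

theorem Fi_five (E : ℕ → ℝ) {N : ℕ} (hN : 0 < N) (n : ℕ) :
    Fi E (5 * N) n = Fi E N ((n + 4) / 5) + Fi E N ((n + 3) / 5) + Fi E N ((n + 2) / 5) +
      Fi E N ((n + 1) / 5) + Fi E N (n / 5) := by
  set m := n / (5 * N) with hm
  set r := n % (5 * N) with hr
  have hn : n = 5 * N * m + r := (Nat.div_add_mod n (5 * N)).symm
  have hrlt : r < 5 * N := Nat.mod_lt _ (by omega)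
  have hsplit : ∀ t : ℕ, (n + t) / 5 = N * m + (r + t) / 5 := by
    intro t
    rw [hn, show 5 * N * m + r + t = 5 * (N * m) + (r + t) by ring, Nat.mul_add_div (by norm_num)]
  have h0 : n / 5 = N * m + r / 5 := hsplit 0
  rw [hsplit 4, hsplit 3, hsplit 2, hsplit 1, h0]
  rw [Fi_lin E hN m _ (by omega), Fi_lin E hN m _ (by omega), Fi_lin E hN m _ (by omega),
    Fi_lin E hN m _ (by omega), Fi_lin E hN m _ (by omega)]
  have hsum : (r + 4) / 5 + (r + 3) / 5 + (r + 2) / 5 + (r + 1) / 5 + r / 5 = r := by omega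
  have hsum' : (((r + 4) / 5 : ℕ) : ℝ) + ((r + 3) / 5 : ℕ) + ((r + 2) / 5 : ℕ) +
      ((r + 1) / 5 : ℕ) + ((r / 5 : ℕ) : ℝ) = r := by exact_mod_cast hsum
  unfold Fi
  rw [← hm, ← hr]
  push_cast
  linear_combination (E m - E (m + 1)) * hsum'

theorem Fk_five (k n : ℕ) (hk : 1 ≤ k) : Fk (k + 2) n = ∑ i ∈ range 5, Fk k ((n + 4 - i) / 5) := by
  unfold Fk
  have hodd : Odd (k + 2) ↔ Odd k := by
    constructor
    · rintro ⟨j, hj⟩; exact ⟨j - 1, by omega⟩
    · rintro ⟨j, hj⟩; exact ⟨j + 1, by omega⟩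
  have hpow : 5 ^ ((k + 2 - 1) / 2) = 5 * 5 ^ ((k - 1) / 2) := by
    rw [← pow_succ']
    congr 1
    omega
  rw [hpow]
  simp only [hodd]
  rw [Fi_five _ (by positivity)]
  simp only [sum_range_succ, sum_range_zero, zero_add]
  rw [show n + 4 - 0 = n + 4 by omega, show n + 4 - 1 = n + 3 by omega,
    show n + 4 - 2 = n + 2 by omega, show n + 4 - 3 = n + 1 by omega,
    show n + 4 - 4 = n by omega]

theorem UB_step {k : ℕ} (hk : 1 ≤ k) (h : ∀ n, UB k n) (n : ℕ) : UB (k + 2) n := by
  choose g gsym ggal glt gT using h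
  set sz : ℕ → ℕ := fun i => (n + 4 - i) / 5 with hsz
  let c : ℕ → ℕ → ℕ := fun x y =>
    if x % 5 = y % 5 then g (sz (x % 5)) (x / 5) (y / 5) else pent k (x % 5) (y % 5)
  have hcs : ∀ x y, c x y = c y x := by
    intro x y
    show (if _ then _ else _) = (if _ then _ else _)
    by_cases hxy : x % 5 = y % 5
    · rw [if_pos hxy, if_pos hxy.symm, hxy, gsym]
    · rw [if_neg hxy, if_neg (Ne.symm hxy), pent_symm]
  have hin : ∀ x < n, x / 5 < sz (x % 5) := by
    intro x hx
    show x / 5 < (n + 4 - x % 5) / 5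
    omega
  have hcin : ∀ x y, x % 5 = y % 5 → c x y = g (sz (x % 5)) (x / 5) (y / 5) := by
    intro x y hxy
    show (if _ then _ else _) = _
    rw [if_pos hxy]
  have hcout : ∀ x y, x % 5 ≠ y % 5 → c x y = pent k (x % 5) (y % 5) := by
    intro x y hxy
    show (if _ then _ else _) = _
    rw [if_neg hxy]
  refine ⟨c, hcs, ?_, ?_, ?_⟩
  · intro x hx y hy z hz h1 h2 h3
    by_cases a1 : x % 5 = y % 5
    · by_cases a2 : y % 5 = z % 5
      · rw [hcin x y a1, hcin y z a2, hcin x z (a1.trans a2), ← a1]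
        exact ggal (sz (x % 5)) _ (hin x hx) _ (by rw [a1]; exact hin y hy) _
          (by rw [a1, a2]; exact hin z hz)
          (by omega) (by omega) (by omega)
      · right; left
        rw [hcout y z a2, hcout x z (by rw [a1]; exact a2), a1]
    · by_cases a2 : y % 5 = z % 5
      · right; right
        rw [hcout x y a1, hcout x z (by rw [← a2]; exact a1), a2]
      · by_cases a3 : x % 5 = z % 5
        · left
          rw [hcout x y a1, hcout y z a2, a3, pent_symm]
        · rw [hcout x y a1, hcout y z a2, hcout x z a3]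
          rcases pent_cases k (x % 5) (y % 5) with b1 | b1 <;>
            rcases pent_cases k (y % 5) (z % 5) with b2 | b2 <;>
            rcases pent_cases k (x % 5) (z % 5) with b3 | b3 <;> simp [b1, b2, b3]
  · intro x hx y hy hxy
    by_cases a1 : x % 5 = y % 5
    · rw [hcin x y a1]
      have := glt (sz (x % 5)) _ (hin x hx) _ (by rw [a1]; exact hin y hy)
        (by omega : x / 5 ≠ y / 5)
      omega
    · rw [hcout x y a1]
      rcases pent_cases k (x % 5) (y % 5) with b1 | b1 <;> omega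
  · -- counting
    have hmod : ∀ i ∈ (range n).image (fun x => x % 5), i < 5 := by
      intro i hi
      obtain ⟨x, _, rfl⟩ := mem_image.1 hi
      exact Nat.mod_lt _ (by norm_num)
    have hpc := part_count (c := c) (S := range n) (f := fun x => x % 5) (d := pent k) (r := k)
      (b := k + 1) hcs (by omega) (fun x _ y _ hxy => hcout x y hxy) (pent_symm k)
      (fun i _ j _ _ => pent_cases k i j)
    rw [hpc]
    have hWS : WS (pent k) ((range n).image (fun x => x % 5))
        (fun i => ((Pt (range n) (fun x => x % 5) i).card : ℝ)) = 0 := by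
      unfold WS
      refine sum_eq_zero fun i hi => sum_eq_zero fun j hj => sum_eq_zero fun l hl => ?_
      have : M (pent k) i j l = 0 := by
        unfold M
        rw [if_neg]
        rintro ⟨h1, h2, h3, h4, h5⟩
        exact pent_no_mono k (hmod i hi) (hmod j hj) (hmod l hl) h1 h2 h3 ⟨h4, h5⟩
      rw [this, mul_zero]
    have hE : ∀ (b : ℕ), k ≤ b → ∀ i, E2 c b (Pt (range n) (fun x => x % 5) i) = 0 := by
      intro b hb i
      unfold E2
      refine sum_eq_zero fun x hx => sum_eq_zero fun y hy => ?_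
      rw [if_neg]
      rintro ⟨hxy, hcb⟩
      have hx' := mem_filter.1 hx
      have hy' := mem_filter.1 hy
      have hmm : x % 5 = y % 5 := hx'.2.trans hy'.2.symm
      rw [hcin x y hmm] at hcb
      have := glt (sz (x % 5)) _ (hin x (mem_range.1 hx'.1)) _
        (by rw [hmm]; exact hin y (mem_range.1 hy'.1)) (by omega : x / 5 ≠ y / 5)
      omega
    have hT : ∀ i < 5, T c (Pt (range n) (fun x => x % 5) i) = Fk k (sz i) := by
      intro i hi
      have himg : Pt (range n) (fun x => x % 5) i = (range (sz i)).image (fun a => 5 * a + i) := by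
        ext x
        simp only [Pt, mem_filter, mem_range, mem_image, hsz]
        constructor
        · rintro ⟨hx, hxi⟩
          exact ⟨x / 5, by omega, by omega⟩
        · rintro ⟨a, ha, rfl⟩
          constructor <;> omega
      have hval : ∀ a b : ℕ, c (5 * a + i) (5 * b + i) = g (sz i) a b := by
        intro a b
        rw [hcin _ _ (by omega), show (5 * a + i) % 5 = i by omega,
          show (5 * a + i) / 5 = a by omega, show (5 * b + i) / 5 = b by omega]
      rw [himg, T_image (c := g (sz i)) (fun a b hab => by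
        have : 5 * a + i = 5 * b + i := hab
        omega) (fun x _ y _ z _ _ _ _ => by simp only [hval, and_self]), gT]
    rw [hWS, Fk_five k n hk]
    have hsum : ∑ i ∈ (range n).image (fun x => x % 5),
        (T c (Pt (range n) (fun x => x % 5) i) +
        Nb (range n) (fun x => x % 5) (pent k) k i *
          (E2 c k (Pt (range n) (fun x => x % 5) i) / 2) +
        Nb (range n) (fun x => x % 5) (pent k) (k + 1) i *
          (E2 c (k + 1) (Pt (range n) (fun x => x % 5) i) / 2)) =
        ∑ i ∈ (range n).image (fun x => x % 5), Fk k (sz i) := by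
      refine sum_congr rfl fun i hi => ?_
      rw [hE k le_rfl, hE (k + 1) (by omega), hT i (hmod i hi)]
      ring
    rw [hsum]
    have hsub : (range n).image (fun x => x % 5) ⊆ range 5 := fun i hi =>
      mem_range.2 (hmod i hi)
    rw [← sum_subset hsub (f := fun i => Fk k (sz i))]
    · ring
    · intro i hi hni
      have hi5 := mem_range.1 hi
      have hin' : n ≤ i := by
        by_contra hlt
        push Not at hlt
        exact hni (mem_image.2 ⟨i, mem_range.2 hlt, Nat.mod_eq_of_lt hi5⟩)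
      have : sz i = 0 := by
        show (n + 4 - i) / 5 = 0
        omega
      rw [this]
      unfold Fk Fi
      split_ifs <;> simp [E1v, E2v, G2]

theorem UB_all : ∀ k : ℕ, 1 ≤ k → ∀ n, UB k n := by
  intro k
  induction k using Nat.strong_induction_on with
  | _ k ih =>
    intro hk
    by_cases h1 : k = 1
    · subst h1; exact UB_one
    by_cases h2 : k = 2
    · subst h2; exact UB_two
    have := UB_step (k := k - 2) (by omega) (ih (k - 2) (by omega) (by omega))
    rwa [show k - 2 + 2 = k by omega] at this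

end Pool.Agent.R71.GM
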