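import Pool.Agent.R71.GM.Basic

set_option autoImplicit false
set_option linter.unusedSectionVars false

namespace Pool.Agent.R71.GM

open Finset

variable {V C : Type*} [DecidableEq V] [DecidableEq C]

/-- bichromatic cherry indicator with apex `x` -/
noncomputable def Ph (c : V → V → C) (x y z : V) : ℝ :=
  if x ≠ y ∧ y ≠ z ∧ x ≠ z ∧ c x y ≠ c x z then 1 else 0

noncomputable def Ds (x y z : V) : ℝ := if x ≠ y ∧ y ≠ z ∧ x ≠ z then 1 else 0

theorem M_eq {c : V → V → C} (hc : ∀ x y, c x y = c y x) {x y z : V}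
    (h : x ≠ y → y ≠ z → x ≠ z → (c x y = c y z ∨ c y z = c x z ∨ c x y = c x z)) :
    M c x y z = Ds x y z - (Ph c x y z + Ph c y x z + Ph c z x y) / 2 := by
  by_cases hd : x ≠ y ∧ y ≠ z ∧ x ≠ z
  · obtain ⟨d1, d2, d3⟩ := hd
    have e1 : Ds x y z = 1 := by unfold Ds; rw [if_pos ⟨d1, d2, d3⟩]
    have e2 : Ph c x y z = if c x y ≠ c x z then 1 else 0 := by
      unfold Ph
      by_cases hh : c x y ≠ c x z
      · rw [if_pos hh, if_pos ⟨d1, d2, d3, hh⟩]
      · rw [if_neg hh, if_neg (fun k => hh k.2.2.2)]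
    have e3 : Ph c y x z = if c x y ≠ c y z then 1 else 0 := by
      unfold Ph
      rw [hc y x]
      by_cases hh : c x y ≠ c y z
      · rw [if_pos hh, if_pos ⟨d1.symm, d3, d2, hh⟩]
      · rw [if_neg hh, if_neg (fun k => hh k.2.2.2)]
    have e4 : Ph c z x y = if c x z ≠ c y z then 1 else 0 := by
      unfold Ph
      rw [hc z x, hc z y]
      by_cases hh : c x z ≠ c y z
      · rw [if_pos hh, if_pos ⟨d3.symm, d1, d2.symm, hh⟩]
      · rw [if_neg hh, if_neg (fun k => hh k.2.2.2)]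
    have e5 : M c x y z = if c x y = c y z ∧ c x y = c x z then 1 else 0 := by
      unfold M
      by_cases hh : c x y = c y z ∧ c x y = c x z
      · rw [if_pos hh, if_pos ⟨d1, d2, d3, hh.1, hh.2⟩]
      · rw [if_neg hh, if_neg (fun k => hh ⟨k.2.2.2.1, k.2.2.2.2⟩)]
    rw [e1, e2, e3, e4, e5]
    have hh := h d1 d2 d3
    by_cases a1 : c x y = c y z <;> by_cases a2 : c x y = c x z <;> by_cases a3 : c x z = c y z
    · simp [a1, a2, a3]
    · exact absurd (a2.symm.trans a1) a3
    · exact absurd (a1.trans a3.symm) a2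
    · rw [if_neg (fun k => a2 k.2), if_pos a2, if_neg (fun k => k a1), if_pos a3]; norm_num
    · exact absurd (a2.trans a3) a1
    · rw [if_neg (fun k => a1 k.1), if_neg (fun k => k a2), if_pos a1, if_pos a3]; norm_num
    · rw [if_neg (fun k => a1 k.1), if_pos a2, if_pos a1, if_neg (fun k => k a3)]; norm_num
    · rcases hh with hh | hh | hh
      · exact absurd hh a1
      · exact absurd hh.symm a3
      · exact absurd hh a2
  · have e1 : Ds x y z = 0 := by unfold Ds; rw [if_neg hd]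
    have e2 : Ph c x y z = 0 := by
      unfold Ph; rw [if_neg (fun k => hd ⟨k.1, k.2.1, k.2.2.1⟩)]
    have e3 : Ph c y x z = 0 := by
      unfold Ph; rw [if_neg (fun k => hd ⟨k.1.symm, k.2.2.1, k.2.1⟩)]
    have e4 : Ph c z x y = 0 := by
      unfold Ph; rw [if_neg (fun k => hd ⟨k.2.1, k.2.2.1.symm, k.1.symm⟩)]
    have e5 : M c x y z = 0 := by
      unfold M; rw [if_neg (fun k => hd ⟨k.1, k.2.1, k.2.2.1⟩)]
    rw [e1, e2, e3, e4, e5]; norm_num

/-- sum of bichromatic cherries with apex `x` -/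
noncomputable def PhS (c : V → V → C) (S : Finset V) (x : V) : ℝ := ∑ y ∈ S, ∑ z ∈ S, Ph c x y z

theorem Ds_sum (S : Finset V) : ∑ x ∈ S, ∑ y ∈ S, ∑ z ∈ S, Ds x y z =
    (S.card : ℝ) * (S.card - 1) * (S.card - 2) := by
  have h1 : ∀ x ∈ S, ∀ y ∈ S, ∑ z ∈ S, Ds x y z =
      (if x = y then 0 else ((S.card : ℝ) - 2)) := by
    intro x hx y hy
    by_cases hxy : x = y
    · rw [if_pos hxy]
      refine sum_eq_zero fun z _ => ?_
      unfold Ds; rw [if_neg (fun k => k.1 hxy)]
    · rw [if_neg hxy]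
      have : ∀ z ∈ S, Ds x y z = 1 - (if z = x then 1 else 0) - (if z = y then 1 else 0) := by
        intro z _
        unfold Ds
        by_cases h1 : z = x
        · rw [if_neg (fun k => k.2.2 h1.symm), if_pos h1, if_neg (fun k => hxy (h1.symm.trans k))]
          norm_num
        · by_cases h2 : z = y
          · rw [if_neg (fun k => k.2.1 h2.symm), if_neg h1, if_pos h2]; norm_num
          · rw [if_pos ⟨hxy, fun k => h2 k.symm, fun k => h1 k.symm⟩, if_neg h1, if_neg h2]
            norm_num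
      rw [sum_congr rfl this, sum_sub_distrib, sum_sub_distrib, sum_const, nsmul_eq_mul, mul_one,
        sum_ite_eq' S x, sum_ite_eq' S y, if_pos hx, if_pos hy]
      ring
  rw [sum_congr rfl fun x hx => sum_congr rfl fun y hy => h1 x hx y hy]
  have h2 : ∀ x ∈ S, ∑ y ∈ S, (if x = y then 0 else ((S.card : ℝ) - 2)) =
      ((S.card : ℝ) - 1) * (S.card - 2) := by
    intro x hx
    have : ∀ y ∈ S, (if x = y then 0 else ((S.card : ℝ) - 2)) =
        ((S.card : ℝ) - 2) - (if x = y then ((S.card : ℝ) - 2) else 0) := by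
      intro y _; split_ifs <;> ring
    rw [sum_congr rfl this, sum_sub_distrib, sum_const, nsmul_eq_mul, sum_ite_eq S x, if_pos hx]
    ring
  rw [sum_congr rfl h2, sum_const, nsmul_eq_mul]
  ring

theorem T3_goodman {c : V → V → C} (hc : ∀ x y, c x y = c y x) {S : Finset V}
    (h : ∀ x ∈ S, ∀ y ∈ S, ∀ z ∈ S, x ≠ y → y ≠ z → x ≠ z →
      (c x y = c y z ∨ c y z = c x z ∨ c x y = c x z)) :
    T3 c S S S = (S.card : ℝ) * (S.card - 1) * (S.card - 2) - 3 / 2 * ∑ x ∈ S, PhS c S x := by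
  unfold T3
  have e : ∀ x ∈ S, ∀ y ∈ S, ∀ z ∈ S, M c x y z =
      Ds x y z - (Ph c x y z + Ph c y x z + Ph c z x y) / 2 := fun x hx y hy z hz =>
    M_eq hc (h x hx y hy z hz)
  rw [sum_congr rfl fun x hx => sum_congr rfl fun y hy => sum_congr rfl fun z hz =>
    e x hx y hy z hz]
  simp only [sum_sub_distrib, add_div, sum_add_distrib]
  rw [Ds_sum]
  have s1 : ∑ x ∈ S, ∑ y ∈ S, ∑ z ∈ S, Ph c y x z / 2 = ∑ x ∈ S, ∑ y ∈ S, ∑ z ∈ S, Ph c x y z / 2 :=
    sum_comm
  have s2 : ∑ x ∈ S, ∑ y ∈ S, ∑ z ∈ S, Ph c z x y / 2 =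
      ∑ x ∈ S, ∑ y ∈ S, ∑ z ∈ S, Ph c x y z / 2 := by
    have : ∀ x ∈ S, ∑ y ∈ S, ∑ z ∈ S, Ph c z x y / 2 = ∑ z ∈ S, ∑ y ∈ S, Ph c z x y / 2 :=
      fun x _ => sum_comm
    rw [sum_congr rfl this, sum_comm]
  rw [s1, s2]
  unfold PhS
  have s3 : ∑ x ∈ S, ∑ y ∈ S, ∑ z ∈ S, Ph c x y z / 2 =
      (∑ x ∈ S, ∑ y ∈ S, ∑ z ∈ S, Ph c x y z) / 2 := by
    simp only [sum_div]
  rw [s3]
  ring

/-- for two-coloured vertex stars, `PhS = 2 d_r d_b` -/
theorem PhS_two {c : V → V → C} {S : Finset V} {x : V} {r b : C} (hrb : r ≠ b) (hx : x ∈ S)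
    (h : ∀ y ∈ S, x ≠ y → c x y = r ∨ c x y = b) :
    PhS c S x = 2 * (((S.filter (fun y => x ≠ y ∧ c x y = r)).card : ℝ) *
      ((S.card : ℝ) - 1 - ((S.filter (fun y => x ≠ y ∧ c x y = r)).card : ℝ))) := by
  set p : ℝ := ((S.filter (fun y => x ≠ y ∧ c x y = r)).card : ℝ) with hp
  set q : ℝ := ((S.filter (fun y => x ≠ y ∧ c x y = b)).card : ℝ) with hq
  have hr : ∑ y ∈ S, (if x ≠ y ∧ c x y = r then (1:ℝ) else 0) = p := by
    rw [hp, card_filter]; push_cast; rfl
  have hb : ∑ y ∈ S, (if x ≠ y ∧ c x y = b then (1:ℝ) else 0) = q := by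
    rw [hq, card_filter]; push_cast; rfl
  have hpq : p + q = (S.card : ℝ) - 1 := by
    rw [← hr, ← hb, ← sum_add_distrib]
    have : ∀ y ∈ S, ((if x ≠ y ∧ c x y = r then (1:ℝ) else 0) +
        (if x ≠ y ∧ c x y = b then (1:ℝ) else 0)) = 1 - (if x = y then 1 else 0) := by
      intro y hy
      by_cases hxy : x = y
      · rw [if_neg (fun k => k.1 hxy), if_neg (fun k => k.1 hxy), if_pos hxy]; norm_num
      · rcases h y hy hxy with h1 | h1
        · rw [if_pos ⟨hxy, h1⟩, if_neg (fun k => hrb (h1.symm.trans k.2)), if_neg hxy]; norm_num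
        · rw [if_neg (fun k => hrb (k.2.symm.trans h1)), if_pos ⟨hxy, h1⟩, if_neg hxy]; norm_num
    rw [sum_congr rfl this, sum_sub_distrib, sum_const, nsmul_eq_mul, mul_one, sum_ite_eq S x,
      if_pos hx]
  have e : ∀ y ∈ S, ∀ z ∈ S, Ph c x y z =
      (if x ≠ y ∧ c x y = r then (1:ℝ) else 0) * (if x ≠ z ∧ c x z = b then (1:ℝ) else 0) +
      (if x ≠ y ∧ c x y = b then (1:ℝ) else 0) * (if x ≠ z ∧ c x z = r then (1:ℝ) else 0) := by
    intro y hy z hz
    unfold Ph
    by_cases hxy : x = y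
    · rw [if_neg (fun k => k.1 hxy), if_neg (c := x ≠ y ∧ c x y = r) (fun k => k.1 hxy),
        if_neg (c := x ≠ y ∧ c x y = b) (fun k => k.1 hxy)]
      norm_num
    · by_cases hxz : x = z
      · rw [if_neg (fun k => k.2.2.1 hxz), if_neg (c := x ≠ z ∧ c x z = b) (fun k => k.1 hxz),
          if_neg (c := x ≠ z ∧ c x z = r) (fun k => k.1 hxz)]
        norm_num
      · rcases h y hy hxy with h1 | h1 <;> rcases h z hz hxz with h2 | h2
        · rw [if_neg (fun k => k.2.2.2 (h1.trans h2.symm)), h1, h2]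
          simp [hrb, hxy]
        · rw [if_pos ⟨hxy, fun k => hrb (by rw [← h1, ← h2, k]), hxz, by rw [h1, h2]; exact hrb⟩,
            h1, h2]
          simp [hrb, hxy, hxz]
        · rw [if_pos ⟨hxy, fun k => hrb (by rw [← h1, ← h2, k]), hxz,
            by rw [h1, h2]; exact hrb.symm⟩, h1, h2]
          simp [hrb, hrb.symm, hxy, hxz]
        · rw [if_neg (fun k => k.2.2.2 (h1.trans h2.symm)), h1, h2]
          simp [hrb.symm, hxy]
  unfold PhS
  rw [sum_congr rfl fun y hy => sum_congr rfl fun z hz => e y hy z hz]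
  simp only [sum_add_distrib, ← mul_sum, ← sum_mul, hr, hb]
  have : q = (S.card : ℝ) - 1 - p := by linarith
  rw [this]; ring

/-- Goodman's bound, simple form -/
theorem goodman_simple {c : V → V → C} (hc : ∀ x y, c x y = c y x) {S : Finset V} {r b : C}
    (hrb : r ≠ b) (h : ∀ x ∈ S, ∀ y ∈ S, x ≠ y → c x y = r ∨ c x y = b) :
    (S.card : ℝ) * (S.card - 1) * (S.card - 5) / 4 ≤ T3 c S S S := by
  have htr : ∀ x ∈ S, ∀ y ∈ S, ∀ z ∈ S, x ≠ y → y ≠ z → x ≠ z →
      (c x y = c y z ∨ c y z = c x z ∨ c x y = c x z) := by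
    intro x hx y hy z hz h1 h2 h3
    rcases h x hx y hy h1 with a | a <;> rcases h y hy z hz h2 with a' | a' <;>
      rcases h x hx z hz h3 with a'' | a'' <;> simp [a, a', a'']
  rw [T3_goodman hc htr]
  have hb : ∑ x ∈ S, PhS c S x ≤ ∑ _x ∈ S, (((S.card : ℝ) - 1) ^ 2 / 2) := by
    refine sum_le_sum fun x hx => ?_
    rw [PhS_two hrb hx (fun y hy hxy => h x hx y hy hxy)]
    nlinarith [sq_nonneg ((S.card : ℝ) - 1 -
      2 * ((S.filter (fun y => x ≠ y ∧ c x y = r)).card : ℝ))]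
  rw [sum_const, nsmul_eq_mul] at hb
  nlinarith

/-- weighted count of monochromatic triples -/
noncomputable def WS (d : V → V → C) (I : Finset V) (p : V → ℝ) : ℝ :=
  ∑ i ∈ I, ∑ j ∈ I, ∑ l ∈ I, p i * p j * p l * M d i j l

theorem WS_zero_one {d : V → V → C} (hd : ∀ x y, d x y = d y x) {I : Finset V} {r b : C}
    (hrb : r ≠ b) (h : ∀ x ∈ I, ∀ y ∈ I, x ≠ y → d x y = r ∨ d x y = b) {p : V → ℝ}
    (hp : ∀ i ∈ I, p i = 0 ∨ p i = 1) :
    15 / 2 * (∑ i ∈ I, p i - 5) ≤ WS d I p := by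
  classical
  set U := I.filter (fun i => p i = 1) with hU
  have hsum : ∑ i ∈ I, p i = (U.card : ℝ) := by
    rw [hU, card_filter]
    push_cast
    refine sum_congr rfl fun i hi => ?_
    rcases hp i hi with h0 | h0
    · rw [h0, if_neg (by norm_num)]
    · rw [h0, if_pos rfl]
  have hWS : WS d I p = T3 d U U U := by
    unfold WS T3
    have key : ∀ (g : V → ℝ), ∑ i ∈ I, p i * g i = ∑ i ∈ U, g i := by
      intro g
      rw [hU, sum_filter]
      refine sum_congr rfl fun i hi => ?_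
      rcases hp i hi with h0 | h0
      · rw [h0, if_neg (by norm_num), zero_mul]
      · rw [h0, if_pos rfl, one_mul]
    have e1 : ∀ i j, ∑ l ∈ I, p i * p j * p l * M d i j l =
        p i * (p j * ∑ l ∈ U, M d i j l) := by
      intro i j
      rw [← key, mul_sum, mul_sum]
      refine sum_congr rfl fun l _ => by ring
    simp only [e1]
    have e2 : ∀ i, ∑ j ∈ I, p i * (p j * ∑ l ∈ U, M d i j l) =
        p i * ∑ j ∈ U, ∑ l ∈ U, M d i j l := by
      intro i
      rw [← mul_sum, key]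
    simp only [e2]
    rw [key]
  rw [hsum, hWS]
  have hg := goodman_simple (S := U) hd hrb (fun x hx y hy => h x (filter_subset _ _ hx) y
    (filter_subset _ _ hy))
  by_cases h5 : U.card ≤ 5
  · have : (U.card : ℝ) ≤ 5 := by exact_mod_cast h5
    have h0 := T3_nonneg d U U U
    linarith
  · have : (6:ℝ) ≤ U.card := by exact_mod_cast (by omega : 6 ≤ U.card)
    refine le_trans ?_ hg
    nlinarith [mul_nonneg (by linarith : (0:ℝ) ≤ (U.card:ℝ) - 5)
      (by nlinarith : (0:ℝ) ≤ (U.card:ℝ) * (U.card - 1) - 30)]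

theorem WS_bound {d : V → V → C} (hd : ∀ x y, d x y = d y x) {I : Finset V} {r b : C}
    (hrb : r ≠ b) (h : ∀ x ∈ I, ∀ y ∈ I, x ≠ y → d x y = r ∨ d x y = b) :
    ∀ (J : Finset V) (p : V → ℝ), (∀ i ∈ I, 0 ≤ p i ∧ p i ≤ 1) →
      (∀ i ∈ I, i ∉ J → p i = 0 ∨ p i = 1) →
      15 / 2 * (∑ i ∈ I, p i - 5) ≤ WS d I p := by
  intro J
  induction J using Finset.induction_on with
  | empty =>
    intro p _ hp
    exact WS_zero_one hd hrb h (fun i hi => hp i hi (notMem_empty _))
  | @insert a J ha ih =>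
    intro p hp01 hp
    set p0 := Function.update p a 0 with hp0
    set p1 := Function.update p a 1 with hp1
    have hne : ∀ i, i ≠ a → p0 i = p i ∧ p1 i = p i := fun i hi =>
      ⟨Function.update_of_ne hi _ _, Function.update_of_ne hi _ _⟩
    have ha0 : p0 a = 0 := Function.update_self _ _ _
    have ha1 : p1 a = 1 := Function.update_self _ _ _
    have hb0 := ih p0 (fun i hi => by
      by_cases hia : i = a
      · rw [hia, ha0]; norm_num
      · rw [(hne i hia).1]; exact hp01 i hi) (fun i hi hiJ => by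
      by_cases hia : i = a
      · rw [hia, ha0]; left; rfl
      · rw [(hne i hia).1]; exact hp i hi (fun k => by
          rcases mem_insert.1 k with k | k
          · exact hia k
          · exact hiJ k))
    have hb1 := ih p1 (fun i hi => by
      by_cases hia : i = a
      · rw [hia, ha1]; norm_num
      · rw [(hne i hia).2]; exact hp01 i hi) (fun i hi hiJ => by
      by_cases hia : i = a
      · rw [hia, ha1]; right; rfl
      · rw [(hne i hia).2]; exact hp i hi (fun k => by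
          rcases mem_insert.1 k with k | k
          · exact hia k
          · exact hiJ k))
    have e1 : ∑ i ∈ I, p i = (1 - p a) * ∑ i ∈ I, p0 i + p a * ∑ i ∈ I, p1 i := by
      rw [mul_sum, mul_sum, ← sum_add_distrib]
      refine sum_congr rfl fun i _ => ?_
      by_cases hia : i = a
      · rw [hia, ha0, ha1]; ring
      · rw [(hne i hia).1, (hne i hia).2]; ring
    have e2 : WS d I p = (1 - p a) * WS d I p0 + p a * WS d I p1 := by
      unfold WS
      simp only [mul_sum, ← sum_add_distrib]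
      refine sum_congr rfl fun i _ => sum_congr rfl fun j _ => sum_congr rfl fun l _ => ?_
      by_cases hM : i ≠ j ∧ j ≠ l ∧ i ≠ l
      · obtain ⟨h1, h2, h3⟩ := hM
        by_cases hia : i = a
        · have hja : j ≠ a := fun k => h1 (hia.trans k.symm)
          have hla : l ≠ a := fun k => h3 (hia.trans k.symm)
          rw [hia, ha0, ha1, (hne j hja).1, (hne j hja).2, (hne l hla).1, (hne l hla).2]; ring
        · by_cases hja : j = a
          · have hla : l ≠ a := fun k => h2 (hja.trans k.symm)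
            rw [hja, ha0, ha1, (hne i hia).1, (hne i hia).2, (hne l hla).1, (hne l hla).2]; ring
          · by_cases hla : l = a
            · rw [hla, ha0, ha1, (hne i hia).1, (hne i hia).2, (hne j hja).1, (hne j hja).2]; ring
            · rw [(hne i hia).1, (hne i hia).2, (hne j hja).1, (hne j hja).2, (hne l hla).1,
                (hne l hla).2]; ring
      · have : M d i j l = 0 := by
          unfold M; rw [if_neg (fun k => hM ⟨k.1, k.2.1, k.2.2.1⟩)]
        rw [this]; ring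
    by_cases haI : a ∈ I
    · have h0 := (hp01 a haI).1
      have h1 := (hp01 a haI).2
      have k1 : (1 - p a) * (15 / 2 * (∑ i ∈ I, p0 i - 5)) ≤ (1 - p a) * WS d I p0 :=
        mul_le_mul_of_nonneg_left hb0 (by linarith)
      have k2 : p a * (15 / 2 * (∑ i ∈ I, p1 i - 5)) ≤ p a * WS d I p1 :=
        mul_le_mul_of_nonneg_left hb1 h0
      rw [e1, e2]
      nlinarith
    · exact ih p hp01 (fun i hi hiJ => hp i hi (fun k => by
        rcases mem_insert.1 k with k | k
        · exact haI (k ▸ hi)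
        · exact hiJ k))

theorem WS_ge {d : V → V → C} (hd : ∀ x y, d x y = d y x) {I : Finset V} {r b : C}
    (hrb : r ≠ b) (h : ∀ x ∈ I, ∀ y ∈ I, x ≠ y → d x y = r ∨ d x y = b)
    {p : V → ℝ} (hp : ∀ i ∈ I, 0 ≤ p i ∧ p i ≤ 1) :
    15 / 2 * (∑ i ∈ I, p i - 5) ≤ WS d I p :=
  WS_bound hd hrb h I p hp (fun i hi hiI => absurd hi hiI)

theorem WS_mono {d : V → V → C} {I : Finset V} {p q : V → ℝ} (h0 : ∀ i ∈ I, 0 ≤ p i)
    (h : ∀ i ∈ I, p i ≤ q i) : WS d I p ≤ WS d I q := by
  unfold WS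
  refine sum_le_sum fun i hi => sum_le_sum fun j hj => sum_le_sum fun l hl => ?_
  refine mul_le_mul_of_nonneg_right ?_ (M_nonneg _ _ _ _)
  have q0 : ∀ i ∈ I, 0 ≤ q i := fun i hi => (h0 i hi).trans (h i hi)
  exact mul_le_mul (mul_le_mul (h i hi) (h j hj) (h0 j hj) (q0 i hi)) (h l hl) (h0 l hl)
    (mul_nonneg (q0 i hi) (q0 j hj))

theorem WS_smul {d : V → V → C} {I : Finset V} {p : V → ℝ} (z : ℝ) :
    WS d I (fun i => z * p i) = z ^ 3 * WS d I p := by
  unfold WS
  simp only [mul_sum]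
  refine sum_congr rfl fun i _ => sum_congr rfl fun j _ => sum_congr rfl fun l _ => ?_
  ring

/-- the clean inequality -/
theorem clean_ineq {d : V → V → C} (hd : ∀ x y, d x y = d y x) {I : Finset V} {r b : C}
    (hrb : r ≠ b) (h : ∀ x ∈ I, ∀ y ∈ I, x ≠ y → d x y = r ∨ d x y = b)
    {n : V → ℝ} (hn : ∀ i ∈ I, 0 ≤ n i) {s w : ℝ} (hs : 0 < s) (hw : 0 < w)
    (hsw : s ^ 3 ≤ 5 / 4 * w ^ 2) :
    s * ∑ i ∈ I, n i - 5 * w ≤ ∑ i ∈ I, max 0 (s * n i - w) + WS d I n / 6 := by
  set z := w / s with hz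
  have hzpos : 0 < z := div_pos hw hs
  have hzs : s * z = w := by rw [hz]; field_simp
  set p : V → ℝ := fun i => min (n i) z / z with hp
  have hp01 : ∀ i ∈ I, 0 ≤ p i ∧ p i ≤ 1 := by
    intro i hi
    refine ⟨div_nonneg (le_min (hn i hi) hzpos.le) hzpos.le, ?_⟩
    rw [hp]
    simp only
    rw [div_le_one hzpos]
    exact min_le_right _ _
  have h1 := WS_ge hd hrb h hp01
  have h2 : WS d I (fun i => z * p i) ≤ WS d I n := by
    refine WS_mono (fun i hi => mul_nonneg hzpos.le (hp01 i hi).1) (fun i hi => ?_)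
    have : z * p i = min (n i) z := by rw [hp]; field_simp
    rw [this]; exact min_le_left _ _
  rw [WS_smul] at h2
  -- termwise
  have h3 : ∀ i ∈ I, s * n i - max 0 (s * n i - w) = w * p i := by
    intro i hi
    have e1 : w * p i = s * min (n i) z := by
      rw [hp, ← hzs]; field_simp
    rw [e1]
    rcases le_total (n i) z with hle | hle
    · rw [min_eq_left hle, max_eq_left]
      · ring
      · have := mul_le_mul_of_nonneg_left hle hs.le
        linarith
    · rw [min_eq_right hle, max_eq_right]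
      · rw [hzs]; ring
      · have := mul_le_mul_of_nonneg_left hle hs.le
        linarith
  have h4 : s * ∑ i ∈ I, n i - ∑ i ∈ I, max 0 (s * n i - w) = w * ∑ i ∈ I, p i := by
    rw [mul_sum, ← sum_sub_distrib, mul_sum]
    exact sum_congr rfl h3
  -- main
  have h5 : w * (∑ i ∈ I, p i - 5) ≤ WS d I n / 6 := by
    by_cases hP : ∑ i ∈ I, p i ≤ 5
    · have hW : 0 ≤ WS d I n := by
        have : 0 ≤ z ^ 3 * WS d I p := by
          refine mul_nonneg (by positivity) ?_
          unfold WS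
          exact sum_nonneg fun i hi => sum_nonneg fun j hj => sum_nonneg fun l hl =>
            mul_nonneg (mul_nonneg (mul_nonneg (hp01 i hi).1 (hp01 j hj).1) (hp01 l hl).1)
              (M_nonneg _ _ _ _)
        linarith
      nlinarith
    · push Not at hP
      have h6 : z ^ 3 * (15 / 2 * (∑ i ∈ I, p i - 5)) ≤ WS d I n :=
        (mul_le_mul_of_nonneg_left h1 (by positivity)).trans h2
      have h7 : w ≤ 5 / 4 * z ^ 3 := by
        have : s ^ 3 * w ≤ 5 / 4 * w ^ 3 := by nlinarith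
        rw [hz, div_pow]
        rw [show 5 / 4 * (w ^ 3 / s ^ 3) = (5 / 4 * w ^ 3) / s ^ 3 by ring]
        rw [le_div_iff₀ (by positivity)]
        linarith
      have h8 : w * (∑ i ∈ I, p i - 5) ≤ 5 / 4 * z ^ 3 * (∑ i ∈ I, p i - 5) :=
        mul_le_mul_of_nonneg_right h7 (by linarith)
      linarith
  linarith

end Pool.Agent.R71.GM
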