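import Pool.Agent.R71.GM.Num2

set_option autoImplicit false
set_option linter.unusedSectionVars false

namespace Pool.Agent.R71.GM

open Finset

variable {V C : Type*} [DecidableEq V] [DecidableEq C]

/-- the conjectured minimum -/
noncomputable def Fk (k n : ℕ) : ℝ := Fi (if Odd k then E1v else E2v) (5 ^ ((k - 1) / 2)) n

theorem Fi_one (E : ℕ → ℝ) (n : ℕ) : Fi E 1 n = E n := by
  unfold Fi; simp [Nat.mod_one]

theorem T_mono_clique {c : V → V → C} {A : Finset V} {a : C}
    (h : ∀ x ∈ A, ∀ y ∈ A, x ≠ y → c x y = a) : T c A = E1v A.card := by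
  unfold T
  have : T3 c A A A = (A.card : ℝ) * (A.card - 1) * (A.card - 2) := by
    rw [← Ds_sum]
    unfold T3
    refine sum_congr rfl fun x hx => sum_congr rfl fun y hy => sum_congr rfl fun z hz => ?_
    unfold M Ds
    by_cases hd : x ≠ y ∧ y ≠ z ∧ x ≠ z
    · rw [if_pos hd, if_pos ⟨hd.1, hd.2.1, hd.2.2, by
        rw [h x hx y hy hd.1, h y hy z hz hd.2.1], by
        rw [h x hx y hy hd.1, h x hx z hz hd.2.2]⟩]
    · rw [if_neg hd, if_neg (fun k => hd ⟨k.1, k.2.1, k.2.2.1⟩)]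
  rw [this, E1v_eq]

theorem LB_one : LB V C 1 (Fk 1) := by
  intro c _ K hK A hA
  obtain ⟨a, ha⟩ := card_eq_one.1 hK
  have h : ∀ x ∈ A, ∀ y ∈ A, x ≠ y → c x y = a := by
    intro x hx y hy hxy
    have := hA x hx y hy hxy
    rw [ha, mem_singleton] at this
    exact this
  rw [T_mono_clique h]
  unfold Fk
  rw [if_pos odd_one, show (1 - 1) / 2 = 0 by norm_num, pow_zero, Fi_one]

/-- handshake parity -/
theorem even_deg {c : V → V → C} (hc : ∀ x y, c x y = c y x) (A : Finset V) (r : C) :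
    Even (∑ x ∈ A, (A.filter (fun y => x ≠ y ∧ c x y = r)).card) := by
  set D := (A ×ˢ A).filter (fun p : V × V => p.1 ≠ p.2 ∧ c p.1 p.2 = r) with hD
  have h1 : ∑ x ∈ A, (A.filter (fun y => x ≠ y ∧ c x y = r)).card = D.card := by
    rw [hD, card_filter, sum_product]
    refine sum_congr rfl fun x _ => ?_
    rw [card_filter]
  rw [h1]
  have h2 : ∑ _p ∈ D, (1 : ZMod 2) = 0 := by
    refine sum_involution (fun p _ => (p.2, p.1)) ?_ ?_ ?_ ?_
    · intro p _; decide
    · intro p hp _ he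
      have := (mem_filter.1 hp).2.1
      exact this (by rw [Prod.ext_iff] at he; exact he.2)
    · intro p hp
      rw [hD, mem_filter, mem_product] at hp ⊢
      exact ⟨⟨hp.1.2, hp.1.1⟩, fun e => hp.2.1 e.symm, by rw [hc]; exact hp.2.2⟩
    · intro p _; rfl
  rw [sum_const, nsmul_eq_mul, mul_one] at h2
  rwa [ZMod.natCast_eq_zero_iff_even] at h2

theorem LB_two : LB V C 2 (Fk 2) := by
  intro c hG K hK A hA
  obtain ⟨r, b, hrb, hKrb⟩ := card_eq_two.1 hK
  have h : ∀ x ∈ A, ∀ y ∈ A, x ≠ y → c x y = r ∨ c x y = b := by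
    intro x hx y hy hxy
    have := hA x hx y hy hxy
    rw [hKrb, mem_insert, mem_singleton] at this
    exact this
  have hT : T3 c A A A = (A.card : ℝ) * (A.card - 1) * (A.card - 2) -
      3 * ∑ x ∈ A, (((A.filter (fun y => x ≠ y ∧ c x y = r)).card : ℝ) *
      ((A.card : ℝ) - 1 - ((A.filter (fun y => x ≠ y ∧ c x y = r)).card : ℝ))) := by
    rw [T3_goodman hG.1 (fun x _ y _ z _ h1 h2 h3 => hG.2 x y z h1 h2 h3)]
    have : ∑ x ∈ A, PhS c A x = ∑ x ∈ A,
        2 * (((A.filter (fun y => x ≠ y ∧ c x y = r)).card : ℝ) *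
      ((A.card : ℝ) - 1 - ((A.filter (fun y => x ≠ y ∧ c x y = r)).card : ℝ))) :=
      sum_congr rfl fun x hx => PhS_two hrb hx (fun y hy hxy => h x hx y hy hxy)
    rw [this, ← mul_sum]
    ring
  unfold Fk
  rw [if_neg (by decide), show (2 - 1) / 2 = 0 by norm_num, pow_zero, Fi_one]
  unfold T
  rw [hT]
  set n := A.card with hn
  set p : V → ℕ := fun x => (A.filter (fun y => x ≠ y ∧ c x y = r)).card with hp
  show E2v n ≤ ((n : ℝ) * (n - 1) * (n - 2) - 3 * ∑ x ∈ A, ((p x : ℝ) * ((n:ℝ) - 1 - p x))) / 6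
  have hcn : ∀ t : ℝ, ∑ _x ∈ A, t = n * t := fun t => by rw [sum_const, nsmul_eq_mul]
  rcases Nat.eq_zero_or_pos n with h0 | h0
  · have hA0 : A = ∅ := card_eq_zero.1 h0
    rw [h0, hA0]
    simp [E2v, G2]
  obtain ⟨i, q, hq, hni⟩ : ∃ i q : ℕ, q < 4 ∧ n = 4 * i + 1 + q :=
    ⟨(n - 1) / 4, (n - 1) % 4, Nat.mod_lt _ (by norm_num), by omega⟩
  obtain ⟨w1, w2, w3, w4⟩ := E2v_vals i
  have hprod : ∀ (x : V) (z : ℕ), 0 ≤ ((p x : ℝ) - z) * ((p x : ℝ) - z - 1) := by
    intro x z
    rcases le_or_gt (p x) z with hle | hlt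
    · have : (p x : ℝ) ≤ z := by exact_mod_cast hle
      nlinarith
    · have : (z : ℝ) + 1 ≤ p x := by exact_mod_cast hlt
      nlinarith
  interval_cases q
  · have hb : ∑ x ∈ A, ((p x : ℝ) * ((n:ℝ) - 1 - p x)) ≤ ∑ _x ∈ A, (4 * (i:ℝ) ^ 2) := by
      refine sum_le_sum fun x _ => ?_
      rw [hni]; push_cast
      nlinarith [sq_nonneg ((p x : ℝ) - 2 * i)]
    rw [hcn] at hb
    rw [hni] at hb ⊢
    rw [show 4 * i + 1 + 0 = 4 * i + 1 by ring] at hb ⊢
    rw [w1]
    push_cast at hb ⊢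
    nlinarith
  · have hb : ∑ x ∈ A, ((p x : ℝ) * ((n:ℝ) - 1 - p x)) ≤ ∑ _x ∈ A, ((2 * (i:ℝ)) * (2 * i + 1)) := by
      refine sum_le_sum fun x _ => ?_
      have := hprod x (2 * i)
      rw [hni]; push_cast at this ⊢
      nlinarith
    rw [hcn] at hb
    rw [hni] at hb ⊢
    rw [show 4 * i + 1 + 1 = 4 * i + 2 by ring] at hb ⊢
    rw [w2]
    push_cast at hb ⊢
    nlinarith
  · -- parity case
    have hex : ∃ x ∈ A, p x ≠ 2 * i + 1 := by
      by_contra hcon
      push Not at hcon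
      have hev := even_deg hG.1 A r
      have : ∑ x ∈ A, (A.filter (fun y => x ≠ y ∧ c x y = r)).card = n * (2 * i + 1) := by
        rw [sum_congr rfl hcon, sum_const, smul_eq_mul]
      rw [this, hni] at hev
      have hodd : Odd ((4 * i + 1 + 2) * (2 * i + 1)) := by
        refine Odd.mul ⟨2 * i + 1, by ring⟩ ⟨i, rfl⟩
      exact (Nat.not_even_iff_odd.2 hodd) hev
    obtain ⟨x0, hx0, hpx0⟩ := hex
    have hb : ∑ x ∈ A, (((2 * (i:ℝ) + 1)) ^ 2 - (p x : ℝ) * ((n:ℝ) - 1 - p x)) ≥ 1 := by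
      have hterm : ∀ x ∈ A, 0 ≤ ((2 * (i:ℝ) + 1)) ^ 2 - (p x : ℝ) * ((n:ℝ) - 1 - p x) := by
        intro x _
        rw [hni]; push_cast
        nlinarith [sq_nonneg ((p x : ℝ) - (2 * i + 1))]
      refine le_trans ?_ (single_le_sum hterm hx0)
      have : (1:ℝ) ≤ ((p x0 : ℝ) - (2 * i + 1)) ^ 2 := by
        rcases lt_or_gt_of_ne hpx0 with hlt | hgt
        · have : (p x0 : ℝ) + 1 ≤ 2 * i + 1 := by exact_mod_cast hlt
          nlinarith
        · have : (2 * (i:ℝ) + 1) + 1 ≤ p x0 := by exact_mod_cast hgt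
          nlinarith
      rw [hni]; push_cast
      nlinarith
    rw [sum_sub_distrib, hcn] at hb
    rw [hni] at hb ⊢
    rw [show 4 * i + 1 + 2 = 4 * i + 3 by ring] at hb ⊢
    rw [w3]
    push_cast at hb ⊢
    nlinarith
  · have hb : ∑ x ∈ A, ((p x : ℝ) * ((n:ℝ) - 1 - p x)) ≤
        ∑ _x ∈ A, ((2 * (i:ℝ) + 1) * (2 * i + 2)) := by
      refine sum_le_sum fun x _ => ?_
      have := hprod x (2 * i + 1)
      rw [hni]; push_cast at this ⊢
      nlinarith
    rw [hcn] at hb
    rw [hni] at hb ⊢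
    rw [show 4 * i + 1 + 3 = 4 * i + 4 by ring] at hb ⊢
    rw [w4]
    push_cast at hb ⊢
    nlinarith

theorem LB_step {k : ℕ} (hk : 3 ≤ k) (P1 : LB V C (k - 1) (Fk (k - 1)))
    (P2 : LB V C (k - 2) (Fk (k - 2))) : LB V C k (Fk k) := by
  intro c hG K hK A hA
  rcases Nat.even_or_odd k with hev | hodd
  · -- even case
    have hk4 : 4 ≤ k := by
      rcases hev with ⟨j, hj⟩; omega
    have hne : ¬ Odd k := Nat.not_odd_iff_even.2 hev
    have hodd1 : Odd (k - 1) := by
      rcases hev with ⟨j, hj⟩; exact ⟨j - 1, by omega⟩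
    have hne2 : ¬ Odd (k - 2) := by
      rw [Nat.not_odd_iff_even]
      rcases hev with ⟨j, hj⟩; exact ⟨j - 1, by omega⟩
    set N := 5 ^ ((k - 3) / 2) with hN
    have hN0 : 0 < N := by positivity
    have e1 : 5 ^ ((k - 1) / 2) = 5 * N := by
      rw [hN, ← pow_succ']
      congr 1
      rcases hev with ⟨j, hj⟩; omega
    have e2 : 5 ^ ((k - 1 - 1) / 2) = 5 * N := by
      rw [hN, ← pow_succ']
      congr 1
      rcases hev with ⟨j, hj⟩; omega
    have e3 : 5 ^ ((k - 2 - 1) / 2) = N := by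
      rw [hN]
      congr 1
    have f1 : Fk (k - 1) = Fi E1v (5 * N) := by
      funext n; unfold Fk; rw [if_pos hodd1, e2]
    have f2 : Fk (k - 2) = Fi E2v N := by
      funext n; unfold Fk; rw [if_neg hne2, e3]
    rw [f1] at P1
    rw [f2] at P2
    unfold Fk
    rw [if_neg hne, e1, Fi_value]
    set m := A.card / (5 * N) with hm
    by_cases hm5 : 5 ≤ m
    · have D := even_case (k := k) hk4 hN0 hm5
      have := main_step hG hK D P1 P2 A.card A rfl hA
      push_cast at this ⊢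
      linarith
    · have h0 : E2v (m + 1) - E2v m = 0 ∧ E2v m = 0 := by
        have : m < 5 := by omega
        interval_cases m <;> constructor <;> simp [E2v, G2, Finset.sum_range_succ]
      rw [h0.1, h0.2]
      have := T_nonneg c A
      linarith
  · have hne1 : ¬ Odd (k - 1) := by
      rw [Nat.not_odd_iff_even]
      rcases hodd with ⟨j, hj⟩; exact ⟨j, by omega⟩
    have hodd2 : Odd (k - 2) := by
      rcases hodd with ⟨j, hj⟩; exact ⟨j - 1, by omega⟩
    set N := 5 ^ ((k - 3) / 2) with hN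
    have hN0 : 0 < N := by positivity
    have e1 : 5 ^ ((k - 1) / 2) = 5 * N := by
      rw [hN, ← pow_succ']
      congr 1
      rcases hodd with ⟨j, hj⟩; omega
    have e2 : 5 ^ ((k - 1 - 1) / 2) = N := by
      rw [hN]
      congr 1
      rcases hodd with ⟨j, hj⟩; omega
    have e3 : 5 ^ ((k - 2 - 1) / 2) = N := by
      rw [hN]
      congr 1
    have f1 : Fk (k - 1) = Fi E2v N := by
      funext n; unfold Fk; rw [if_neg hne1, e2]
    have f2 : Fk (k - 2) = Fi E1v N := by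
      funext n; unfold Fk; rw [if_pos hodd2, e3]
    rw [f1] at P1
    rw [f2] at P2
    unfold Fk
    rw [if_pos hodd, e1, Fi_value]
    set m := A.card / (5 * N) with hm
    by_cases hm2 : 2 ≤ m
    · have D := odd_case (k := k) hk hN0 hm2
      have := main_step hG hK D P1 P2 A.card A rfl hA
      push_cast at this ⊢
      linarith
    · have h0 : E1v (m + 1) - E1v m = 0 ∧ E1v m = 0 := by
        have : m < 2 := by omega
        interval_cases m <;> constructor <;> simp [E1v, Nat.choose]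
      rw [h0.1, h0.2]
      have := T_nonneg c A
      linarith

theorem LB_all : ∀ k : ℕ, 1 ≤ k → LB V C k (Fk k) := by
  intro k
  induction k using Nat.strong_induction_on with
  | _ k ih =>
    intro hk
    by_cases h1 : k = 1
    · subst h1; exact LB_one
    by_cases h2 : k = 2
    · subst h2; exact LB_two
    exact LB_step (by omega) (ih (k - 1) (by omega) (by omega)) (ih (k - 2) (by omega) (by omega))

end Pool.Agent.R71.GM
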