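import Mathlib

set_option autoImplicit false

namespace Pool.Agent.R71.GM

/-- Goodman's number: the minimum number of monochromatic triangles, as a sum of slopes -/
def G2 (n : ℕ) : ℕ := ∑ x ∈ Finset.range n, ((x - 1) / 2) ^ 2 / 2

noncomputable def E1v (n : ℕ) : ℝ := (Nat.choose n 3 : ℝ)
noncomputable def E2v (n : ℕ) : ℝ := (G2 n : ℝ)

/-- piecewise linear interpolation: total cost of `N` balanced parts -/
noncomputable def Fi (E : ℕ → ℝ) (N n : ℕ) : ℝ :=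
  ((n % N : ℕ) : ℝ) * E (n / N + 1) + ((N : ℝ) - ((n % N : ℕ) : ℝ)) * E (n / N)

/-- tangent line -/
def TL (E : ℕ → ℝ) (σ c : ℝ) : Prop := ∀ x : ℕ, σ * x - c ≤ E x

theorem Fi_tangent {E : ℕ → ℝ} {σ c : ℝ} (h : TL E σ c) {N : ℕ} (hN : 0 < N) (n : ℕ) :
    σ * n - N * c ≤ Fi E N n := by
  unfold Fi
  have h1 := h (n / N)
  have h2 := h (n / N + 1)
  have hmod : ((n % N : ℕ) : ℝ) ≤ N := by exact_mod_cast (Nat.mod_lt n hN).le
  have hmod0 : (0:ℝ) ≤ ((n % N : ℕ) : ℝ) := Nat.cast_nonneg _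
  have hn : (n : ℝ) = N * (n / N : ℕ) + (n % N : ℕ) := by
    exact_mod_cast (Nat.div_add_mod n N).symm
  have k1 := mul_le_mul_of_nonneg_left h2 hmod0
  have k2 := mul_le_mul_of_nonneg_left h1 (sub_nonneg.2 hmod)
  push_cast at k1 k2
  have e : σ * n - N * c = (n % N : ℕ) * (σ * ((n / N : ℕ) + 1) - c) +
      ((N : ℝ) - (n % N : ℕ)) * (σ * (n / N : ℕ) - c) := by
    rw [hn]; ring
  rw [e]
  push_cast
  linarith

theorem Fi_nonneg {E : ℕ → ℝ} (hE : ∀ n, 0 ≤ E n) {N : ℕ} (hN : 0 < N) (n : ℕ) :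
    0 ≤ Fi E N n := by
  unfold Fi
  have hmod : ((n % N : ℕ) : ℝ) ≤ N := by exact_mod_cast (Nat.mod_lt n hN).le
  exact add_nonneg (mul_nonneg (Nat.cast_nonneg _) (hE _))
    (mul_nonneg (sub_nonneg.2 hmod) (hE _))

theorem Fi_value (E : ℕ → ℝ) (N n : ℕ) :
    Fi E N n = (E (n / N + 1) - E (n / N)) * n -
      N * ((E (n / N + 1) - E (n / N)) * (n / N : ℕ) - E (n / N)) := by
  unfold Fi
  have hn : (n : ℝ) = N * (n / N : ℕ) + (n % N : ℕ) := by
    exact_mod_cast (Nat.div_add_mod n N).symm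
  rw [hn]
  have e1 : (N * (n / N) + n % N) = n := Nat.div_add_mod n N
  ring

theorem conv_tangent {E σ : ℕ → ℝ} (hE : ∀ x, E (x + 1) = E x + σ x) {m : ℕ} {s : ℝ}
    (h1 : ∀ x, x < m → σ x ≤ s) (h2 : ∀ x, m ≤ x → s ≤ σ x) :
    TL E s (s * m - E m) := by
  have up : ∀ d : ℕ, s * ((m + d : ℕ) : ℝ) - (s * m - E m) ≤ E (m + d) := by
    intro d
    induction d with
    | zero => simp
    | succ d ih =>
      have h := hE (m + d)
      have h' := h2 (m + d) (by omega)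
      rw [← add_assoc, h]
      push_cast at ih ⊢
      linarith
  have down : ∀ d : ℕ, d ≤ m → s * ((m - d : ℕ) : ℝ) - (s * m - E m) ≤ E (m - d) := by
    intro d
    induction d with
    | zero => intro _; simp
    | succ d ih =>
      intro hd
      have ih' := ih (by omega)
      have h := hE (m - (d + 1))
      have h' := h1 (m - (d + 1)) (by omega)
      rw [show m - (d + 1) + 1 = m - d by omega] at h
      have e : ((m - d : ℕ) : ℝ) = ((m - (d + 1) : ℕ) : ℝ) + 1 := by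
        have : m - d = m - (d + 1) + 1 := by omega
        rw [this]; push_cast; rfl
      rw [e] at ih'
      linarith
  intro x
  rcases le_total m x with h | h
  · have := up (x - m)
    rwa [show m + (x - m) = x by omega] at this
  · have := down (m - x) (by omega)
    rwa [show m - (m - x) = x by omega] at this

theorem E1v_succ (x : ℕ) : E1v (x + 1) = E1v x + (Nat.choose x 2 : ℝ) := by
  unfold E1v
  rw [Nat.choose_succ_succ' x 2]
  push_cast; ring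

theorem E2v_succ (x : ℕ) : E2v (x + 1) = E2v x + ((((x - 1) / 2) ^ 2 / 2 : ℕ) : ℝ) := by
  unfold E2v G2
  rw [Finset.sum_range_succ]
  push_cast; rfl

theorem choose2_cast (x : ℕ) : (Nat.choose x 2 : ℝ) = (x : ℝ) * (x - 1) / 2 := by
  rw [Nat.cast_choose_two]

theorem E1v_eq (x : ℕ) : E1v x = (x : ℝ) * (x - 1) * (x - 2) / 6 := by
  induction x with
  | zero => simp [E1v]
  | succ x ih =>
    rw [E1v_succ, ih, choose2_cast]
    push_cast; ring

theorem E1v_nonneg (x : ℕ) : 0 ≤ E1v x := Nat.cast_nonneg _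
theorem E2v_nonneg (x : ℕ) : 0 ≤ E2v x := Nat.cast_nonneg _

theorem slope2_vals (i : ℕ) :
    ((4 * i + 1 - 1) / 2) ^ 2 / 2 = 2 * i ^ 2 ∧ ((4 * i + 2 - 1) / 2) ^ 2 / 2 = 2 * i ^ 2 ∧
    ((4 * i + 3 - 1) / 2) ^ 2 / 2 = 2 * i ^ 2 + 2 * i ∧
    ((4 * i + 4 - 1) / 2) ^ 2 / 2 = 2 * i ^ 2 + 2 * i := by
  have e1 : (4 * i + 1 - 1) / 2 = 2 * i := by omega
  have e2 : (4 * i + 2 - 1) / 2 = 2 * i := by omega
  have e3 : (4 * i + 3 - 1) / 2 = 2 * i + 1 := by omega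
  have e4 : (4 * i + 4 - 1) / 2 = 2 * i + 1 := by omega
  rw [e1, e2, e3, e4]
  have f1 : (2 * i) ^ 2 / 2 = 2 * i ^ 2 := by
    have : (2 * i) ^ 2 = 2 * (2 * i ^ 2) := by ring
    rw [this, Nat.mul_div_cancel_left _ (by norm_num)]
  have f2 : (2 * i + 1) ^ 2 / 2 = 2 * i ^ 2 + 2 * i := by
    have : (2 * i + 1) ^ 2 = 1 + 2 * (2 * i ^ 2 + 2 * i) := by ring
    rw [this, Nat.add_mul_div_left _ _ (by norm_num)]; norm_num
  exact ⟨f1, f1, f2, f2⟩

theorem E2v_vals (i : ℕ) :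
    E2v (4 * i + 1) = (4 * i + 1) * (2 * i) * (2 * i - 2) / 6 ∧
    E2v (4 * i + 2) = (2 * i + 1) * (2 * i) * (2 * i - 1) / 3 ∧
    E2v (4 * i + 3) = (2 * i + 2) * (2 * i) * (4 * i - 1) / 6 ∧
    E2v (4 * i + 4) = (2 * i + 2) * (2 * i + 1) * (2 * i) / 3 := by
  have base : ∀ i : ℕ, E2v (4 * i + 1) = (4 * i + 1) * (2 * i) * (2 * i - 2) / 6 →
    (E2v (4 * i + 2) = (2 * i + 1) * (2 * i) * (2 * i - 1) / 3 ∧
    E2v (4 * i + 3) = (2 * i + 2) * (2 * i) * (4 * i - 1) / 6 ∧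
    E2v (4 * i + 4) = (2 * i + 2) * (2 * i + 1) * (2 * i) / 3 ∧
    E2v (4 * i + 5) = (4 * i + 5) * (2 * i + 2) * (2 * i) / 6) := by
    intro i h1
    obtain ⟨s1, s2, s3, s4⟩ := slope2_vals i
    have h2 := E2v_succ (4 * i + 1)
    rw [s1, h1] at h2
    have h3 := E2v_succ (4 * i + 2)
    rw [s2] at h3
    have h4 := E2v_succ (4 * i + 3)
    rw [s3] at h4
    have h5 := E2v_succ (4 * i + 4)
    rw [s4] at h5
    have r2 : E2v (4 * i + 2) = (2 * i + 1) * (2 * i) * (2 * i - 1) / 3 := by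
      rw [show 4 * i + 2 = 4 * i + 1 + 1 by ring, h2]; push_cast; ring
    have r3 : E2v (4 * i + 3) = (2 * i + 2) * (2 * i) * (4 * i - 1) / 6 := by
      rw [show 4 * i + 3 = 4 * i + 2 + 1 by ring, h3, r2]; push_cast; ring
    have r4 : E2v (4 * i + 4) = (2 * i + 2) * (2 * i + 1) * (2 * i) / 3 := by
      rw [show 4 * i + 4 = 4 * i + 3 + 1 by ring, h4, r3]; push_cast; ring
    refine ⟨r2, r3, r4, ?_⟩
    rw [show 4 * i + 5 = 4 * i + 4 + 1 by ring, h5, r4]; push_cast; ring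
  have h1 : E2v (4 * i + 1) = (4 * i + 1) * (2 * i) * (2 * i - 2) / 6 := by
    induction i with
    | zero => simp [E2v, G2]
    | succ i ih =>
      have := (base i ih).2.2.2
      rw [show 4 * (i + 1) + 1 = 4 * i + 5 by ring, this]; push_cast; ring
  obtain ⟨a, b, c, _⟩ := base i h1
  exact ⟨h1, a, b, c⟩

theorem E2v_cubic (n : ℕ) : (n : ℝ) * (n - 1) * (n - 5) / 24 ≤ E2v n := by
  rcases Nat.eq_zero_or_pos n with h0 | h0
  · subst h0; simp [E2v_nonneg]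
  obtain ⟨i, r, hr, hn⟩ : ∃ i r : ℕ, r < 4 ∧ n = 4 * i + 1 + r :=
    ⟨(n - 1) / 4, (n - 1) % 4, Nat.mod_lt _ (by norm_num), by omega⟩
  obtain ⟨v1, v2, v3, v4⟩ := E2v_vals i
  have hi : (0:ℝ) ≤ i := Nat.cast_nonneg i
  interval_cases r
  · rw [hn, add_zero, v1]; push_cast; nlinarith
  · rw [hn, show 4 * i + 1 + 1 = 4 * i + 2 by ring, v2]; push_cast; nlinarith
  · rw [hn, show 4 * i + 1 + 2 = 4 * i + 3 by ring, v3]; push_cast; nlinarith
  · rw [hn, show 4 * i + 1 + 3 = 4 * i + 4 by ring, v4]; push_cast; nlinarith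

/-- tangent lines for `C(n,3)` -/
theorem tan1 {v : ℝ} (hv : 1 / 2 ≤ v) : TL E1v ((3 * v ^ 2 - 1) / 6) ((3 * v ^ 2 - 1 + 2 * v ^ 3) / 6) := by
  intro x
  rw [E1v_eq]
  have hx : (0:ℝ) ≤ x := Nat.cast_nonneg x
  have key : 0 ≤ ((x:ℝ) - 1 - v) ^ 2 * ((x:ℝ) - 1 + 2 * v) :=
    mul_nonneg (sq_nonneg _) (by linarith)
  nlinarith [key]

/-- tangent lines for Goodman's function -/
theorem tan2 {v : ℝ} (hv : 1 ≤ v) : TL E2v ((3 * v ^ 2 - 7) / 24) ((v ^ 3 + 3 * v ^ 2 - 4) / 12) := by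
  intro x
  refine le_trans ?_ (E2v_cubic x)
  have hx : (0:ℝ) ≤ x := Nat.cast_nonneg x
  have key : 0 ≤ ((x:ℝ) - 2 - v) ^ 2 * ((x:ℝ) - 2 + 2 * v) :=
    mul_nonneg (sq_nonneg _) (by linarith)
  nlinarith [key]

theorem TL_mono {E : ℕ → ℝ} {σ σ' c c' : ℝ} (h : TL E σ c) (hσ : σ' ≤ σ) (hc : c ≤ c') :
    TL E σ' c' := by
  intro x
  have := h x
  have hx : (0:ℝ) ≤ x := Nat.cast_nonneg x
  have := mul_le_mul_of_nonneg_right hσ hx
  linarith

end Pool.Agent.R71.GM
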