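import Pool.Agent.R71.GM.Step
import Pool.Agent.R71.GM.Num

set_option autoImplicit false

namespace Pool.Agent.R71.GM

theorem odd_data {k N : ℕ} (hk : 3 ≤ k) (hN : 0 < N) {s q c1 c3 σ1 σ2 d1 d2 d3 σ1' σ2' d1' d2' : ℝ}
    (hs : 0 < s) (hq : 0 < q) (hsq : s ^ 3 ≤ 5 / 4 * q ^ 2)
    (t0 : TL E1v s q) (t1 : TL E2v s c1) (hc1 : c1 ≤ 5 / 2 * q)
    (t4 : TL E2v (3 / 2 * s) (4 * q))
    (t3 : TL E1v (2 * s) c3) (h3 : c3 + c1 ≤ 5 * q)
    (t5 : TL E1v σ1 d1) (t5b : TL E2v σ2 d2) (t5c : TL E2v (s / 3) d3)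
    (h5 : 7 / 3 * s ≤ 2 / 3 * σ1 + 1 / 3 * σ2) (h5' : 2 / 3 * d1 + 1 / 3 * d2 + 2 * d3 ≤ 5 * q)
    (t6 : TL E1v σ1' d1') (t6b : TL E2v σ2' d2')
    (h6 : 5 / 2 * s ≤ 2 / 3 * σ1' + 1 / 3 * σ2') (h6' : 2 / 3 * d1' + 1 / 3 * d2' + d3 ≤ 5 * q) :
    Data k (Fi E2v N) (Fi E1v N) s (N * q) 1 (1 / 2) := by
  have hNr : (1:ℝ) ≤ N := by exact_mod_cast hN
  have hN0 : (0:ℝ) < N := by linarith
  have hkr : (3:ℝ) ≤ k := by exact_mod_cast hk
  have n1 : ∀ a, 0 ≤ Fi E2v N a := Fi_nonneg E2v_nonneg hN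
  have n2 : ∀ a, 0 ≤ Fi E1v N a := Fi_nonneg E1v_nonneg hN
  refine ⟨hk, hs, by positivity, ?_, ?_, le_refl _, ?_, by norm_num, n2, n1, ?_, ?_, ?_, ?_, ?_, ?_⟩
  · have : q ^ 2 ≤ (N * q) ^ 2 := by
      apply pow_le_pow_left₀ hq.le
      nlinarith
    linarith
  · rw [div_le_one (by linarith)]; linarith
  · rw [div_le_div_iff₀ (by linarith) (by norm_num)]; linarith
  · intro a; exact Fi_tangent t0 hN a
  · intro b
    have h := Fi_tangent t1 hN b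
    nlinarith [mul_le_mul_of_nonneg_left hc1 hN0.le]
  · intro a
    have h := Fi_tangent t4 hN a
    nlinarith [mul_pos hN0 hq]
  · intro a b
    have h := Fi_tangent t3 hN a
    have h' := Fi_tangent t1 hN b
    nlinarith [mul_le_mul_of_nonneg_left h3 hN0.le]
  · intro a b
    have h := Fi_tangent t0 hN a
    have h' := Fi_tangent t4 hN b
    nlinarith
  · intro a r b hrb hb
    by_contra hcon
    push Not at hcon
    obtain ⟨g1, g2⟩ := hcon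
    have ha0 : (0:ℝ) ≤ a := Nat.cast_nonneg a
    have hb0 : (0:ℝ) ≤ b := Nat.cast_nonneg b
    have f3 := Fi_tangent t5c hN r
    have f4 := Fi_tangent t5c hN b
    by_cases hc : 1 / 2 * (a:ℝ) ≤ b
    · rw [max_eq_left (by linarith)] at g2
      have f1 := Fi_tangent t5 hN a
      have f2 := Fi_tangent t5b hN a
      have k1 := mul_le_mul_of_nonneg_right h5 ha0
      have k2 := mul_le_mul_of_nonneg_left h5' hN0.le
      nlinarith
    · push Not at hc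
      rw [max_eq_right (by linarith)] at g2
      have f1 := Fi_tangent t6 hN a
      have f2 := Fi_tangent t6b hN a
      have k1 := mul_le_mul_of_nonneg_right h6 ha0
      have k2 := mul_le_mul_of_nonneg_left h6' hN0.le
      have f5 := n1 b
      nlinarith

theorem even_data {k N : ℕ} (hk : 4 ≤ k) (hN : 0 < N) {s q c2 c3 c4 : ℝ}
    (hs : 0 < s) (hq : 0 < q) (hsq : s ^ 3 ≤ 5 / 4 * q ^ 2)
    (t0 : TL E2v s q) (t1 : TL E1v s (q / 2))
    (t2 : TL E1v (4 / 3 * s) c2) (h2 : c2 ≤ q)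
    (t3 : TL E2v (3 / 2 * s) c3) (h3 : c3 ≤ 5 / 2 * q)
    (t4 : TL E2v (1 / 2 * s) c4) (h4 : c4 + 5 * c2 ≤ 5 * q)
    (t5 : TL E2v (2 * s) (5 * q)) :
    Data k (Fi E1v (5 * N)) (Fi E2v N) s (N * q) (1 / 2) (1 / 3) := by
  have hNr : (1:ℝ) ≤ N := by exact_mod_cast hN
  have hN0 : (0:ℝ) < N := by linarith
  have h5N : 0 < 5 * N := by omega
  have hkr : (4:ℝ) ≤ k := by exact_mod_cast hk
  have n1 : ∀ a, 0 ≤ Fi E1v (5 * N) a := Fi_nonneg E1v_nonneg h5N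
  have n2 : ∀ a, 0 ≤ Fi E2v N a := Fi_nonneg E2v_nonneg hN
  have cst : ((5 * N : ℕ) : ℝ) = 5 * N := by push_cast; ring
  refine ⟨by omega, hs, by positivity, ?_, ?_, by norm_num, ?_, by norm_num, n2, n1, ?_, ?_, ?_,
    ?_, ?_, ?_⟩
  · have : q ^ 2 ≤ (N * q) ^ 2 := by
      apply pow_le_pow_left₀ hq.le
      nlinarith
    linarith
  · rw [div_le_div_iff₀ (by linarith) (by norm_num)]; linarith
  · rw [div_le_div_iff₀ (by linarith) (by norm_num)]; linarith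
  · intro a; exact Fi_tangent t0 hN a
  · intro b
    have h := Fi_tangent t1 h5N b
    rw [cst] at h
    linarith
  · intro a
    have h := Fi_tangent t2 h5N a
    rw [cst] at h
    nlinarith [mul_le_mul_of_nonneg_left h2 hN0.le]
  · intro a b
    have h := Fi_tangent t3 hN a
    have h' := Fi_tangent t1 h5N b
    rw [cst] at h'
    nlinarith [mul_le_mul_of_nonneg_left h3 hN0.le]
  · intro a b
    have h := Fi_tangent t4 hN a
    have h' := Fi_tangent t2 h5N b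
    rw [cst] at h'
    nlinarith [mul_le_mul_of_nonneg_left h4 hN0.le]
  · intro a r b hrb hb
    left
    have h := Fi_tangent t5 hN a
    have f1 := n1 r
    have f2 := n1 b
    nlinarith

/-! ### odd case -/

theorem odd_tangent (m : ℕ) :
    TL E1v ((m:ℝ) * (m - 1) / 2) (((m:ℝ) ^ 3 - m) / 3) := by
  have h := conv_tangent (E := E1v) (σ := fun x => (Nat.choose x 2 : ℝ)) E1v_succ (m := m)
    (s := (Nat.choose m 2 : ℝ))
    (fun x hx => by exact_mod_cast Nat.choose_le_choose 2 hx.le)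
    (fun x hx => by exact_mod_cast Nat.choose_le_choose 2 hx)
  rw [E1v_eq, choose2_cast] at h
  refine TL_mono h le_rfl (le_of_eq ?_)
  ring

theorem conv1 {m : ℕ} {s : ℝ} (h1 : (Nat.choose (m - 1) 2 : ℝ) ≤ s)
    (h2 : s ≤ (Nat.choose m 2 : ℝ)) : TL E1v s (s * m - E1v m) :=
  conv_tangent (E := E1v) (σ := fun x => (Nat.choose x 2 : ℝ)) E1v_succ
    (fun x hx => le_trans (by exact_mod_cast Nat.choose_le_choose 2 (by omega)) h1)
    (fun x hx => h2.trans (by exact_mod_cast Nat.choose_le_choose 2 hx))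

theorem conv2 {m : ℕ} {s : ℝ} (h1 : (((((m - 1) - 1) / 2) ^ 2 / 2 : ℕ) : ℝ) ≤ s)
    (h2 : s ≤ ((((m - 1) / 2) ^ 2 / 2 : ℕ) : ℝ)) : TL E2v s (s * m - E2v m) :=
  conv_tangent (E := E2v) (σ := fun x => ((((x - 1) / 2) ^ 2 / 2 : ℕ) : ℝ)) E2v_succ
    (fun x hx => le_trans (by
      have : ((x - 1) / 2) ^ 2 / 2 ≤ (((m - 1) - 1) / 2) ^ 2 / 2 :=
        Nat.div_le_div_right (Nat.pow_le_pow_left (Nat.div_le_div_right (by omega)) 2)
      exact_mod_cast this) h1)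
    (fun x hx => h2.trans (by
      have : ((m - 1) / 2) ^ 2 / 2 ≤ ((x - 1) / 2) ^ 2 / 2 :=
        Nat.div_le_div_right (Nat.pow_le_pow_left (Nat.div_le_div_right (by omega)) 2)
      exact_mod_cast this))

theorem E2v_5 : E2v 5 = 0 := by
  unfold E2v G2; norm_num [Finset.sum_range_succ]

theorem odd_two {k N : ℕ} (hk : 3 ≤ k) (hN : 0 < N) :
    Data k (Fi E2v N) (Fi E1v N) 1 (N * 2) 1 (1 / 2) := by
  have a1 : TL E1v 1 2 := by
    have h := conv1 (m := 2) (s := 1) (by norm_num) (by norm_num)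
    refine TL_mono h le_rfl ?_
    rw [E1v_eq]; norm_num
  have a2 : TL E1v (2 * 1) 5 := by
    have h := conv1 (m := 3) (s := 2 * 1) (by norm_num [Nat.choose]) (by norm_num [Nat.choose])
    refine TL_mono h le_rfl ?_
    rw [E1v_eq]; norm_num
  have a3 : TL E1v (7 / 2) 10 := by
    have h := conv1 (m := 4) (s := 7 / 2) (by norm_num [Nat.choose]) (by norm_num [Nat.choose])
    refine TL_mono h le_rfl ?_
    rw [E1v_eq]; norm_num
  have a4 : TL E1v (15 / 4) 11 := by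
    have h := conv1 (m := 4) (s := 15 / 4) (by norm_num [Nat.choose]) (by norm_num [Nat.choose])
    refine TL_mono h le_rfl ?_
    rw [E1v_eq]; norm_num
  have b : ∀ s : ℝ, 0 ≤ s → s ≤ 2 → TL E2v s (s * 5) := by
    intro s h0 h2
    have h := conv2 (m := 5) (s := s) (by norm_num; exact h0) (by norm_num; exact h2)
    refine TL_mono h le_rfl ?_
    rw [E2v_5]; norm_num
  have b0 : TL E2v 0 0 := fun x => by simpa using E2v_nonneg x
  exact odd_data hk hN (s := 1) (q := 2) (c1 := 5) (c3 := 5) (σ1 := 7 / 2) (σ2 := 0) (d1 := 10)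
    (d2 := 0) (d3 := 5 / 3) (σ1' := 15 / 4) (σ2' := 0) (d1' := 11) (d2' := 0)
    (by norm_num) (by norm_num) (by norm_num) a1 (by simpa using b 1 (by norm_num) (by norm_num))
    (by norm_num) (TL_mono (b (3 / 2 * 1) (by norm_num) (by norm_num)) le_rfl (by norm_num)) a2
    (by norm_num) a3 b0 (TL_mono (b (1 / 3) (by norm_num) (by norm_num)) le_rfl (by norm_num))
    (by norm_num) (by norm_num) a4 b0 (by norm_num) (by norm_num)

theorem odd_big {k N : ℕ} (hk : 3 ≤ k) (hN : 0 < N) {m : ℝ} (hm : 3 ≤ m) {q : ℝ}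
    (hq : q = (m ^ 3 - m) / 3) (t0 : TL E1v (m * (m - 1) / 2) q) :
    Data k (Fi E2v N) (Fi E1v N) (m * (m - 1) / 2) (N * q) 1 (1 / 2) := by
  obtain ⟨t, ht, rfl⟩ : ∃ t : ℝ, 0 ≤ t ∧ m = t + 3 := ⟨m - 3, by linarith, by ring⟩
  have t2 : 0 ≤ t ^ 2 := by positivity
  have t3 : 0 ≤ t ^ 3 := by positivity
  have hs : 0 < (t + 3) * (t + 3 - 1) / 2 := by nlinarith
  have hq0 : 0 < q := by rw [hq]; nlinarith
  subst hq
  set v1 : ℝ := 2 * (t + 3) - 13 / 15 with hv1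
  set v4 : ℝ := 49 / 20 * (t + 3) - 231 / 200 with hv4
  set v3 : ℝ := 14143 / 10000 * (t + 3) - 14143 / 20000 with hv3
  set va : ℝ := 1764 / 1000 * (t + 3) - 77 / 100 with hva
  set vb : ℝ := 1764 / 1000 * (t + 3) - 177 / 100 with hvb
  set vc : ℝ := 1155 / 1000 * (t + 3) - 227 / 1000 with hvc
  set ua : ℝ := 1826 / 1000 * (t + 3) - 80 / 100 with hua
  set ub : ℝ := 1826 / 1000 * (t + 3) - 180 / 100 with hub
  refine odd_data hk hN hs hq0 ?_ t0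
    (TL_mono (tan2 (v := v1) (by rw [hv1]; linarith)) ?_ le_rfl) ?_
    (TL_mono (tan2 (v := v4) (by rw [hv4]; linarith)) ?_ ?_)
    (TL_mono (tan1 (v := v3) (by rw [hv3]; linarith)) ?_ le_rfl) ?_
    (tan1 (v := va) (by rw [hva]; linarith)) (tan2 (v := vb) (by rw [hvb]; linarith))
    (TL_mono (tan2 (v := vc) (by rw [hvc]; linarith)) ?_ le_rfl) ?_ ?_
    (tan1 (v := ua) (by rw [hua]; linarith)) (tan2 (v := ub) (by rw [hub]; linarith)) ?_ ?_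
  · have e : 5 / 4 * (((t + 3) ^ 3 - (t + 3)) / 3) ^ 2 - ((t + 3) * (t + 3 - 1) / 2) ^ 3 =
        (t + 3) ^ 2 * (t + 2) ^ 2 * (10 * (t + 4) ^ 2 - 9 * (t + 3) * (t + 2)) / 72 := by ring
    have : 0 ≤ (t + 3) ^ 2 * (t + 2) ^ 2 * (10 * (t + 4) ^ 2 - 9 * (t + 3) * (t + 2)) / 72 := by
      have : 0 ≤ 10 * (t + 4) ^ 2 - 9 * (t + 3) * (t + 2) := by nlinarith
      positivity
    linarith
  · rw [hv1]; linarith
  · rw [hv1]; linarith
  · rw [hv4]; linarith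
  · rw [hv4]; linarith
  · rw [hv3]; linarith
  · rw [hv3, hv1]; linarith
  · rw [hvc]; linarith
  · rw [hva, hvb]; linarith
  · rw [hva, hvb, hvc]; linarith
  · rw [hua, hub]; linarith
  · rw [hua, hub, hvc]; linarith

/-- the odd case in terms of `m = ⌊n / 5N⌋` -/
theorem odd_case {k N m : ℕ} (hk : 3 ≤ k) (hN : 0 < N) (hm : 2 ≤ m) :
    Data k (Fi E2v N) (Fi E1v N) (E1v (m + 1) - E1v m)
      (N * ((E1v (m + 1) - E1v m) * m - E1v m)) 1 (1 / 2) := by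
  have hs : E1v (m + 1) - E1v m = (m:ℝ) * (m - 1) / 2 := by
    rw [E1v_succ, choose2_cast]; ring
  have hq : (E1v (m + 1) - E1v m) * m - E1v m = ((m:ℝ) ^ 3 - m) / 3 := by
    rw [hs, E1v_eq]; ring
  rw [hq, hs]
  rcases Nat.lt_or_ge m 3 with h | h
  · have : m = 2 := by omega
    subst this
    have := odd_two (k := k) hk hN
    norm_num at this ⊢
    exact this
  · exact odd_big hk hN (by exact_mod_cast h) rfl (odd_tangent m)

/-! ### even case -/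

theorem even_big {k N : ℕ} (hk : 4 ≤ k) (hN : 0 < N) {j s q : ℝ} (hj : 2 ≤ j)
    (hcase : (s = j ^ 2 / 2 ∧ q = (2 * j ^ 3 + 3 * j ^ 2 + j) / 3) ∨
      (3 ≤ j ∧ s = (j ^ 2 - 1) / 2 ∧ q = (2 * j ^ 3 + 3 * j ^ 2 - 2 * j - 3) / 3))
    (t0 : TL E2v s q) (t1 : TL E1v s (q / 2)) :
    Data k (Fi E1v (5 * N)) (Fi E2v N) s (N * q) (1 / 2) (1 / 3) := by
  have hs1 : s ≤ j ^ 2 / 2 := by
    rcases hcase with ⟨h, _⟩ | ⟨_, h, _⟩ <;> rw [h] <;> linarith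
  have hs : 0 < s := by
    rcases hcase with ⟨h, _⟩ | ⟨_, h, _⟩ <;> rw [h] <;> nlinarith
  have hqj : j ^ 3 / 2 ≤ q := by
    rcases hcase with ⟨_, h⟩ | ⟨_, _, h⟩
    · rw [h]; nlinarith [pow_pos (by linarith : (0:ℝ) < j) 3, pow_pos (by linarith : (0:ℝ) < j) 2]
    · rw [h]; nlinarith [pow_pos (by linarith : (0:ℝ) < j) 3, pow_pos (by linarith : (0:ℝ) < j) 2]
  have hj0 : 0 < j := by linarith
  have hq0 : 0 < q := lt_of_lt_of_le (by positivity) hqj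
  set v1 : ℝ := 1155 / 1000 * j + 8 / 100 with hv1
  set v2 : ℝ := 245 / 100 * j + 25 / 100 with hv2
  set v3 : ℝ := 14143 / 10000 * j + 42 / 100 with hv3
  set v4 : ℝ := 283 / 100 * j + 20 / 100 with hv4
  -- slopes
  have hjj : 0 ≤ (j - 2) ^ 2 := sq_nonneg _
  have sl1 : 4 / 3 * s ≤ (3 * v1 ^ 2 - 1) / 6 := by rw [hv1]; linarith
  have sl2 : 3 / 2 * s ≤ (3 * v2 ^ 2 - 7) / 24 := by rw [hv2]; linarith
  have sl3 : 1 / 2 * s ≤ (3 * v3 ^ 2 - 7) / 24 := by rw [hv3]; linarith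
  have sl4 : 2 * s ≤ (3 * v4 ^ 2 - 7) / 24 := by rw [hv4]; linarith
  have costs : (3 * v1 ^ 2 - 1 + 2 * v1 ^ 3) / 6 ≤ q ∧ (v2 ^ 3 + 3 * v2 ^ 2 - 4) / 12 ≤ 5 / 2 * q ∧
      (v3 ^ 3 + 3 * v3 ^ 2 - 4) / 12 + 5 * ((3 * v1 ^ 2 - 1 + 2 * v1 ^ 3) / 6) ≤ 5 * q ∧
      (v4 ^ 3 + 3 * v4 ^ 2 - 4) / 12 ≤ 5 * q := by
    rcases hcase with ⟨_, h⟩ | ⟨hj3, _, h⟩
    · obtain ⟨t, ht, rfl⟩ : ∃ t : ℝ, 0 ≤ t ∧ j = t + 2 := ⟨j - 2, by linarith, by ring⟩
      have t2 : 0 ≤ t ^ 2 := by positivity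
      have t3 : 0 ≤ t ^ 3 := by positivity
      rw [h, hv1, hv2, hv3, hv4]
      refine ⟨?_, ?_, ?_, ?_⟩ <;> linarith
    · obtain ⟨t, ht, rfl⟩ : ∃ t : ℝ, 0 ≤ t ∧ j = t + 3 := ⟨j - 3, by linarith, by ring⟩
      have t2 : 0 ≤ t ^ 2 := by positivity
      have t3 : 0 ≤ t ^ 3 := by positivity
      rw [h, hv1, hv2, hv3, hv4]
      refine ⟨?_, ?_, ?_, ?_⟩ <;> linarith
  obtain ⟨k1, k2, k3, k4⟩ := costs
  refine even_data hk hN hs hq0 ?_ t0 t1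
    (TL_mono (tan1 (v := v1) (by rw [hv1]; linarith)) sl1 le_rfl) k1
    (TL_mono (tan2 (v := v2) (by rw [hv2]; linarith)) sl2 le_rfl) k2
    (TL_mono (tan2 (v := v3) (by rw [hv3]; linarith)) sl3 le_rfl) k3
    (TL_mono (tan2 (v := v4) (by rw [hv4]; linarith)) sl4 k4)
  have h1 : s ^ 3 ≤ (j ^ 2 / 2) ^ 3 := pow_le_pow_left₀ hs.le hs1 3
  have h2 : (j ^ 3 / 2) ^ 2 ≤ q ^ 2 := pow_le_pow_left₀ (by positivity) hqj 2
  have h3 : (j ^ 2 / 2) ^ 3 = j ^ 6 / 8 := by ring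
  have h4 : (j ^ 3 / 2) ^ 2 = j ^ 6 / 4 := by ring
  have h5 : 0 ≤ j ^ 6 := by positivity
  linarith

theorem even_case {k N m : ℕ} (hk : 4 ≤ k) (hN : 0 < N) (hm : 5 ≤ m) :
    Data k (Fi E1v (5 * N)) (Fi E2v N) (E2v (m + 1) - E2v m)
      (N * ((E2v (m + 1) - E2v m) * m - E2v m)) (1 / 2) (1 / 3) := by
  have ht0 : TL E2v (E2v (m + 1) - E2v m) ((E2v (m + 1) - E2v m) * m - E2v m) := by
    have hs : E2v (m + 1) - E2v m = ((((m - 1) / 2) ^ 2 / 2 : ℕ) : ℝ) := by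
      rw [E2v_succ]; ring
    rw [hs]
    refine conv2 ?_ le_rfl
    have : (((m - 1) - 1) / 2) ^ 2 / 2 ≤ ((m - 1) / 2) ^ 2 / 2 :=
      Nat.div_le_div_right (Nat.pow_le_pow_left (Nat.div_le_div_right (by omega)) 2)
    exact_mod_cast this
  obtain ⟨i, r, hr, hn⟩ : ∃ i r : ℕ, r < 4 ∧ m = 4 * i + 1 + r :=
    ⟨(m - 1) / 4, (m - 1) % 4, Nat.mod_lt _ (by norm_num), by omega⟩
  have hi1 : 1 ≤ i := by omega
  have hir : (1:ℝ) ≤ i := by exact_mod_cast hi1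
  obtain ⟨w1, w2, w3, w4⟩ := E2v_vals i
  have w5 := (E2v_vals (i + 1)).1
  -- tangent for `E1v` in the two families
  have fam1 : TL E1v (2 * (i:ℝ) ^ 2) (((2 * (2 * (i:ℝ)) ^ 3 + 3 * (2 * (i:ℝ)) ^ 2 + 2 * i) / 3) / 2) := by
    have h := conv1 (m := 2 * i + 1) (s := 2 * (i:ℝ) ^ 2)
      (by rw [choose2_cast, show 2 * i + 1 - 1 = 2 * i by omega]; push_cast; nlinarith)
      (by rw [choose2_cast]; push_cast; nlinarith)
    refine TL_mono h le_rfl (le_of_eq ?_)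
    rw [E1v_eq]; push_cast; ring
  have fam2 : TL E1v (2 * (i:ℝ) ^ 2 + 2 * i) (((2 * (2 * (i:ℝ) + 1) ^ 3 + 3 * (2 * (i:ℝ) + 1) ^ 2 -
      2 * (2 * i + 1) - 3) / 3) / 2) := by
    have h := conv1 (m := 2 * i + 2) (s := 2 * (i:ℝ) ^ 2 + 2 * i)
      (by rw [choose2_cast, show 2 * i + 2 - 1 = 2 * i + 1 by omega]; push_cast; nlinarith)
      (by rw [choose2_cast]; push_cast; nlinarith)
    refine TL_mono h le_rfl (le_of_eq ?_)
    rw [E1v_eq]; push_cast; ring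
  interval_cases r
  · have hs : E2v (m + 1) - E2v m = 2 * (i:ℝ) ^ 2 := by
      rw [hn, show 4 * i + 1 + 0 + 1 = 4 * i + 2 by ring, show 4 * i + 1 + 0 = 4 * i + 1 by ring,
        w1, w2]; ring
    have hq : (E2v (m + 1) - E2v m) * m - E2v m =
        (2 * (2 * (i:ℝ)) ^ 3 + 3 * (2 * (i:ℝ)) ^ 2 + 2 * i) / 3 := by
      rw [hs, hn, show 4 * i + 1 + 0 = 4 * i + 1 by ring, w1]; push_cast; ring
    rw [hq, hs] at ht0 ⊢
    exact even_big (j := 2 * i) hk hN (by linarith) (Or.inl ⟨by ring, rfl⟩) ht0 fam1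
  · have hs : E2v (m + 1) - E2v m = 2 * (i:ℝ) ^ 2 := by
      rw [hn, show 4 * i + 1 + 1 + 1 = 4 * i + 3 by ring, show 4 * i + 1 + 1 = 4 * i + 2 by ring,
        w2, w3]; ring
    have hq : (E2v (m + 1) - E2v m) * m - E2v m =
        (2 * (2 * (i:ℝ)) ^ 3 + 3 * (2 * (i:ℝ)) ^ 2 + 2 * i) / 3 := by
      rw [hs, hn, show 4 * i + 1 + 1 = 4 * i + 2 by ring, w2]; push_cast; ring
    rw [hq, hs] at ht0 ⊢
    exact even_big (j := 2 * i) hk hN (by linarith) (Or.inl ⟨by ring, rfl⟩) ht0 fam1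
  · have hs : E2v (m + 1) - E2v m = 2 * (i:ℝ) ^ 2 + 2 * i := by
      rw [hn, show 4 * i + 1 + 2 + 1 = 4 * i + 4 by ring, show 4 * i + 1 + 2 = 4 * i + 3 by ring,
        w3, w4]; ring
    have hq : (E2v (m + 1) - E2v m) * m - E2v m =
        (2 * (2 * (i:ℝ) + 1) ^ 3 + 3 * (2 * (i:ℝ) + 1) ^ 2 - 2 * (2 * i + 1) - 3) / 3 := by
      rw [hs, hn, show 4 * i + 1 + 2 = 4 * i + 3 by ring, w3]; push_cast; ring
    rw [hq, hs] at ht0 ⊢
    exact even_big (j := 2 * i + 1) hk hN (by linarith) (Or.inr ⟨by linarith, by ring, rfl⟩) ht0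
      fam2
  · have hs : E2v (m + 1) - E2v m = 2 * (i:ℝ) ^ 2 + 2 * i := by
      rw [hn, show 4 * i + 1 + 3 + 1 = 4 * (i + 1) + 1 by ring,
        show 4 * i + 1 + 3 = 4 * i + 4 by ring, w4, w5]; push_cast; ring
    have hq : (E2v (m + 1) - E2v m) * m - E2v m =
        (2 * (2 * (i:ℝ) + 1) ^ 3 + 3 * (2 * (i:ℝ) + 1) ^ 2 - 2 * (2 * i + 1) - 3) / 3 := by
      rw [hs, hn, show 4 * i + 1 + 3 = 4 * i + 4 by ring, w4]; push_cast; ring
    rw [hq, hs] at ht0 ⊢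
    exact even_big (j := 2 * i + 1) hk hN (by linarith) (Or.inr ⟨by linarith, by ring, rfl⟩) ht0
      fam2

end Pool.Agent.R71.GM
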