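import Pool.Agent.R71.GM.Good

set_option autoImplicit false
set_option linter.unusedSectionVars false

namespace Pool.Agent.R71.GM

open Finset

variable {V C : Type*} [DecidableEq V] [DecidableEq C]

theorem triple_sum (I : Finset V) (A : V → ℝ) (G : V → V → ℝ) (H Q : V → V → V → ℝ)
    (h1 : ∀ i ∈ I, Q i i i = A i)
    (h2 : ∀ i ∈ I, ∀ l ∈ I, i ≠ l → Q i i l = G i l)
    (h3 : ∀ i ∈ I, ∀ j ∈ I, i ≠ j → Q i j i = G i j)
    (h4 : ∀ i ∈ I, ∀ j ∈ I, i ≠ j → Q i j j = G j i)
    (h5 : ∀ i ∈ I, ∀ j ∈ I, ∀ l ∈ I, i ≠ j → j ≠ l → i ≠ l → Q i j l = H i j l)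
    (h6 : ∀ i ∈ I, ∀ j ∈ I, ∀ l ∈ I, ¬ (i ≠ j ∧ j ≠ l ∧ i ≠ l) → H i j l = 0) :
    ∑ i ∈ I, ∑ j ∈ I, ∑ l ∈ I, Q i j l =
      ∑ i ∈ I, A i + 3 * ∑ i ∈ I, ∑ l ∈ I, (if i ≠ l then G i l else 0) +
        ∑ i ∈ I, ∑ j ∈ I, ∑ l ∈ I, H i j l := by
  have e : ∀ i ∈ I, ∀ j ∈ I, ∀ l ∈ I, Q i j l =
      (if i = j then (if i = l then A i else G i l) else 0) +
      (if i = l then (if i ≠ j then G i j else 0) else 0) +
      (if j = l then (if i ≠ j then G j i else 0) else 0) + H i j l := by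
    intro i hi j hj l hl
    by_cases a1 : i = j
    · subst a1
      by_cases a2 : i = l
      · subst a2
        rw [h1 i hi, h6 i hi i hi i hi (fun k => k.1 rfl)]
        simp
      · rw [h2 i hi l hl a2, h6 i hi i hi l hl (fun k => k.1 rfl)]
        simp [a2]
    · by_cases a2 : i = l
      · subst a2
        rw [h3 i hi j hj a1, h6 i hi j hj i hi (fun k => k.2.2 rfl)]
        simp [a1, Ne.symm a1]
      · by_cases a3 : j = l
        · subst a3
          rw [h4 i hi j hj a1, h6 i hi j hj j hj (fun k => k.2.1 rfl)]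
          simp [a1]
        · rw [h5 i hi j hj l hl a1 a3 a2]
          simp [a1, a2, a3]
  rw [sum_congr rfl fun i hi => sum_congr rfl fun j hj => sum_congr rfl fun l hl =>
    e i hi j hj l hl]
  simp only [sum_add_distrib]
  have s1 : ∑ i ∈ I, ∑ j ∈ I, ∑ l ∈ I, (if i = j then (if i = l then A i else G i l) else 0) =
      ∑ i ∈ I, A i + ∑ i ∈ I, ∑ l ∈ I, (if i ≠ l then G i l else 0) := by
    rw [← sum_add_distrib]
    refine sum_congr rfl fun i hi => ?_
    have : ∀ j ∈ I, ∑ l ∈ I, (if i = j then (if i = l then A i else G i l) else 0) =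
        (if i = j then (∑ l ∈ I, if i = l then A i else G i l) else 0) := by
      intro j _
      split_ifs
      · rfl
      · exact sum_const_zero
    rw [sum_congr rfl this, sum_ite_eq I i, if_pos hi]
    have : ∀ l ∈ I, (if i = l then A i else G i l) =
        (if i = l then A i else 0) + (if i ≠ l then G i l else 0) := by
      intro l _
      by_cases h : i = l <;> simp [h]
    rw [sum_congr rfl this, sum_add_distrib, sum_ite_eq I i, if_pos hi]
  have s2 : ∑ i ∈ I, ∑ j ∈ I, ∑ l ∈ I, (if i = l then (if i ≠ j then G i j else 0) else 0) =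
      ∑ i ∈ I, ∑ l ∈ I, (if i ≠ l then G i l else 0) := by
    refine sum_congr rfl fun i hi => sum_congr rfl fun j hj => ?_
    rw [sum_ite_eq I i, if_pos hi]
  have s3 : ∑ i ∈ I, ∑ j ∈ I, ∑ l ∈ I, (if j = l then (if i ≠ j then G j i else 0) else 0) =
      ∑ i ∈ I, ∑ l ∈ I, (if i ≠ l then G i l else 0) := by
    have : ∀ i ∈ I, ∀ j ∈ I, ∑ l ∈ I, (if j = l then (if i ≠ j then G j i else 0) else 0) =
        (if i ≠ j then G j i else 0) := by
      intro i hi j hj
      rw [sum_ite_eq I j, if_pos hj]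
    rw [sum_congr rfl fun i hi => sum_congr rfl fun j hj => this i hi j hj, sum_comm]
    refine sum_congr rfl fun i _ => sum_congr rfl fun j _ => ?_
    by_cases h : i = j
    · subst h; simp
    · simp [h, Ne.symm h]
  rw [s1, s2, s3]
  ring

/-- the part `i` -/
def Pt (S : Finset V) (f : V → V) (i : V) : Finset V := S.filter (fun x => f x = i)

theorem T3_fiber1 (c : V → V → C) (S : Finset V) (f : V → V) (Y Z : Finset V) :
    T3 c S Y Z = ∑ i ∈ S.image f, T3 c (Pt S f i) Y Z := by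
  unfold T3 Pt
  exact (sum_fiberwise_of_maps_to (fun x hx => mem_image_of_mem f hx) _).symm

theorem T3_fiber {c : V → V → C} (hc : ∀ x y, c x y = c y x) (S : Finset V) (f : V → V) :
    T3 c S S S = ∑ i ∈ S.image f, ∑ j ∈ S.image f, ∑ l ∈ S.image f,
      T3 c (Pt S f i) (Pt S f j) (Pt S f l) := by
  rw [T3_fiber1]
  refine sum_congr rfl fun i _ => ?_
  rw [T3_swap12 hc S (Pt S f i) S, T3_fiber1]
  refine sum_congr rfl fun j _ => ?_
  rw [T3_swap12 hc (Pt S f i) (Pt S f j) S, T3_swap23 hc _ S (Pt S f j),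
    T3_swap12 hc S _ _, T3_fiber1]
  refine sum_congr rfl fun l _ => ?_
  rw [T3_swap12 hc (Pt S f i) (Pt S f l) (Pt S f j), T3_swap23 hc]

theorem card_fiber (S : Finset V) (f : V → V) :
    (S.card : ℝ) = ∑ i ∈ S.image f, ((Pt S f i).card : ℝ) := by
  have : S.card = ∑ i ∈ S.image f, (Pt S f i).card :=
    card_eq_sum_card_fiberwise (fun x hx => mem_image_of_mem f hx)
  exact_mod_cast this

/-- total weight of the parts joined to `i` in colour `k` -/
noncomputable def Nb (S : Finset V) (f : V → V) (d : V → V → C) (k : C) (i : V) : ℝ :=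
  ∑ j ∈ S.image f, if j ≠ i ∧ d i j = k then ((Pt S f j).card : ℝ) else 0

theorem part_count {c : V → V → C} (hG : ∀ x y, c x y = c y x) {S : Finset V} {f : V → V} {d : V → V → C}
    {r b : C} (hrb : r ≠ b) (hcd : ∀ x ∈ S, ∀ y ∈ S, f x ≠ f y → c x y = d (f x) (f y))
    (hd : ∀ i j, d i j = d j i)
    (h2 : ∀ i ∈ S.image f, ∀ j ∈ S.image f, i ≠ j → d i j = r ∨ d i j = b) :
    T c S = ∑ i ∈ S.image f, (T c (Pt S f i) + Nb S f d r i * (E2 c r (Pt S f i) / 2) +
      Nb S f d b i * (E2 c b (Pt S f i) / 2)) +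
      WS d (S.image f) (fun i => ((Pt S f i).card : ℝ)) / 6 := by
  set I := S.image f with hI
  have hdisj : ∀ i j, i ≠ j → Disjoint (Pt S f i) (Pt S f j) := by
    intro i j hij
    rw [disjoint_left]
    intro x hx hx'
    exact hij ((mem_filter.1 hx).2.symm.trans (mem_filter.1 hx').2)
  have hcone : ∀ i ∈ I, ∀ l ∈ I, i ≠ l → T3 c (Pt S f l) (Pt S f i) (Pt S f i) =
      ((Pt S f l).card : ℝ) * E2 c (d i l) (Pt S f i) := by
    intro i _ l _ hil
    refine T3_cone (hdisj l i hil.symm) ?_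
    intro w hw a ha
    have hw' := mem_filter.1 hw
    have ha' := mem_filter.1 ha
    rw [hcd w hw'.1 a ha'.1 (by rw [hw'.2, ha'.2]; exact hil.symm), hw'.2, ha'.2, hd]
  have key := triple_sum I (fun i => T3 c (Pt S f i) (Pt S f i) (Pt S f i))
    (fun i l => ((Pt S f l).card : ℝ) * E2 c (d i l) (Pt S f i))
    (fun i j l => ((Pt S f i).card : ℝ) * ((Pt S f j).card : ℝ) * ((Pt S f l).card : ℝ) *
      M d i j l)
    (fun i j l => T3 c (Pt S f i) (Pt S f j) (Pt S f l))
    (fun i _ => rfl)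
    (fun i hi l hl hil => by
      show T3 c (Pt S f i) (Pt S f i) (Pt S f l) = _
      rw [T3_swap23 hG, T3_swap12 hG, hcone i hi l hl hil])
    (fun i hi j hj hij => by
      show T3 c (Pt S f i) (Pt S f j) (Pt S f i) = _
      rw [T3_swap12 hG, hcone i hi j hj hij])
    (fun i hi j hj hij => by
      show T3 c (Pt S f i) (Pt S f j) (Pt S f j) = _
      rw [hcone j hj i hi hij.symm])
    (fun i hi j hj l hl h1 h2 h3 => by
      show T3 c (Pt S f i) (Pt S f j) (Pt S f l) = _
      unfold T3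
      have : ∀ x ∈ Pt S f i, ∀ y ∈ Pt S f j, ∀ z ∈ Pt S f l, M c x y z = M d i j l := by
        intro x hx y hy z hz
        have hx' := mem_filter.1 hx
        have hy' := mem_filter.1 hy
        have hz' := mem_filter.1 hz
        have e1 : c x y = d i j := by
          rw [hcd x hx'.1 y hy'.1 (by rw [hx'.2, hy'.2]; exact h1), hx'.2, hy'.2]
        have e2 : c y z = d j l := by
          rw [hcd y hy'.1 z hz'.1 (by rw [hy'.2, hz'.2]; exact h2), hy'.2, hz'.2]
        have e3 : c x z = d i l := by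
          rw [hcd x hx'.1 z hz'.1 (by rw [hx'.2, hz'.2]; exact h3), hx'.2, hz'.2]
        have n1 : x ≠ y := fun e => h1 (by rw [← hx'.2, ← hy'.2, e])
        have n2 : y ≠ z := fun e => h2 (by rw [← hy'.2, ← hz'.2, e])
        have n3 : x ≠ z := fun e => h3 (by rw [← hx'.2, ← hz'.2, e])
        unfold M
        rw [e1, e2, e3]
        by_cases hh : d i j = d j l ∧ d i j = d i l
        · rw [if_pos ⟨n1, n2, n3, hh⟩, if_pos ⟨h1, h2, h3, hh⟩]
        · rw [if_neg (fun k => hh k.2.2.2), if_neg (fun k => hh k.2.2.2)]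
      rw [sum_congr rfl fun x hx => sum_congr rfl fun y hy => sum_congr rfl fun z hz =>
        this x hx y hy z hz]
      simp only [sum_const, nsmul_eq_mul]
      ring)
    (fun i _ j _ l _ hn => by
      show _ * M d i j l = 0
      have : M d i j l = 0 := by
        unfold M; rw [if_neg (fun k => hn ⟨k.1, k.2.1, k.2.2.1⟩)]
      rw [this, mul_zero])
  have hsum : ∀ i ∈ I, ∑ l ∈ I, (if i ≠ l then ((Pt S f l).card : ℝ) * E2 c (d i l) (Pt S f i)
      else 0) = Nb S f d r i * E2 c r (Pt S f i) + Nb S f d b i * E2 c b (Pt S f i) := by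
    intro i hi
    unfold Nb
    rw [sum_mul, sum_mul, ← sum_add_distrib]
    refine sum_congr rfl fun l hl => ?_
    by_cases hil : i = l
    · subst hil; simp
    · rcases h2 i hi l hl hil with h | h
      · simp [hil, Ne.symm hil, h, hrb]
      · simp [hil, Ne.symm hil, h, hrb.symm]
  unfold T
  rw [T3_fiber hG, key, sum_congr rfl hsum]
  unfold WS
  have e1 : ∑ i ∈ I, (T3 c (Pt S f i) (Pt S f i) (Pt S f i) / 6 +
      Nb S f d r i * (E2 c r (Pt S f i) / 2) + Nb S f d b i * (E2 c b (Pt S f i) / 2)) =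
      (∑ i ∈ I, T3 c (Pt S f i) (Pt S f i) (Pt S f i)) / 6 +
      (∑ i ∈ I, (Nb S f d r i * E2 c r (Pt S f i) + Nb S f d b i * E2 c b (Pt S f i))) / 2 := by
    rw [sum_div, sum_div, ← sum_add_distrib]
    refine sum_congr rfl fun i _ => by ring
  rw [e1]
  ring

end Pool.Agent.R71.GM
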