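import Pool.Agent.R71.GM.Basic

set_option autoImplicit false
set_option linter.unusedSectionVars false

namespace Pool.Agent.R71.GM

open Finset Relation

variable {V C : Type*} [DecidableEq V] [DecidableEq C]

/-- one step of colour `a` inside `J` -/
def stp (c : V → V → C) (a : C) (J : Finset V) (x y : V) : Prop := x ∈ J ∧ y ∈ J ∧ c x y = a

/-- connected by colour `a` inside `J` -/
def con (c : V → V → C) (a : C) (J : Finset V) : V → V → Prop := ReflTransGen (stp c a J)

theorem con_symm {c : V → V → C} (hc : ∀ x y, c x y = c y x) {a : C} {J : Finset V} {x y : V}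
    (h : con c a J x y) : con c a J y x := by
  induction h with
  | refl => exact ReflTransGen.refl
  | @tail u v _ h2 ih =>
    exact ReflTransGen.head ⟨h2.2.1, h2.1, by rw [hc]; exact h2.2.2⟩ ih

theorem con_trans {c : V → V → C} {a : C} {J : Finset V} {x y z : V}
    (h : con c a J x y) (h' : con c a J y z) : con c a J x z := ReflTransGen.trans h h'

theorem con_mem {c : V → V → C} {a : C} {J : Finset V} {x y : V}
    (h : con c a J x y) (hx : x ∈ J) : y ∈ J := by
  induction h with
  | refl => exact hx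
  | tail _ h2 _ => exact h2.2.1

/-- Homogeneity between components. -/
theorem homog1 {c : V → V → C} (hG : Gal c) {a : C} {J : Finset V} {x y y' : V}
    (hx : x ∈ J) (_hy : y ∈ J) (hn : ¬ con c a J x y) (h : con c a J y y') : c x y = c x y' := by
  induction h with
  | refl => rfl
  | @tail u v h1 h2 ih =>
    rw [ih]
    have hu : u ∈ J := h2.1
    have hv : v ∈ J := h2.2.1
    have hnu : ¬ con c a J x u := fun hh => hn (con_trans hh (con_symm hG.1 h1))
    have hnv : ¬ con c a J x v := fun hh => hnu (con_trans hh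
      (con_symm hG.1 (ReflTransGen.single h2)))
    by_cases huv : u = v
    · rw [huv]
    have hxu : x ≠ u := fun e => hnu (e ▸ ReflTransGen.refl)
    have hxv : x ≠ v := fun e => hnv (e ▸ ReflTransGen.refl)
    have h1' : c x u ≠ a := fun e => hnu (ReflTransGen.single ⟨hx, hu, e⟩)
    have h2' : c x v ≠ a := fun e => hnv (ReflTransGen.single ⟨hx, hv, e⟩)
    rcases hG.2 x u v hxu huv hxv with h | h | h
    · exact absurd (h.trans h2.2.2) h1'
    · exact absurd (h.symm.trans h2.2.2) h2'
    · exact h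

theorem homog {c : V → V → C} (hG : Gal c) {a : C} {J : Finset V} {x x' y y' : V}
    (hx : x ∈ J) (hy : y ∈ J) (hn : ¬ con c a J x y) (h : con c a J y y')
    (h' : con c a J x x') : c x y = c x' y' := by
  rw [homog1 hG hx hy hn h, hG.1 x y', hG.1 x' y']
  refine homog1 hG (con_mem h hy) hx ?_ h'
  exact fun hh => hn (con_symm hG.1 (con_trans h hh))

/-- `J` is connected in colour `a` -/
def Conn (c : V → V → C) (a : C) (J : Finset V) : Prop :=
  ∀ x ∈ J, ∀ y ∈ J, con c a J x y

theorem conn_cut {c : V → V → C} {a : C} {J : Finset V} (h : Conn c a J) {x y : V} (P : V → Prop)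
    (hx : x ∈ J) (hy : y ∈ J) (hPx : P x) (hPy : ¬ P y) :
    ∃ u ∈ J, ∃ v ∈ J, c u v = a ∧ P u ∧ ¬ P v := by
  have hcon := h x hx y hy
  by_contra hno
  push Not at hno
  have : ∀ z, con c a J x z → P z := by
    intro z hz
    induction hz with
    | refl => exact hPx
    | @tail u v h1 h2 ih => exact hno u h2.1 v h2.2.1 h2.2.2 ih
  exact hPy (this y hcon)

/-- key step: three colours, connected on `insert v J`, one of them not on `J` -/
theorem three_step {c : V → V → C} (hG : Gal c) {a b g : C} (hab : a ≠ b) (hag : a ≠ g)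
    (hbg : b ≠ g) {J : Finset V} {v : V} (hv : v ∉ J)
    (h1 : Conn c a (insert v J)) (h2 : Conn c b (insert v J)) (h3 : Conn c g (insert v J))
    (hn : ¬ Conn c a J) : False := by
  unfold Conn at hn
  push Not at hn
  obtain ⟨p, hp, q, hq, hpq⟩ := hn
  -- each component of colour a in J has an a-neighbour of v
  have hA : ∀ x0 ∈ J, ∃ x ∈ J, con c a J x0 x ∧ c v x = a := by
    intro x0 hx0
    obtain ⟨u, hu, w, hw, hcuw, hPu, hPw⟩ := conn_cut h1 (P := fun z => z ∈ J ∧ con c a J x0 z)
      (x := x0) (y := v) (mem_insert_of_mem hx0) (mem_insert_self _ _)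
      ⟨hx0, ReflTransGen.refl⟩ (fun h => hv h.1)
    rcases mem_insert.1 hw with hwv | hwJ
    · refine ⟨u, hPu.1, hPu.2, ?_⟩
      rw [← hwv, hG.1]; exact hcuw
    · exact absurd ⟨hwJ, con_trans hPu.2 (ReflTransGen.single ⟨hPu.1, hwJ, hcuw⟩)⟩ hPw
  have hB : ∀ k : C, Conn c k (insert v J) → ∃ y ∈ J, c v y = k := by
    intro k hk
    obtain ⟨u, hu, w, hw, hcuw, hPu, hPw⟩ := conn_cut hk (P := fun z => z = v)
      (x := v) (y := p) (mem_insert_self _ _) (mem_insert_of_mem hp) rfl
      (fun h => hv (h ▸ hp))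
    rcases mem_insert.1 hw with hwv | hwJ
    · exact absurd hwv hPw
    · exact ⟨w, hwJ, by rw [← hPu]; exact hcuw⟩
  obtain ⟨y, hy, hvy⟩ := hB b h2
  obtain ⟨z, hz, hvz⟩ := hB g h3
  -- propagation
  have hprop : ∀ x ∈ J, ∀ w ∈ J, ¬ con c a J x w → c v x = a → c v w ≠ a → c x w = c v w := by
    intro x hx w hw hnc hvx hvw
    have e1 : v ≠ x := fun e => hv (e ▸ hx)
    have e2 : v ≠ w := fun e => hv (e ▸ hw)
    have e3 : x ≠ w := fun e => hnc (e ▸ ReflTransGen.refl)
    rcases hG.2 v x w e1 e3 e2 with h | h | h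
    · exact absurd (ReflTransGen.single ⟨hx, hw, h.symm.trans hvx⟩) hnc
    · exact h
    · exact absurd (h.symm.trans hvx) hvw
  have hvy' : c v y ≠ a := by rw [hvy]; exact hab.symm
  have hvz' : c v z ≠ a := by rw [hvz]; exact hag.symm
  by_cases hyz : con c a J y z
  · -- choose a component different from that of y
    have : ∃ x0 ∈ J, ¬ con c a J x0 y := by
      by_contra hcon
      push Not at hcon
      exact hpq (con_trans (hcon p hp) (con_symm hG.1 (hcon q hq)))
    obtain ⟨x0, hx0, hx0y⟩ := this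
    obtain ⟨x, hx, hxc, hvx⟩ := hA x0 hx0
    have hxy : ¬ con c a J x y := fun h => hx0y (con_trans hxc h)
    have hxz : ¬ con c a J x z := fun h => hxy (con_trans h (con_symm hG.1 hyz))
    have k1 := hprop x hx y hy hxy hvx hvy'
    have k2 := hprop x hx z hz hxz hvx hvz'
    have k3 := homog1 hG hx hy hxy hyz
    rw [k1, k2, hvy, hvz] at k3
    exact hbg k3
  · obtain ⟨x1, hx1, hx1c, hvx1⟩ := hA y hy
    obtain ⟨x2, hx2, hx2c, hvx2⟩ := hA z hz
    have n1 : ¬ con c a J x1 z := fun h => hyz (con_trans hx1c h)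
    have n2 : ¬ con c a J x2 y := fun h => hyz (con_symm hG.1 (con_trans hx2c h))
    have k1 := hprop x1 hx1 z hz n1 hvx1 hvz'
    have k2 := hprop x2 hx2 y hy n2 hvx2 hvy'
    have k3 := homog hG hy hz hyz hx2c hx1c
    rw [hG.1 x2 y] at k2
    -- c y z = c x1 x2
    have k4 : c y z = c x1 z := homog hG hy hz hyz ReflTransGen.refl hx1c
    have k5 : c y z = c y x2 := homog hG hy hz hyz hx2c ReflTransGen.refl
    rw [k4, k1, hvz, k2, hvy] at k5
    exact hbg k5.symm

/-- At most two colours are connected. -/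
theorem not_three_conn {c : V → V → C} (hG : Gal c) {a b g : C} (hab : a ≠ b) (hag : a ≠ g)
    (hbg : b ≠ g) : ∀ (n : ℕ) (J : Finset V), J.card = n → 2 ≤ n →
    Conn c a J → Conn c b J → Conn c g J → False := by
  intro n
  induction n with
  | zero => intro J _ h; omega
  | succ n ih =>
    intro J hJ hn h1 h2 h3
    obtain ⟨v, hv⟩ : J.Nonempty := card_pos.1 (by omega)
    have hJ' : insert v (J.erase v) = J := insert_erase hv
    have hcard : (J.erase v).card = n := by rw [card_erase_of_mem hv, hJ]; rfl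
    have hnv : v ∉ J.erase v := notMem_erase _ _
    rw [← hJ'] at h1 h2 h3
    by_cases hn1 : n = 1
    · -- two vertices
      obtain ⟨w, hw⟩ := card_eq_one.1 (hcard.trans hn1)
      rw [hw] at h1 h2 h3 hnv
      have hvw : v ≠ w := fun e => hnv (by rw [e]; exact mem_singleton_self _)
      have key : ∀ k : C, Conn c k (insert v {w}) → c v w = k := by
        intro k hk
        obtain ⟨u, hu, x, hx, hcux, hPu, hPx⟩ := conn_cut hk (P := fun z => z = v)
          (x := v) (y := w) (mem_insert_self _ _) (mem_insert_of_mem (mem_singleton_self _)) rfl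
          (fun h => hvw h.symm)
        rcases mem_insert.1 hx with h | h
        · exact absurd h hPx
        · rw [← hPu, ← mem_singleton.1 h]; exact hcux
      exact hab ((key a h1).symm.trans (key b h2))
    · have hn2 : 2 ≤ n := by omega
      by_cases c1 : Conn c a (J.erase v)
      · by_cases c2 : Conn c b (J.erase v)
        · by_cases c3 : Conn c g (J.erase v)
          · exact ih _ hcard hn2 c1 c2 c3
          · exact three_step hG hag.symm hbg.symm hab hnv h3 h1 h2 c3
        · exact three_step hG hab.symm hbg hag hnv h2 h1 h3 c2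
      · exact three_step hG hab hag hbg hnv h1 h2 h3 c1

/-- homogeneous partition given by `f` -/
def Hom (c : V → V → C) (S : Finset V) (f : V → V) : Prop :=
  ∀ x ∈ S, ∀ x' ∈ S, ∀ y ∈ S, ∀ y' ∈ S, f x = f x' → f y = f y' → f x ≠ f y → c x y = c x' y'

theorem gallai_struct {c : V → V → C} (hG : Gal c) {S : Finset V} (hS : 2 ≤ S.card) :
    (∃ A B : Finset V, A.Nonempty ∧ B.Nonempty ∧ Disjoint A B ∧ A ∪ B = S ∧
      ∃ b, ∀ x ∈ A, ∀ y ∈ B, c x y = b) ∨
    (∃ (f : V → V) (d : V → V → C) (r b : C), r ≠ b ∧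
      (∀ x ∈ S, ∀ y ∈ S, f x ≠ f y → c x y = d (f x) (f y)) ∧
      (∀ i j, d i j = d j i) ∧
      (∀ i ∈ S.image f, ∀ j ∈ S.image f, i ≠ j → d i j = r ∨ d i j = b) ∧
      (∀ i ∈ S.image f, (∃ j ∈ S.image f, j ≠ i ∧ d i j = r) ∧
        (∃ j ∈ S.image f, j ≠ i ∧ d i j = b))) := by
  classical
  -- minimal homogeneous partition
  have hex : ∃ t, ∃ f : V → V, Hom c S f ∧ (S.image f).card = t ∧ 2 ≤ t := by
    refine ⟨S.card, id, ?_, by rw [image_id], hS⟩
    intro x _ x' _ y _ y' _ h1 h2 _
    simp only [id] at h1 h2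
    rw [h1, h2]
  obtain ⟨f, hf, hft, ht2⟩ := Nat.find_spec hex
  have hmin : ∀ g : V → V, Hom c S g → 2 ≤ (S.image g).card →
      Nat.find hex ≤ (S.image g).card := fun g h1 h2 => Nat.find_min' hex ⟨g, h1, rfl, h2⟩
  set t := Nat.find hex with htdef
  set I := S.image f with hI
  -- representatives
  have hrep : ∀ i ∈ I, ∃ x ∈ S, f x = i := fun i hi => mem_image.1 hi
  choose! ρ hρS hρf using hrep
  set d : V → V → C := fun i j => c (ρ i) (ρ j) with hd
  have hdsymm : ∀ i j, d i j = d j i := fun i j => hG.1 _ _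
  have hcd : ∀ x ∈ S, ∀ y ∈ S, f x ≠ f y → c x y = d (f x) (f y) := by
    intro x hx y hy hxy
    have hix : f x ∈ I := mem_image_of_mem f hx
    have hiy : f y ∈ I := mem_image_of_mem f hy
    exact hf x hx (ρ (f x)) (hρS _ hix) y hy (ρ (f y)) (hρS _ hiy) (hρf _ hix).symm
      (hρf _ hiy).symm hxy
  -- the reduced colouring made globally Gallai is not needed: use a modified one
  -- inject: we work with the set of representatives
  set R := I.image ρ with hR
  have hρinj : ∀ i ∈ I, ∀ j ∈ I, ρ i = ρ j → i = j := by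
    intro i hi j hj h
    rw [← hρf i hi, ← hρf j hj, h]
  have hRcard : R.card = t := by
    rw [hR, card_image_of_injOn (fun i hi j hj h => hρinj i hi j hj h)]
    exact hft
  have hRS : ∀ x ∈ R, x ∈ S := by
    intro x hx
    obtain ⟨i, hi, rfl⟩ := mem_image.1 hx
    exact hρS i hi
  have hRf : ∀ x ∈ R, ∀ y ∈ R, f x = f y → x = y := by
    intro x hx y hy h
    obtain ⟨i, hi, rfl⟩ := mem_image.1 hx
    obtain ⟨j, hj, rfl⟩ := mem_image.1 hy
    rw [hρf i hi, hρf j hj] at h
    rw [h]
  -- at most two colours on R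
  have hused : ∀ a : C, (∃ x ∈ R, ∃ y ∈ R, x ≠ y ∧ c x y = a) → 3 ≤ t → Conn c a R := by
    rintro a ⟨x0, hx0, y0, hy0, hxy0, hca⟩ ht3
    by_contra hnc
    unfold Conn at hnc
    push Not at hnc
    obtain ⟨p, hp, q, hq, hpq⟩ := hnc
    -- new partition: component representatives
    let st : Setoid V := ⟨con c a R, fun _ => ReflTransGen.refl, fun h => con_symm hG.1 h,
      fun h h' => con_trans h h'⟩
    let g : V → V := fun x => (Quotient.mk st (ρ (f x))).out
    have hg : ∀ x y, g x = g y ↔ con c a R (ρ (f x)) (ρ (f y)) := by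
      intro x y
      constructor
      · intro h
        have h1 : Quotient.mk st (ρ (f x)) = Quotient.mk st (ρ (f y)) := by
          rw [← Quotient.out_eq (Quotient.mk st (ρ (f x))),
            ← Quotient.out_eq (Quotient.mk st (ρ (f y)))]
          exact congrArg _ h
        exact Quotient.exact h1
      · intro h
        have h1 : Quotient.mk st (ρ (f x)) = Quotient.mk st (ρ (f y)) := Quotient.sound h
        show (Quotient.mk st (ρ (f x))).out = _
        rw [h1]
    have hmemR : ∀ x ∈ S, ρ (f x) ∈ R := fun x hx =>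
      mem_image_of_mem ρ (mem_image_of_mem f hx)
    have hρR : ∀ x ∈ R, ρ (f x) = x := by
      intro x hx
      apply hRf _ (hmemR x (hRS x hx)) _ hx
      rw [hρf _ (mem_image_of_mem f (hRS x hx))]
    have hHom : Hom c S g := by
      intro x hx x' hx' y hy y' hy' h1 h2 h3
      rw [hg] at h1 h2
      rw [Ne, hg] at h3
      have hxy : f x ≠ f y := fun e => h3 (by rw [e]; exact ReflTransGen.refl)
      have hxy' : f x' ≠ f y' := by
        intro e
        apply h3
        rw [← e] at h2
        exact con_trans h1 (con_symm hG.1 h2)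
      rw [hcd x hx y hy hxy, hcd x' hx' y' hy' hxy']
      exact homog hG (hmemR x hx) (hmemR y hy) h3 h2 h1
    have hgcard2 : 2 ≤ (S.image g).card := by
      have : 1 < (S.image g).card := by
        rw [one_lt_card]
        refine ⟨g p, mem_image_of_mem g (hRS p hp), g q, mem_image_of_mem g (hRS q hq), ?_⟩
        rw [Ne, hg, hρR p hp, hρR q hq]
        exact hpq
      exact this
    have hlt : (S.image g).card < t := by
      have hsub : S.image g ⊆ (R.erase y0).image g := by
        intro z hz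
        obtain ⟨x, hx, rfl⟩ := mem_image.1 hz
        by_cases hxy : ρ (f x) = y0
        · refine mem_image.2 ⟨x0, mem_erase.2 ⟨hxy0, hx0⟩, ?_⟩
          rw [hg, hρR x0 hx0, hxy]
          exact ReflTransGen.single ⟨hx0, hy0, hca⟩
        · refine mem_image.2 ⟨ρ (f x), mem_erase.2 ⟨hxy, hmemR x hx⟩, ?_⟩
          rw [hg, hρR _ (hmemR x hx)]
          exact ReflTransGen.refl
      calc (S.image g).card ≤ ((R.erase y0).image g).card := card_le_card hsub
        _ ≤ (R.erase y0).card := card_image_le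
        _ < t := by
          rw [card_erase_of_mem hy0, hRcard]
          omega
    exact absurd (hmin g hHom hgcard2) (not_le.2 hlt)
  have htwo : ∃ r b : C, ∀ i ∈ I, ∀ j ∈ I, i ≠ j → d i j = r ∨ d i j = b := by
    by_contra hcon
    push Not at hcon
    have hI2 : 1 < I.card := by rw [hft]; omega
    obtain ⟨i1, hi1, j1, hj1, hij1⟩ := one_lt_card.1 hI2
    obtain ⟨i2, hi2, j2, hj2, hij2, hne2, -⟩ := hcon (d i1 j1) (d i1 j1)
    obtain ⟨i3, hi3, j3, hj3, hij3, hne3, hne3'⟩ := hcon (d i1 j1) (d i2 j2)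
    have hne : ∀ i ∈ I, ∀ j ∈ I, i ≠ j → ρ i ≠ ρ j := fun i hi j hj hij e =>
      hij (hρinj i hi j hj e)
    have ht3 : 3 ≤ t := by
      by_contra hlt
      have ht : I.card = 2 := by rw [hft]; omega
      obtain ⟨u, w, huw, hIuw⟩ := card_eq_two.1 ht
      have hall : ∀ i ∈ I, ∀ j ∈ I, i ≠ j → d i j = d u w := by
        intro i hi j hj hij
        rw [hIuw, mem_insert, mem_singleton] at hi hj
        rcases hi with rfl | rfl <;> rcases hj with rfl | rfl
        · exact absurd rfl hij
        · rfl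
        · exact hdsymm _ _
        · exact absurd rfl hij
      exact hne2 ((hall i2 hi2 j2 hj2 hij2).trans (hall i1 hi1 j1 hj1 hij1).symm)
    have u1 := hused (d i1 j1) ⟨ρ i1, mem_image_of_mem ρ hi1, ρ j1, mem_image_of_mem ρ hj1,
      hne _ hi1 _ hj1 hij1, rfl⟩ ht3
    have u2 := hused (d i2 j2) ⟨ρ i2, mem_image_of_mem ρ hi2, ρ j2, mem_image_of_mem ρ hj2,
      hne _ hi2 _ hj2 hij2, rfl⟩ ht3
    have u3 := hused (d i3 j3) ⟨ρ i3, mem_image_of_mem ρ hi3, ρ j3, mem_image_of_mem ρ hj3,
      hne _ hi3 _ hj3 hij3, rfl⟩ ht3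
    exact not_three_conn hG hne2.symm hne3.symm hne3'.symm t R hRcard ht2 u1 u2 u3
  obtain ⟨r, b, hrb⟩ := htwo
  by_cases hall : ∀ i ∈ I, (∃ j ∈ I, j ≠ i ∧ d i j = r) ∧ (∃ j ∈ I, j ≠ i ∧ d i j = b)
  · by_cases hrb' : r = b
    · -- single colour: split off one part
      left
      have hI2 : 1 < I.card := by rw [hft]; omega
      obtain ⟨i1, hi1, j1, hj1, hij1⟩ := one_lt_card.1 hI2
      refine ⟨S.filter (fun x => f x = i1), S.filter (fun x => f x ≠ i1), ?_, ?_, ?_, ?_, r, ?_⟩
      · exact ⟨ρ i1, mem_filter.2 ⟨hρS i1 hi1, hρf i1 hi1⟩⟩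
      · exact ⟨ρ j1, mem_filter.2 ⟨hρS j1 hj1, by rw [hρf j1 hj1]; exact hij1.symm⟩⟩
      · exact disjoint_filter_filter_not _ _ _
      · exact filter_union_filter_not_eq _ _
      · intro x hx y hy
        rw [mem_filter] at hx hy
        have hxy : f x ≠ f y := by rw [hx.2]; exact fun e => hy.2 e.symm
        rw [hcd x hx.1 y hy.1 hxy]
        rcases hrb _ (mem_image_of_mem f hx.1) _ (mem_image_of_mem f hy.1) hxy with h | h
        · exact h
        · rw [h, hrb']
    · right
      exact ⟨f, d, r, b, hrb', hcd, hdsymm, hrb, hall⟩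
  · left
    push Not at hall
    obtain ⟨i1, hi1, hi1'⟩ := hall
    -- all other parts are joined to i1 in one colour
    have hone : ∃ k, ∀ j ∈ I, j ≠ i1 → d i1 j = k := by
      by_cases hr : ∃ j ∈ I, j ≠ i1 ∧ d i1 j = r
      · refine ⟨r, fun j hj hj1 => ?_⟩
        rcases hrb i1 hi1 j hj hj1.symm with h | h
        · exact h
        · exact absurd h (hi1' hr j hj hj1)
      · refine ⟨b, fun j hj hj1 => ?_⟩
        rcases hrb i1 hi1 j hj hj1.symm with h | h
        · exact absurd ⟨j, hj, hj1, h⟩ hr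
        · exact h
    obtain ⟨k, hk⟩ := hone
    have hI2 : 1 < I.card := by rw [hft]; omega
    obtain ⟨j1, hj1, hij1⟩ := exists_mem_ne hI2 i1
    refine ⟨S.filter (fun x => f x = i1), S.filter (fun x => f x ≠ i1), ?_, ?_, ?_, ?_, k, ?_⟩
    · exact ⟨ρ i1, mem_filter.2 ⟨hρS i1 hi1, hρf i1 hi1⟩⟩
    · exact ⟨ρ j1, mem_filter.2 ⟨hρS j1 hj1, by rw [hρf j1 hj1]; exact hij1⟩⟩
    · exact disjoint_filter_filter_not _ _ _
    · exact filter_union_filter_not_eq _ _
    · intro x hx y hy
      rw [mem_filter] at hx hy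
      have hxy : f x ≠ f y := by rw [hx.2]; exact fun e => hy.2 e.symm
      rw [hcd x hx.1 y hy.1 hxy, hx.2]
      exact hk _ (mem_image_of_mem f hy.1) hy.2

end Pool.Agent.R71.GM
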