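import Pool.Agent.R71.GM.Part
import Pool.Agent.R71.GM.Struct

set_option autoImplicit false
set_option linter.unusedSectionVars false

namespace Pool.Agent.R71.GM

open Finset

variable {V C : Type*} [DecidableEq V] [DecidableEq C]

/-- every Gallai colouring with `k` colours of a set of size `n` has at least `f n` triangles -/
def LB (V C : Type*) [DecidableEq V] [DecidableEq C] (k : ℕ) (f : ℕ → ℝ) : Prop :=
  ∀ c : V → V → C, Gal c → ∀ K : Finset C, K.card = k → ∀ A : Finset V,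
    (∀ x ∈ A, ∀ y ∈ A, x ≠ y → c x y ∈ K) → f A.card ≤ T c A

theorem merge1 {c : V → V → C} (hG : Gal c) {K : Finset C} {k : ℕ} (hk : 2 ≤ k)
    (hK : K.card = k) {f1 : ℕ → ℝ} (P1 : LB V C (k - 1) f1) {b : C} (hb : b ∈ K)
    {τ' : ℝ} (hτ' : 1 / ((k : ℝ) - 1) ≤ τ') {A : Finset V}
    (hA : ∀ x ∈ A, ∀ y ∈ A, x ≠ y → c x y ∈ K) :
    f1 A.card ≤ T c A + τ' * A.card * (E2 c b A / 2) := by
  have hcard : (K.erase b).card = k - 1 := by rw [card_erase_of_mem hb, hK]
  have hne : (K.erase b).Nonempty := card_pos.1 (by omega)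
  obtain ⟨g, hg, hT⟩ := mrg_exists c b (K.erase b) (notMem_erase _ _) hne A
  have h1 := P1 (mrg c b g) (mrg_gal hG b g) (K.erase b) hcard A (by
    intro x hx y hy hxy
    unfold mrg
    by_cases h : c x y = b
    · rw [if_pos h]; exact hg
    · rw [if_neg h]; exact mem_erase.2 ⟨h, hA x hx y hy hxy⟩)
  have h2 : (A.card : ℝ) / ((K.erase b).card : ℝ) ≤ τ' * A.card := by
    rw [hcard]
    have : ((k - 1 : ℕ) : ℝ) = (k : ℝ) - 1 := by
      rw [Nat.cast_sub (by omega)]; norm_num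
    rw [this]
    have h0 : (0:ℝ) ≤ A.card := Nat.cast_nonneg _
    calc (A.card : ℝ) / ((k:ℝ) - 1) = (1 / ((k:ℝ) - 1)) * A.card := by ring
      _ ≤ τ' * A.card := mul_le_mul_of_nonneg_right hτ' h0
  have h3 : 0 ≤ E2 c b A / 2 := div_nonneg (E2_nonneg _ _ _) (by norm_num)
  have h4 := mul_le_mul_of_nonneg_right h2 h3
  linarith

theorem merge2 {c : V → V → C} (hG : Gal c) {K : Finset C} {k : ℕ} (hk : 3 ≤ k)
    (hK : K.card = k) {f2 : ℕ → ℝ} (P2 : LB V C (k - 2) f2) {r b : C} (hrb : r ≠ b)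
    (hr : r ∈ K) (hb : b ∈ K)
    {τ : ℝ} (hτ : 1 / ((k : ℝ) - 2) ≤ τ) {A : Finset V}
    (hA : ∀ x ∈ A, ∀ y ∈ A, x ≠ y → c x y ∈ K) :
    f2 A.card ≤ T c A + τ * A.card * (E2 c r A / 2 + E2 c b A / 2) := by
  set G := (K.erase r).erase b with hGdef
  have hbr : b ∈ K.erase r := mem_erase.2 ⟨hrb.symm, hb⟩
  have hcard : G.card = k - 2 := by
    rw [hGdef, card_erase_of_mem hbr, card_erase_of_mem hr, hK]; omega
  have hne : G.Nonempty := card_pos.1 (by omega)
  have hrG : r ∉ G := fun h => (notMem_erase r K) (mem_of_mem_erase h)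
  have hbG : b ∉ G := notMem_erase _ _
  obtain ⟨g1, hg1, hT1⟩ := mrg_exists c r G hrG hne A
  obtain ⟨g2, hg2, hT2⟩ := mrg_exists (mrg c r g1) b G hbG hne A
  have hg1b : g1 ≠ b := fun e => hbG (e ▸ hg1)
  have hE : E2 (mrg c r g1) b A = E2 c b A := by
    unfold E2
    refine sum_congr rfl fun x _ => sum_congr rfl fun y _ => ?_
    congr 1
    apply propext
    unfold mrg
    by_cases h : c x y = r
    · rw [if_pos h]
      constructor
      · rintro ⟨_, h2⟩; exact absurd h2 hg1b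
      · rintro ⟨_, h2⟩; exact absurd (h.symm.trans h2) hrb
    · rw [if_neg h]
  have h1 := P2 (mrg (mrg c r g1) b g2) (mrg_gal (mrg_gal hG _ _) _ _) G hcard A (by
    intro x hx y hy hxy
    have hK1 : mrg c r g1 x y ∈ K.erase r := by
      unfold mrg
      by_cases h : c x y = r
      · rw [if_pos h]; exact mem_of_mem_erase hg1
      · rw [if_neg h]; exact mem_erase.2 ⟨h, hA x hx y hy hxy⟩
    show (if mrg c r g1 x y = b then g2 else mrg c r g1 x y) ∈ G
    by_cases h : mrg c r g1 x y = b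
    · rw [if_pos h]; exact hg2
    · rw [if_neg h]; exact mem_erase.2 ⟨h, hK1⟩)
  have h2 : (A.card : ℝ) / (G.card : ℝ) ≤ τ * A.card := by
    rw [hcard]
    have : ((k - 2 : ℕ) : ℝ) = (k : ℝ) - 2 := by
      rw [Nat.cast_sub (by omega)]; norm_num
    rw [this]
    have h0 : (0:ℝ) ≤ A.card := Nat.cast_nonneg _
    calc (A.card : ℝ) / ((k:ℝ) - 2) = (1 / ((k:ℝ) - 2)) * A.card := by ring
      _ ≤ τ * A.card := mul_le_mul_of_nonneg_right hτ h0
  have h3 : 0 ≤ E2 c r A / 2 := div_nonneg (E2_nonneg _ _ _) (by norm_num)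
  have h3' : 0 ≤ E2 c b A / 2 := div_nonneg (E2_nonneg _ _ _) (by norm_num)
  have h4 := mul_le_mul_of_nonneg_right h2 h3
  have h4' := mul_le_mul_of_nonneg_right h2 h3'
  rw [hE] at hT2
  linarith

/-- the data needed in the induction step -/
structure Data (k : ℕ) (f1 f2 : ℕ → ℝ) (s w τ τ' : ℝ) : Prop where
  hk : 3 ≤ k
  hs : 0 < s
  hw : 0 < w
  hsw : s ^ 3 ≤ 5 / 4 * w ^ 2
  hτ : 1 / ((k : ℝ) - 2) ≤ τ
  hτ1 : τ ≤ 1
  hτ' : 1 / ((k : ℝ) - 1) ≤ τ'
  hτ'1 : τ' ≤ 1
  f2n : ∀ a, 0 ≤ f2 a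
  f1n : ∀ a, 0 ≤ f1 a
  h0 : ∀ a : ℕ, s * a - w ≤ f2 a
  h1 : ∀ b : ℕ, s * b - 5 / 2 * w ≤ f1 b
  h2 : ∀ a : ℕ, (1 + τ') * s * a - 5 * w ≤ f1 a
  h3 : ∀ a b : ℕ, (1 + τ) * s * a + s * b - 5 * w ≤ f2 a + f1 b
  h4 : ∀ a b : ℕ, τ * s * a + (1 + τ') * s * b - 5 * w ≤ f2 a + f1 b
  h5 : ∀ a r b : ℕ, r ≤ b → (b : ℝ) < τ * a →
    (1 + 2 * τ) * s * a - 5 * w ≤ f2 a + f1 r + f1 b ∨
    s * (a + r + b) + s * max 0 (τ' * a - b) - 5 * w ≤ f1 a + f1 r + f1 b

theorem tv_ge {c : V → V → C} {S A : Finset V} (hAS : A ⊆ S) {v : V}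
    (hvA : v ∉ A) {b : C} (h : ∀ a ∈ A, c v a = b) : E2 c b A ≤ tv c S v := by
  unfold tv
  have h1 : T3 c {v} A A = ((({v} : Finset V).card : ℕ) : ℝ) * E2 c b A :=
    T3_cone (disjoint_singleton_left.2 hvA) (fun w hw a ha => by
      rw [mem_singleton.1 hw]; exact h a ha)
  rw [card_singleton, Nat.cast_one, one_mul] at h1
  rw [← h1]
  exact T3_mono (Subset.refl _) hAS hAS

theorem two_part {c : V → V → C} (hG : Gal c) {K : Finset C} {k : ℕ} (hK : K.card = k)
    {f1 f2 : ℕ → ℝ} {s w τ τ' : ℝ} (D : Data k f1 f2 s w τ τ') (P1 : LB V C (k - 1) f1)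
    {S A B : Finset V} (hS : ∀ x ∈ S, ∀ y ∈ S, x ≠ y → c x y ∈ K)
    (hA : A.Nonempty) (hB : B.Nonempty) (hd : Disjoint A B) (hu : A ∪ B = S) {b : C}
    (hb : ∀ x ∈ A, ∀ y ∈ B, c x y = b) (htv : ∀ v ∈ S, tv c S v / 2 < s)
    (hAB : B.card ≤ A.card) : s * S.card - 5 * w ≤ T c S := by
  have hAS : A ⊆ S := hu ▸ subset_union_left
  have hBS : B ⊆ S := hu ▸ subset_union_right
  obtain ⟨x0, hx0⟩ := hA
  obtain ⟨y0, hy0⟩ := hB
  have hbK : b ∈ K := by
    rw [← hb x0 hx0 y0 hy0]
    exact hS x0 (hAS hx0) y0 (hBS hy0) (fun e => disjoint_left.1 hd hx0 (e ▸ hy0))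
  have hb' : ∀ y ∈ B, ∀ x ∈ A, c y x = b := fun y hy x hx => by rw [hG.1]; exact hb x hx y hy
  have eA : E2 c b A / 2 < s := by
    have := tv_ge (c := c) hAS (fun h => disjoint_left.1 hd h hy0) (hb' y0 hy0)
    have h2 := htv y0 (hBS hy0)
    linarith
  have mA := merge1 hG (by have := D.hk; omega) hK P1 hbK D.hτ' (A := A)
    (fun x hx y hy => hS x (hAS hx) y (hAS hy))
  have mB := merge1 hG (by have := D.hk; omega) hK P1 hbK D.hτ' (A := B)
    (fun x hx y hy => hS x (hBS hx) y (hBS hy))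
  have hT : T c S = T c A + T c B + B.card * (E2 c b A / 2) + A.card * (E2 c b B / 2) := by
    unfold T
    rw [← hu, T3_union_all hG.1 hd, T3_cone hd.symm hb', T3_cone hd hb]
    ring
  have hcard : (S.card : ℝ) = A.card + B.card := by
    rw [← hu, card_union_of_disjoint hd]; push_cast; rfl
  have eA0 : 0 ≤ E2 c b A / 2 := div_nonneg (E2_nonneg _ _ _) (by norm_num)
  have eB0 : 0 ≤ E2 c b B / 2 := div_nonneg (E2_nonneg _ _ _) (by norm_num)
  have hAB' : (B.card : ℝ) ≤ A.card := by exact_mod_cast hAB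
  have hB0 : (0:ℝ) ≤ B.card := Nat.cast_nonneg _
  have hA0 : (0:ℝ) ≤ A.card := Nat.cast_nonneg _
  have kB : f1 B.card ≤ T c B + A.card * (E2 c b B / 2) := by
    have h1 : τ' * (B.card : ℝ) ≤ A.card := by
      have := mul_le_mul_of_nonneg_right D.hτ'1 hB0
      linarith
    have := mul_le_mul_of_nonneg_right h1 eB0
    linarith
  by_cases hc1 : τ' * (A.card : ℝ) ≤ B.card
  · have kA : f1 A.card ≤ T c A + B.card * (E2 c b A / 2) := by
      have := mul_le_mul_of_nonneg_right hc1 eA0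
      linarith
    have h1 := D.h1 A.card
    have h2 := D.h1 B.card
    rw [hT, hcard]
    linarith
  · push Not at hc1
    have kA : f1 A.card - (τ' * A.card - B.card) * s ≤ T c A + B.card * (E2 c b A / 2) := by
      have := mul_le_mul_of_nonneg_left eA.le (by linarith : 0 ≤ τ' * (A.card:ℝ) - B.card)
      linarith
    have h2 := D.h2 A.card
    have hf := D.f1n B.card
    rw [hT, hcard]
    nlinarith

theorem three_part_count {c : V → V → C} (hG : Gal c) {S A R B : Finset V}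
    (hAR : Disjoint A R) (hAB : Disjoint A B) (hRB : Disjoint R B) (hu : A ∪ (R ∪ B) = S)
    {r b : C} (hr : ∀ x ∈ A, ∀ y ∈ R, c x y = r) (hb : ∀ x ∈ A, ∀ y ∈ B, c x y = b) :
    T c A + T c R + T c B + R.card * (E2 c r A / 2) + B.card * (E2 c b A / 2) +
      A.card * (E2 c r R / 2) + A.card * (E2 c b B / 2) ≤ T c S := by
  have hdY : Disjoint A (R ∪ B) := disjoint_union_right.2 ⟨hAR, hAB⟩
  have h1 := T3_union_all hG.1 hdY
  rw [hu] at h1
  have hr' : ∀ y ∈ R, ∀ x ∈ A, c y x = r := fun y hy x hx => by rw [hG.1]; exact hr x hx y hy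
  have hb' : ∀ y ∈ B, ∀ x ∈ A, c y x = b := fun y hy x hx => by rw [hG.1]; exact hb x hx y hy
  have h2 : T3 c (R ∪ B) A A = R.card * E2 c r A + B.card * E2 c b A := by
    rw [T3_union1 hRB, T3_cone hAR.symm hr', T3_cone hAB.symm hb']
  have h3 : (A.card : ℝ) * E2 c r R + A.card * E2 c b B ≤ T3 c A (R ∪ B) (R ∪ B) := by
    rw [T3_union2 hG.1 hRB, T3_union3 hG.1 hRB, T3_union3 hG.1 hRB, T3_cone hAR hr,
      T3_cone hAB hb]
    have k1 := T3_nonneg c A R B
    have k2 := T3_nonneg c A B R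
    linarith
  have h4 : T3 c R R R + T3 c B B B ≤ T3 c (R ∪ B) (R ∪ B) (R ∪ B) := by
    rw [T3_union_all hG.1 hRB]
    have k1 := T3_nonneg c B R R
    have k2 := T3_nonneg c R B B
    linarith
  unfold T
  rw [h1, h2]
  linarith

theorem unclean_both {c : V → V → C} (hG : Gal c) {K : Finset C} {k : ℕ} (hK : K.card = k)
    {f1 f2 : ℕ → ℝ} {s w τ τ' : ℝ} (D : Data k f1 f2 s w τ τ') (P1 : LB V C (k - 1) f1)
    (P2 : LB V C (k - 2) f2)
    {S A R B : Finset V} (hS : ∀ x ∈ S, ∀ y ∈ S, x ≠ y → c x y ∈ K)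
    (hA : A.Nonempty) (hRne : R.Nonempty) (hBne : B.Nonempty)
    (hAR : Disjoint A R) (hAB : Disjoint A B) (hRB : Disjoint R B) (hu : A ∪ (R ∪ B) = S)
    {r b : C} (hrb : r ≠ b) (hr : ∀ x ∈ A, ∀ y ∈ R, c x y = r)
    (hb : ∀ x ∈ A, ∀ y ∈ B, c x y = b) (htv : ∀ v ∈ S, tv c S v / 2 < s)
    (hle : R.card ≤ B.card) (hlt : (B.card : ℝ) < τ * A.card) :
    s * S.card - 5 * w ≤ T c S := by
  have hAS : A ⊆ S := hu ▸ subset_union_left
  have hRS : R ⊆ S := hu ▸ (subset_union_left.trans subset_union_right)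
  have hBS : B ⊆ S := hu ▸ (subset_union_right.trans subset_union_right)
  obtain ⟨x0, hx0⟩ := hA
  obtain ⟨y0, hy0⟩ := hRne
  obtain ⟨z0, hz0⟩ := hBne
  have hrK : r ∈ K := by
    rw [← hr x0 hx0 y0 hy0]
    exact hS x0 (hAS hx0) y0 (hRS hy0) (fun e => disjoint_left.1 hAR hx0 (e ▸ hy0))
  have hbK : b ∈ K := by
    rw [← hb x0 hx0 z0 hz0]
    exact hS x0 (hAS hx0) z0 (hBS hz0) (fun e => disjoint_left.1 hAB hx0 (e ▸ hz0))
  have hk := D.hk
  have cnt := three_part_count hG hAR hAB hRB hu hr hb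
  have eAr : E2 c r A / 2 < s := by
    have := tv_ge (c := c) hAS (fun h => disjoint_left.1 hAR h hy0)
      (fun a ha => by rw [hG.1]; exact hr a ha y0 hy0)
    have h2 := htv y0 (hRS hy0)
    linarith
  have eAb : E2 c b A / 2 < s := by
    have := tv_ge (c := c) hAS (fun h => disjoint_left.1 hAB h hz0)
      (fun a ha => by rw [hG.1]; exact hb a ha z0 hz0)
    have h2 := htv z0 (hBS hz0)
    linarith
  have mA2 := merge2 hG hk hK P2 hrb hrK hbK D.hτ (A := A)
    (fun x hx y hy => hS x (hAS hx) y (hAS hy))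
  have mA1 := merge1 hG (by omega) hK P1 hbK D.hτ' (A := A)
    (fun x hx y hy => hS x (hAS hx) y (hAS hy))
  have mB := merge1 hG (by omega) hK P1 hbK D.hτ' (A := B)
    (fun x hx y hy => hS x (hBS hx) y (hBS hy))
  have mR := merge1 hG (by omega) hK P1 hrK D.hτ' (A := R)
    (fun x hx y hy => hS x (hRS hx) y (hRS hy))
  have hcard : (S.card : ℝ) = A.card + R.card + B.card := by
    rw [← hu, card_union_of_disjoint (disjoint_union_right.2 ⟨hAR, hAB⟩),
      card_union_of_disjoint hRB]; push_cast; ring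
  have a0 : (0:ℝ) ≤ A.card := Nat.cast_nonneg _
  have r0 : (0:ℝ) ≤ R.card := Nat.cast_nonneg _
  have b0 : (0:ℝ) ≤ B.card := Nat.cast_nonneg _
  have hle' : (R.card : ℝ) ≤ B.card := by exact_mod_cast hle
  have eAr0 : 0 ≤ E2 c r A / 2 := div_nonneg (E2_nonneg _ _ _) (by norm_num)
  have eAb0 : 0 ≤ E2 c b A / 2 := div_nonneg (E2_nonneg _ _ _) (by norm_num)
  have eR0 : 0 ≤ E2 c r R / 2 := div_nonneg (E2_nonneg _ _ _) (by norm_num)
  have eB0 : 0 ≤ E2 c b B / 2 := div_nonneg (E2_nonneg _ _ _) (by norm_num)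
  have hBA : (B.card : ℝ) ≤ A.card := by
    have := mul_le_mul_of_nonneg_right D.hτ1 a0
    linarith
  have kB : f1 B.card ≤ T c B + A.card * (E2 c b B / 2) := by
    have h1 : τ' * (B.card : ℝ) ≤ A.card := by
      have := mul_le_mul_of_nonneg_right D.hτ'1 b0
      linarith
    have := mul_le_mul_of_nonneg_right h1 eB0
    linarith
  have kR : f1 R.card ≤ T c R + A.card * (E2 c r R / 2) := by
    have h1 : τ' * (R.card : ℝ) ≤ A.card := by
      have := mul_le_mul_of_nonneg_right D.hτ'1 r0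
      linarith
    have := mul_le_mul_of_nonneg_right h1 eR0
    linarith
  rw [hcard]
  rcases D.h5 A.card R.card B.card hle hlt with h5 | h5
  · have k1 := mul_le_mul_of_nonneg_left eAr.le (by linarith : 0 ≤ τ * (A.card:ℝ) - R.card)
    have k2 := mul_le_mul_of_nonneg_left eAb.le (by linarith : 0 ≤ τ * (A.card:ℝ) - B.card)
    nlinarith
  · have k1 : (τ' * (A.card:ℝ) - B.card) * (E2 c b A / 2) ≤
        s * max 0 (τ' * (A.card:ℝ) - B.card) := by
      have h1 : (τ' * (A.card:ℝ) - B.card) * (E2 c b A / 2) ≤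
          max 0 (τ' * (A.card:ℝ) - B.card) * (E2 c b A / 2) :=
        mul_le_mul_of_nonneg_right (le_max_right _ _) eAb0
      have h2 : max 0 (τ' * (A.card:ℝ) - B.card) * (E2 c b A / 2) ≤
          max 0 (τ' * (A.card:ℝ) - B.card) * s :=
        mul_le_mul_of_nonneg_left eAb.le (le_max_left _ _)
      linarith
    have k3 : 0 ≤ (R.card : ℝ) * (E2 c r A / 2) := mul_nonneg r0 eAr0
    nlinarith

theorem unclean {c : V → V → C} (hG : Gal c) {K : Finset C} {k : ℕ} (hK : K.card = k)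
    {f1 f2 : ℕ → ℝ} {s w τ τ' : ℝ} (D : Data k f1 f2 s w τ τ') (P1 : LB V C (k - 1) f1)
    (P2 : LB V C (k - 2) f2)
    {S A R B : Finset V} (hS : ∀ x ∈ S, ∀ y ∈ S, x ≠ y → c x y ∈ K)
    (hA : A.Nonempty) (hRne : R.Nonempty) (hBne : B.Nonempty)
    (hAR : Disjoint A R) (hAB : Disjoint A B) (hRB : Disjoint R B) (hu : A ∪ (R ∪ B) = S)
    {r b : C} (hrb : r ≠ b) (hr : ∀ x ∈ A, ∀ y ∈ R, c x y = r)
    (hb : ∀ x ∈ A, ∀ y ∈ B, c x y = b) (htv : ∀ v ∈ S, tv c S v / 2 < s)
    (hlt : (R.card : ℝ) < τ * A.card) :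
    s * S.card - 5 * w ≤ T c S := by
  by_cases hBlt : (B.card : ℝ) < τ * A.card
  · rcases le_total R.card B.card with hle | hle
    · exact unclean_both hG hK D P1 P2 hS hA hRne hBne hAR hAB hRB hu hrb hr hb htv hle hBlt
    · exact unclean_both hG hK D P1 P2 hS hA hBne hRne hAB hAR hRB.symm
        (by rw [union_comm B R]; exact hu) hrb.symm hb hr htv hle hlt
  · push Not at hBlt
    have hAS : A ⊆ S := hu ▸ subset_union_left
    have hRS : R ⊆ S := hu ▸ (subset_union_left.trans subset_union_right)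
    have hBS : B ⊆ S := hu ▸ (subset_union_right.trans subset_union_right)
    obtain ⟨x0, hx0⟩ := hA
    obtain ⟨y0, hy0⟩ := hRne
    obtain ⟨z0, hz0⟩ := hBne
    have hrK : r ∈ K := by
      rw [← hr x0 hx0 y0 hy0]
      exact hS x0 (hAS hx0) y0 (hRS hy0) (fun e => disjoint_left.1 hAR hx0 (e ▸ hy0))
    have hbK : b ∈ K := by
      rw [← hb x0 hx0 z0 hz0]
      exact hS x0 (hAS hx0) z0 (hBS hz0) (fun e => disjoint_left.1 hAB hx0 (e ▸ hz0))
    have hk := D.hk
    have cnt := three_part_count hG hAR hAB hRB hu hr hb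
    have eAr : E2 c r A / 2 < s := by
      have := tv_ge (c := c) hAS (fun h => disjoint_left.1 hAR h hy0)
        (fun a ha => by rw [hG.1]; exact hr a ha y0 hy0)
      have h2 := htv y0 (hRS hy0)
      linarith
    have eBb : E2 c b B / 2 < s := by
      have := tv_ge (c := c) hBS (fun h => disjoint_left.1 hAB hx0 h)
        (fun a ha => hb x0 hx0 a ha)
      have h2 := htv x0 (hAS hx0)
      linarith
    have mA2 := merge2 hG hk hK P2 hrb hrK hbK D.hτ (A := A)
      (fun x hx y hy => hS x (hAS hx) y (hAS hy))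
    have mB := merge1 hG (by omega) hK P1 hbK D.hτ' (A := B)
      (fun x hx y hy => hS x (hBS hx) y (hBS hy))
    have hcard : (S.card : ℝ) = A.card + R.card + B.card := by
      rw [← hu, card_union_of_disjoint (disjoint_union_right.2 ⟨hAR, hAB⟩),
        card_union_of_disjoint hRB]; push_cast; ring
    have a0 : (0:ℝ) ≤ A.card := Nat.cast_nonneg _
    have r0 : (0:ℝ) ≤ R.card := Nat.cast_nonneg _
    have b0 : (0:ℝ) ≤ B.card := Nat.cast_nonneg _
    have eAr0 : 0 ≤ E2 c r A / 2 := div_nonneg (E2_nonneg _ _ _) (by norm_num)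
    have eAb0 : 0 ≤ E2 c b A / 2 := div_nonneg (E2_nonneg _ _ _) (by norm_num)
    have eR0 : 0 ≤ (A.card : ℝ) * (E2 c r R / 2) :=
      mul_nonneg a0 (div_nonneg (E2_nonneg _ _ _) (by norm_num))
    have eB0 : 0 ≤ E2 c b B / 2 := div_nonneg (E2_nonneg _ _ _) (by norm_num)
    have tR := T_nonneg c R
    have kA : f2 A.card - (τ * A.card - R.card) * s ≤
        T c A + R.card * (E2 c r A / 2) + B.card * (E2 c b A / 2) := by
      have k1 := mul_le_mul_of_nonneg_left eAr.le (by linarith : 0 ≤ τ * (A.card:ℝ) - R.card)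
      have k2 := mul_le_mul_of_nonneg_right hBlt eAb0
      nlinarith
    rw [hcard]
    by_cases hc1 : τ' * (B.card : ℝ) ≤ A.card
    · have kB : f1 B.card ≤ T c B + A.card * (E2 c b B / 2) := by
        have := mul_le_mul_of_nonneg_right hc1 eB0
        linarith
      have h3 := D.h3 A.card B.card
      nlinarith
    · push Not at hc1
      have kB : f1 B.card - (τ' * B.card - A.card) * s ≤ T c B + A.card * (E2 c b B / 2) := by
        have := mul_le_mul_of_nonneg_left eBb.le (by linarith : 0 ≤ τ' * (B.card:ℝ) - A.card)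
        linarith
      have h4 := D.h4 A.card B.card
      nlinarith

/-- union of the parts joined to `i` in colour `k` -/
def Ns (S : Finset V) (f : V → V) (d : V → V → C) (k : C) (i : V) : Finset V :=
  S.filter (fun x => f x ≠ i ∧ d i (f x) = k)

theorem Ns_card (S : Finset V) (f : V → V) (d : V → V → C) (k : C) (i : V) :
    ((Ns S f d k i).card : ℝ) = Nb S f d k i := by
  unfold Ns Nb Pt
  rw [card_filter]
  push_cast
  rw [← sum_fiberwise_of_maps_to (t := S.image f) (fun x hx => mem_image_of_mem f hx)]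
  refine sum_congr rfl fun j _ => ?_
  by_cases h : j ≠ i ∧ d i j = k
  · rw [if_pos h]
    rw [sum_congr rfl (g := fun _ => (1:ℝ))]
    · simp
    · intro x hx
      rw [(mem_filter.1 hx).2, if_pos h]
  · rw [if_neg h]
    refine sum_eq_zero fun x hx => ?_
    rw [(mem_filter.1 hx).2, if_neg h]

theorem main_step {c : V → V → C} (hG : Gal c) {K : Finset C} {k : ℕ} (hK : K.card = k)
    {f1 f2 : ℕ → ℝ} {s w τ τ' : ℝ} (D : Data k f1 f2 s w τ τ') (P1 : LB V C (k - 1) f1)
    (P2 : LB V C (k - 2) f2) :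
    ∀ (n : ℕ) (S : Finset V), S.card = n → (∀ x ∈ S, ∀ y ∈ S, x ≠ y → c x y ∈ K) →
      s * n - 5 * w ≤ T c S := by
  intro n
  induction n with
  | zero =>
    intro S _ _
    have := T_nonneg c S
    have := D.hw
    push_cast
    linarith
  | succ n ih =>
    intro S hSn hS
    by_cases hn1 : n = 0
    · -- one vertex
      obtain ⟨K', hK'1, hK'2⟩ := exists_subset_card_eq (s := K) (n := k - 1) (by omega)
      have h := P1 c hG K' hK'2 S (by
        intro x hx y hy hxy
        have : S.card ≤ 1 := by omega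
        exact absurd (card_le_one.1 this x hx y hy) hxy)
      have h1 := D.h1 S.card
      have hw := D.hw
      rw [hSn] at h h1
      linarith
    by_cases hv : ∃ v ∈ S, s ≤ tv c S v / 2
    · obtain ⟨v, hvS, hvs⟩ := hv
      have h := ih (S.erase v) (by rw [card_erase_of_mem hvS, hSn]; rfl)
        (fun x hx y hy => hS x (mem_of_mem_erase hx) y (mem_of_mem_erase hy))
      rw [T_erase hG.1 hvS]
      push_cast
      linarith
    push Not at hv
    rw [← hSn]
    rcases gallai_struct hG (S := S) (by omega) with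
      ⟨A, B, hA, hB, hd, hu, b, hb⟩ | ⟨f, d, r, b, hrb, hcd, hd, h2, hnb⟩
    · rcases le_total B.card A.card with hle | hle
      · exact two_part hG hK D P1 hS hA hB hd hu hb hv hle
      · exact two_part hG hK D P1 hS hB hA hd.symm (by rw [union_comm]; exact hu)
          (fun x hx y hy => by rw [hG.1]; exact hb y hy x hx) hv hle
    · -- general facts on a part
      have hpart : ∀ i ∈ S.image f, (Pt S f i).Nonempty ∧ (Ns S f d r i).Nonempty ∧
          (Ns S f d b i).Nonempty ∧ Disjoint (Pt S f i) (Ns S f d r i) ∧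
          Disjoint (Pt S f i) (Ns S f d b i) ∧ Disjoint (Ns S f d r i) (Ns S f d b i) ∧
          Pt S f i ∪ (Ns S f d r i ∪ Ns S f d b i) = S ∧
          (∀ x ∈ Pt S f i, ∀ y ∈ Ns S f d r i, c x y = r) ∧
          (∀ x ∈ Pt S f i, ∀ y ∈ Ns S f d b i, c x y = b) := by
        intro i hi
        refine ⟨?_, ?_, ?_, ?_, ?_, ?_, ?_, ?_, ?_⟩
        · obtain ⟨x, hx, hxi⟩ := mem_image.1 hi
          exact ⟨x, mem_filter.2 ⟨hx, hxi⟩⟩
        · obtain ⟨j, hj, hji, hdj⟩ := (hnb i hi).1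
          obtain ⟨x, hx, hxj⟩ := mem_image.1 hj
          exact ⟨x, mem_filter.2 ⟨hx, by rw [hxj]; exact ⟨hji, hdj⟩⟩⟩
        · obtain ⟨j, hj, hji, hdj⟩ := (hnb i hi).2
          obtain ⟨x, hx, hxj⟩ := mem_image.1 hj
          exact ⟨x, mem_filter.2 ⟨hx, by rw [hxj]; exact ⟨hji, hdj⟩⟩⟩
        · rw [disjoint_left]
          intro x hx hx'
          exact (mem_filter.1 hx').2.1 (mem_filter.1 hx).2
        · rw [disjoint_left]
          intro x hx hx'
          exact (mem_filter.1 hx').2.1 (mem_filter.1 hx).2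
        · rw [disjoint_left]
          intro x hx hx'
          exact hrb ((mem_filter.1 hx).2.2.symm.trans (mem_filter.1 hx').2.2)
        · ext x
          simp only [mem_union, Pt, Ns, mem_filter]
          constructor
          · rintro (h | h | h) <;> exact h.1
          · intro hx
            by_cases hxi : f x = i
            · exact Or.inl ⟨hx, hxi⟩
            · rcases h2 i hi (f x) (mem_image_of_mem f hx) (fun e => hxi e.symm) with h | h
              · exact Or.inr (Or.inl ⟨hx, hxi, h⟩)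
              · exact Or.inr (Or.inr ⟨hx, hxi, h⟩)
        · intro x hx y hy
          have hx' := mem_filter.1 hx
          have hy' := mem_filter.1 hy
          rw [hcd x hx'.1 y hy'.1 (by rw [hx'.2]; exact fun e => hy'.2.1 e.symm), hx'.2]
          exact hy'.2.2
        · intro x hx y hy
          have hx' := mem_filter.1 hx
          have hy' := mem_filter.1 hy
          rw [hcd x hx'.1 y hy'.1 (by rw [hx'.2]; exact fun e => hy'.2.1 e.symm), hx'.2]
          exact hy'.2.2
      by_cases hclean : ∀ i ∈ S.image f, τ * ((Pt S f i).card : ℝ) ≤ (Ns S f d r i).card ∧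
          τ * ((Pt S f i).card : ℝ) ≤ (Ns S f d b i).card
      · -- clean case
        have hne : (S.image f).Nonempty := by
          have : S.Nonempty := card_pos.1 (by omega)
          exact this.image f
        obtain ⟨i0, hi0⟩ := hne
        have hrK : r ∈ K := by
          obtain ⟨⟨x, hx⟩, ⟨y, hy⟩, _, hdis, _, _, _, hh, _⟩ := hpart i0 hi0
          rw [← hh x hx y hy]
          exact hS x (filter_subset _ _ hx) y (filter_subset _ _ hy)
            (fun e => disjoint_left.1 hdis hx (e ▸ hy))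
        have hbK : b ∈ K := by
          obtain ⟨⟨x, hx⟩, _, ⟨y, hy⟩, _, hdis, _, _, _, hh⟩ := hpart i0 hi0
          rw [← hh x hx y hy]
          exact hS x (filter_subset _ _ hx) y (filter_subset _ _ hy)
            (fun e => disjoint_left.1 hdis hx (e ▸ hy))
        rw [part_count hG.1 hrb hcd hd h2, card_fiber S f]
        have hcl := clean_ineq hd hrb h2 (n := fun i => ((Pt S f i).card : ℝ))
          (fun i _ => Nat.cast_nonneg _) D.hs D.hw D.hsw
        refine hcl.trans ?_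
        have : ∑ i ∈ S.image f, max 0 (s * ((Pt S f i).card : ℝ) - w) ≤
            ∑ i ∈ S.image f, (T c (Pt S f i) + Nb S f d r i * (E2 c r (Pt S f i) / 2) +
              Nb S f d b i * (E2 c b (Pt S f i) / 2)) := by
          refine sum_le_sum fun i hi => ?_
          have m2 := merge2 hG D.hk hK P2 hrb hrK hbK D.hτ (A := Pt S f i)
            (fun x hx y hy => hS x (filter_subset _ _ hx) y (filter_subset _ _ hy))
          have e1 : 0 ≤ E2 c r (Pt S f i) / 2 := div_nonneg (E2_nonneg _ _ _) (by norm_num)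
          have e2 : 0 ≤ E2 c b (Pt S f i) / 2 := div_nonneg (E2_nonneg _ _ _) (by norm_num)
          have c1 := (hclean i hi).1
          have c2 := (hclean i hi).2
          rw [Ns_card] at c1 c2
          have k1 := mul_le_mul_of_nonneg_right c1 e1
          have k2 := mul_le_mul_of_nonneg_right c2 e2
          have hf : f2 (Pt S f i).card ≤ T c (Pt S f i) +
              Nb S f d r i * (E2 c r (Pt S f i) / 2) +
              Nb S f d b i * (E2 c b (Pt S f i) / 2) := by nlinarith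
          exact (max_le (D.f2n _) (D.h0 _)).trans hf
        linarith
      · push Not at hclean
        obtain ⟨i, hi, hcl⟩ := hclean
        obtain ⟨hA, hR, hB, hAR, hAB, hRB, hu, hr', hb'⟩ := hpart i hi
        by_cases hlt : ((Ns S f d r i).card : ℝ) < τ * ((Pt S f i).card : ℝ)
        · exact unclean hG hK D P1 P2 hS hA hR hB hAR hAB hRB hu hrb hr' hb' hv hlt
        · push Not at hlt
          exact unclean hG hK D P1 P2 hS hA hB hR hAB hAR hRB.symm
            (by rw [union_comm (Ns S f d b i)]; exact hu) hrb.symm hb' hr' hv (hcl hlt)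

end Pool.Agent.R71.GM
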